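import Pool.Agent.X308.S.Defs

/-!
# Varieties with algebraic even cohomology: definitions
-/

set_option autoImplicit false

open CategoryTheory AlgebraicGeometry

universe u v w

namespace Pool.Agent.X308.S

open Pool.Agent.H914 Pool.Agent.H914.VarClass Pool.Agent.H914.VarClass.Obj Pool.Agent.W492.BB
  Pool.Agent.W550.Corr Pool.Agent.TH133

variable {k : Type u} [Field k] {𝒱 : VarClass k} {C : TheoryData.{u, v, 0} 𝒱 ℚ} {K : Type w}
  [Field K] (H : WeilTheoryData.{u, v, w} C K)

/-- The even cohomology of `X` is algebraic: for every `m` there are cycles `a i ∈ CH^(d-m)(X)` and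
`b i ∈ CH^m(X)` with intersection numbers `deg (a i · b j) = δ_ij` whose classes are dual bases of
`H^(2d-2m)(X)` and `H^(2m)(X)`, that is, `x = ∑ (a i · x) b i` for `x ∈ H^(2m)(X)`. -/
def EvenAlgebraic (X : 𝒱.Obj) : Prop :=
  ∀ m : ℕ, ∃ (n : ℕ) (a b : Fin n → C.A X),
    (∀ i, C.Deg ((X.dim : ℤ) - m) (a i) ∧ C.Deg m (b i)) ∧
    (∀ i j, HasDegree C (C.mul (a i) (b j)) (if i = j then 1 else 0)) ∧
    ∀ x : H.A X, H.Deg (2 * m) x → H.act (H.cl (∑ i, C.ext (a i) (b i))) x = x

/-- Homologically trivial cycles on `X` are detected by curves: a homologically trivial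
`x ∈ CH^l(X)` is zero if `Γ_* x = 0` in the Picard group of `T` for all curves `T` and all
`Γ ∈ CH^(d+1-l)(X × T)`. For zero-cycles on a surface this says that the Albanese kernel is zero. -/
def CurvesDetect (X : 𝒱.Obj) : Prop :=
  ∀ (l : ℕ) (x : C.A X), C.Deg l x → H.cl x = 0 →
    (∀ (T : 𝒱.Obj) (Γ : C.A (X.prod T)), T.dim = 1 → C.Deg ((X.dim : ℤ) + 1 - l) Γ →
      C.act Γ x = 0) → x = 0

end Pool.Agent.X308.S
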