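import Pool.Agent.TH133.Defs

/-!
# Surfaces: definitions
-/

set_option autoImplicit false

open CategoryTheory AlgebraicGeometry

universe u v w

namespace Pool.Agent.X308.S

open Pool.Agent.H914 Pool.Agent.H914.VarClass Pool.Agent.H914.VarClass.Obj Pool.Agent.W492.BB
  Pool.Agent.W550.Corr Pool.Agent.TH133

variable {k : Type u} [Field k] {𝒱 : VarClass k} {C : TheoryData.{u, v, 0} 𝒱 ℚ} {K : Type w}
  [Field K] (H : WeilTheoryData.{u, v, w} C K)

/-- `π` is a Chow-Kunneth decomposition of the surface `S` of the kind constructed by Murre: `π 0`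
and `π 4` are `x × S` and `S × x'` for zero-cycles `x`, `x'`, and `h^1(S) = (S, π 1)` and
`h^3(S) = (S, π 3)` are direct summands of `h(T)` and `h(T')(-1)` for curves `T` and `T'`. -/
structure IsMurreCK (S : 𝒱.Obj) (π : ℕ → C.A (S.prod S)) : Prop where
  dim : S.dim = 2
  ck : IsCK H S π
  zero : ∃ x : C.A S, C.Deg 2 x ∧ π 0 = C.ext x 1
  four : ∃ x : C.A S, C.Deg 2 x ∧ π 4 = C.ext 1 x
  one : ∃ (T : 𝒱.Obj) (α : C.A (S.prod T)) (β : C.A (T.prod S)), T.dim = 1 ∧ C.Deg 2 α ∧
    C.Deg 1 β ∧ π 1 = C.comp α β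
  three : ∃ (T : 𝒱.Obj) (α : C.A (S.prod T)) (β : C.A (T.prod S)), T.dim = 1 ∧ C.Deg 1 α ∧
    C.Deg 2 β ∧ π 3 = C.comp α β

/-- The known properties of divisors and of surfaces which are used:

* a homologically trivial divisor class on a product `X × Y` is the sum of the pull-backs of divisor
  classes on `X` and on `Y` (with rational coefficients);
* every surface has a Chow-Kunneth decomposition of Murre's kind, with `π 2` acting as zero on the
  homologically trivial divisor classes. -/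
structure SurfaceProperties : Prop where
  divisors : ∀ (X Y : 𝒱.Obj) (D : C.A (X.prod Y)), C.Deg 1 D → H.cl D = 0 →
    ∃ (a : C.A X) (b : C.A Y), C.Deg 1 a ∧ C.Deg 1 b ∧ D = C.ext a 1 + C.ext 1 b
  murre : ∀ S : 𝒱.Obj, S.dim = 2 → ∃ π : ℕ → C.A (S.prod S), IsMurreCK H S π ∧
    ∀ x : C.A S, C.Deg 1 x → H.cl x = 0 → C.act (π 2) x = 0

/-- The self-correspondences of degree zero of `X` which factor through sums of twists of motives of
surfaces: the span of the compositions `b ∘ a` of correspondences `a` from `X` to `S` and `b` from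
`S` to `X`, of opposite degrees, for surfaces `S`. -/
noncomputable def throughSurfaces (C : TheoryData.{u, v, 0} 𝒱 ℚ) (X : 𝒱.Obj) : Submodule ℚ (C.A (X.prod X)) :=
  Submodule.span ℚ {z | ∃ (S : 𝒱.Obj) (n : ℤ) (a : C.A (X.prod S)) (b : C.A (S.prod X)),
    S.dim = 2 ∧ C.Deg ((X.dim : ℤ) - n) a ∧ C.Deg (2 + n) b ∧ z = C.comp a b}

end Pool.Agent.X308.S
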