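import Pool.Agent.X308.S.Tri
import Pool.Agent.X308.Q.Tot
import Pool.Agent.TH133.Ext

/-!
# Murre's conjectures for varieties without weight-raising endomorphisms
-/

set_option autoImplicit false

open CategoryTheory AlgebraicGeometry

universe u v w

namespace Pool.Agent.X308.S

open Pool.Agent.H914 Pool.Agent.H914.VarClass Pool.Agent.H914.VarClass.Obj Pool.Agent.W492.BB
  Pool.Agent.W550.Corr Pool.Agent.TH133

set_option linter.unusedSectionVars false

variable {k : Type u} [Field k] {𝒱 : VarClass k} {C : TheoryData.{u, v, 0} 𝒱 ℚ}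
  [hC : IsChowProj C] {K : Type w} [Field K]
  {H : WeilTheoryData.{u, v, w} C K} [hH : IsWeilProj H] {X Y Z W : 𝒱.Obj}

include hC hH

/-- Homologically trivial cycles of codimension zero vanish. -/
lemma gr_zero_eq {z : C.A X} (hz : z ∈ C.gr X 0) (h : H.cl z = 0) : z = 0 := by
  obtain ⟨q, rfl⟩ := hC.gr_zero X z hz
  by_cases hq : q = 0
  · rw [hq, zero_smul]
  · exfalso
    have h1 : (1 : C.A X) = (q⁻¹ • (1 : C.A X)) * (q • (1 : C.A X)) := by
      rw [smul_mul_smul_comm, inv_mul_cancel₀ hq, one_smul, mul_one]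
    have h2 : (1 : H.A X) = 0 := by
      rw [← map_one H.cl, h1, map_mul, h, mul_zero]
    exact hH.one_ne_zero X h2

/-- Images of homologically trivial correspondences are homologically trivial. -/
lemma cl_act_zero {e : Cor C X} (he : H.cl (X := X.prod X) e = 0) (y : C.A X) :
    H.cl (actC C X e y) = 0 := by
  have h1 : H.cl (C.act (X := X) (Y := X) e y) = H.act (X := X) (Y := X)
      (H.cl (X := X.prod X) e) (H.cl y) := cl_act H _ _
  rw [he, TheoryData.act_zero] at h1
  exact h1

/-- If phantoms do not act trivially then some phantom which is an endomorphism of one `h^a` acts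
as the identity on a non-zero class in some `CH^l(X)`. -/
lemma exists_phantom {P : ℕ → Cor C X} (h : IsCK H X P) (hT : NoRaising C P)
    (hph : ¬ PhantomsActTrivially H X) :
    ∃ (l a : ℕ) (e : Cor C X) (y : C.A X), l ≤ X.dim ∧ 1 ≤ l ∧ a ≤ 2 * X.dim ∧ e ∈ cor0 C X ∧
      e * e = e ∧ H.cl (X := X.prod X) e = 0 ∧ P a * e = e ∧ e * P a = e ∧ y ∈ C.gr X l ∧ y ≠ 0 ∧
      actC C X e y = y := by
  unfold PhantomsActTrivially at hph
  push Not at hph
  obtain ⟨p, hp, hpp, hcl, x, hx⟩ := hph
  have h1 : ∃ (i : ℤ) (z : C.A X), z ∈ C.gr X i ∧ C.act p z ≠ 0 := by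
    by_contra hcon
    push Not at hcon
    apply hx
    have h2 : (⨆ i, C.gr X i) ≤ LinearMap.ker (C.actL (X := X) (Y := X) p) :=
      iSup_le fun i z hz => hcon i z hz
    have h3 : x ∈ ⨆ i, C.gr X i := by
      rw [Q.iSup_gr]
      trivial
    exact h2 h3
  obtain ⟨i, z, hz, hne⟩ := h1
  obtain ⟨a, e, y, ha, he, hee, hcle, hPe, heP, hy, hy0, hey⟩ :=
    exists_entry h hT (p := p) hp hpp hcl hz hne
  have hi : 0 ≤ i := by
    by_contra hcon
    rw [C.gr_neg X i (by omega)] at hy
    exact hy0 ((Submodule.mem_bot _).1 hy)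
  obtain ⟨l, rfl⟩ := Int.eq_ofNat_of_zero_le hi
  refine ⟨l, a, e, y, ?_, ?_, ha, he, hee, hcle, hPe, heP, hy, hy0, hey⟩
  · by_contra hcon
    exact hy0 (hC.gr_top X l y hy (by omega))
  · by_contra hcon
    have hl : l = 0 := by omega
    subst hl
    apply hy0
    apply gr_zero_eq (H := H) (by exact_mod_cast hy)
    rw [← hey]
    exact cl_act_zero hcle y

section move

variable {P : ℕ → Cor C X} {e : Cor C X} {a j : ℕ} {y : C.A X}

/-- The action of the moved decomposition on the class. -/
lemma move_act (h : IsCK H X P) (haj : j ≠ a) (hPe : P a * e = e)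
    (hey : actC C X e y = y) (i : ℕ) :
    actC C X (mv P e a j i) y = if i = j then y else 0 := by
  unfold mv
  have hact : ∀ (a b : Cor C X) (z : C.A X), actC C X (a * b) z = actC C X a (actC C X b z) :=
    fun a b z => by rw [map_mul]; rfl
  have hPy : ∀ i, actC C X (P i) y = if i = a then y else 0 := by
    intro i
    have h1 : actC C X (P i) y = actC C X (P i * (P a * e)) y := by rw [hPe, hact, hey]
    rw [h1, ← mul_assoc, h.mul_eq]
    by_cases hi : i = a
    · rw [if_pos hi, if_pos hi, hi, hPe, hey]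
    · rw [if_neg hi, if_neg hi, zero_mul, map_zero, LinearMap.zero_apply]
  by_cases hi : i = a
  · rw [if_pos hi, map_sub, LinearMap.sub_apply, hPy, if_pos rfl, hey, sub_self,
      if_neg (fun h' => haj (h'.symm.trans hi))]
  · rw [if_neg hi]
    by_cases hj : i = j
    · rw [if_pos hj, if_pos hj, map_add, LinearMap.add_apply, hPy, if_neg haj, hey, zero_add]
    · rw [if_neg hj, if_neg hj, hPy, if_neg hi]

lemma act_of_phantom (h : IsCK H X P) (hPe : P a * e = e) (hey : actC C X e y = y) (i : ℕ) :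
    actC C X (P i) y = if i = a then y else 0 := by
  have hact : ∀ (a b : Cor C X) (z : C.A X), actC C X (a * b) z = actC C X a (actC C X b z) :=
    fun a b z => by rw [map_mul]; rfl
  have h1 : actC C X (P i) y = actC C X (P i * (P a * e)) y := by rw [hPe, hact, hey]
  rw [h1, ← mul_assoc, h.mul_eq]
  by_cases hi : i = a
  · rw [if_pos hi, if_pos hi, hi, hPe, hey]
  · rw [if_neg hi, if_neg hi, zero_mul, map_zero, LinearMap.zero_apply]

end move

/-- Independence of one step of the filtration in each codimension implies that phantoms act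
trivially. -/
theorem phantoms_of_step {P : ℕ → Cor C X} (h : IsCK H X P) (hT : NoRaising C P) (n : ℕ → ℕ)
    (hn : ∀ l, 2 * l < n l + 2 * X.dim ∧ n l ≤ 2 * l)
    (hind : ∀ π π', IsCK H X π → IsCK H X π' → ∀ l, ckFil C π l (n l) = ckFil C π' l (n l)) :
    PhantomsActTrivially H X := by
  by_contra hph
  obtain ⟨l, a, e, y, hl, hl1, ha, he, hee, hcle, hPe, heP, hy, hy0, hey⟩ :=
    exists_phantom h hT hph
  have hPy := act_of_phantom h hPe hey
  obtain ⟨hn1, hn2⟩ := hn l
  by_cases hac : 2 * l + 1 - n l ≤ a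
  · -- move down to the weight `0`
    have h0a : 0 ≠ a := by omega
    have hck := IsCK.move h he hee hcle h0a hPe heP ha (by omega)
    have h1 := hind _ _ hck h l
    have h2 : y ∈ ckFil C P l (n l) := by
      rw [← h1, hck.mem_ckFil]
      refine ⟨hy, fun j hj => ?_⟩
      have h3 := move_act h h0a hPe hey j
      rw [if_neg (by omega)] at h3
      exact h3
    rw [h.mem_ckFil] at h2
    have h3 := h2.2 a hac
    have h4 := hPy a
    rw [if_pos rfl] at h4
    exact hy0 (h4.symm.trans h3)
  · -- move up to the weight `2 l + 1 - n l`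
    have hja : 2 * l + 1 - n l ≠ a := by omega
    have hck := IsCK.move h he hee hcle hja hPe heP ha (by omega)
    have h1 := hind _ _ h hck l
    have h2 : y ∈ ckFil C P l (n l) := by
      rw [h.mem_ckFil]
      refine ⟨hy, fun j hj => ?_⟩
      have h3 := hPy j
      rw [if_neg (by omega)] at h3
      exact h3
    rw [h1, hck.mem_ckFil] at h2
    have h3 := h2.2 (2 * l + 1 - n l) le_rfl
    have h4 := move_act h hja hPe hey (2 * l + 1 - n l)
    rw [if_pos rfl] at h4
    exact hy0 (h4.symm.trans h3)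

theorem murreC_of_phantoms {P : ℕ → Cor C X} (h : IsCK H X P) (hT : NoRaising C P)
    (hph : PhantomsActTrivially H X) : MurreC H X := by
  intro π π' hπ hπ' i n
  rw [← le_of_phantoms h hT hph hπ i n]
  exact le_of_phantoms h hT hph hπ' i n

theorem phantoms_of_murreC {P : ℕ → Cor C X} (h : IsCK H X P) (hT : NoRaising C P)
    (hX : MurreC H X) : PhantomsActTrivially H X := by
  by_cases hd : X.dim = 0
  · by_contra hph
    obtain ⟨l, a, e, y, hl, hl1, -⟩ := exists_phantom h hT hph
    omega
  · exact phantoms_of_step h hT (fun l => 2 * l) (fun l => ⟨by omega, le_rfl⟩)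
      (fun π π' hπ hπ' l => hX π π' hπ hπ' l _)

theorem phantoms_of_B1 {P : ℕ → Cor C X} (h : IsCK H X P) (hT : NoRaising C P)
    (hB : ∀ i : ℕ, ckFil C P i (i + 1) = ⊥) (hX : MurreB1 H X) : PhantomsActTrivially H X := by
  by_contra hph
  obtain ⟨l, a, e, y, hl, hl1, ha, he, hee, hcle, hPe, heP, hy, hy0, hey⟩ :=
    exists_phantom h hT hph
  have hPy := act_of_phantom h hPe hey
  -- the weight is at least `l`
  have hal : l ≤ a := by
    by_contra hcon
    have h1 : y ∈ ckFil C P l (l + 1) := by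
      rw [h.mem_ckFil]
      refine ⟨hy, fun j hj => ?_⟩
      have h3 := hPy j
      rw [if_neg (by omega)] at h3
      exact h3
    rw [hB l] at h1
    exact hy0 ((Submodule.mem_bot _).1 h1)
  have h0a : 0 ≠ a := by omega
  have hck := IsCK.move h he hee hcle h0a hPe heP ha (by omega)
  have h2 : y ∈ ckFil C (mv P e a 0) l (l + 1) := by
    rw [hck.mem_ckFil]
    refine ⟨hy, fun j hj => ?_⟩
    have h3 := move_act h h0a hPe hey j
    rw [if_neg (by omega)] at h3
    exact h3
  rw [hX _ hck l] at h2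
  exact hy0 ((Submodule.mem_bot _).1 h2)

theorem phantoms_of_D {P : ℕ → Cor C X} (h : IsCK H X P) (hT : NoRaising C P)
    (hD : ∀ (i : ℕ) (x : C.A X), x ∈ ckFil C P i 1 ↔ C.Deg i x ∧ H.cl x = 0)
    (hX : MurreD H X) : PhantomsActTrivially H X := by
  by_contra hph
  obtain ⟨l, a, e, y, hl, hl1, ha, he, hee, hcle, hPe, heP, hy, hy0, hey⟩ :=
    exists_phantom h hT hph
  have hPy := act_of_phantom h hPe hey
  have hcly : H.cl y = 0 := by
    rw [← hey]
    exact cl_act_zero hcle y
  have h1 : y ∈ ckFil C P l 1 := (hD l y).2 ⟨hy, hcly⟩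
  rw [h.mem_ckFil] at h1
  have hal : a < 2 * l := by
    by_contra hcon
    have h2 := h1.2 a (by omega)
    have h3 := hPy a
    rw [if_pos rfl] at h3
    exact hy0 (h3.symm.trans h2)
  have hja : 2 * l ≠ a := by omega
  have hck := IsCK.move h he hee hcle hja hPe heP ha (by omega)
  have h2 := (hX _ hck l y).2 ⟨hy, hcly⟩
  rw [hck.mem_ckFil] at h2
  have h3 := h2.2 (2 * l) (by omega)
  have h4 := move_act h hja hPe hey (2 * l)
  rw [if_pos rfl] at h4
  exact hy0 (h4.symm.trans h3)

/-- If one decomposition has no weight-raising endomorphisms and satisfies (B) and (D), then the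
conjectures (B), (C), (D) for all decompositions are equivalent. -/
theorem tfae_murre {P : ℕ → Cor C X} (h : IsCK H X P) (hT : NoRaising C P)
    (hB0 : ∀ i : ℕ, ckFil C P i 0 = C.gr X i) (hB1 : ∀ i : ℕ, ckFil C P i (i + 1) = ⊥)
    (hD : ∀ (i : ℕ) (x : C.A X), x ∈ ckFil C P i 1 ↔ C.Deg i x ∧ H.cl x = 0) :
    List.TFAE [MurreB0 H X ∧ MurreB1 H X, MurreB1 H X, MurreC H X, MurreD H X,
      PhantomsActTrivially H X] := by
  tfae_have 1 → 2 := fun h => h.2
  tfae_have 2 → 5 := phantoms_of_B1 h hT hB1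
  tfae_have 5 → 3 := murreC_of_phantoms h hT
  tfae_have 3 → 4 := by
    intro hX π hπ i x
    rw [hX π P hπ h i 1]
    exact hD i x
  tfae_have 4 → 5 := phantoms_of_D h hT hD
  tfae_have 3 → 1 := by
    intro hX
    refine ⟨fun π hπ i => ?_, fun π hπ i => ?_⟩
    · rw [hX π P hπ h i 0]
      exact hB0 i
    · rw [hX π P hπ h i (i + 1)]
      exact hB1 i
  tfae_finish

end Pool.Agent.X308.S
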