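import Pool.Agent.Y148.BB.Corr
import Pool.Agent.X308.S.Defs
import Pool.Agent.X308.S.TriMain

/-!
# Correspondences between surfaces do not raise the weights
-/

set_option autoImplicit false

open CategoryTheory AlgebraicGeometry

universe u v w

namespace Pool.Agent.X308.S

open Pool.Agent.H914 Pool.Agent.H914.VarClass Pool.Agent.H914.VarClass.Obj Pool.Agent.W492.BB
  Pool.Agent.W550.Corr Pool.Agent.TH133 Pool.Agent.Y148.BB

set_option linter.unusedSectionVars false

variable {k : Type u} [Field k] {𝒱 : VarClass k}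

section chow

variable {C : TheoryData.{u, v, 0} 𝒱 ℚ} [hC : IsChowProj C] {S T X Y Z W : 𝒱.Obj}

include hC

lemma act_deg {Γ : C.A (X.prod Y)} {e i j : ℤ} (hΓ : Γ ∈ C.gr (X.prod Y) e) {x : C.A X}
    (hx : x ∈ C.gr X i) (h : i + e - X.dim = j) : C.act Γ x ∈ C.gr Y j := by
  have h1 := act_mem' C (e := e - X.dim) (by rwa [add_sub_cancel]) hx
  rwa [show i + (e - (X.dim : ℤ)) = j by omega] at h1

lemma comp_deg {Γ : C.A (X.prod Y)} {Δ : C.A (Y.prod Z)} {e e' j : ℤ}
    (hΓ : Γ ∈ C.gr (X.prod Y) e) (hΔ : Δ ∈ C.gr (Y.prod Z) e') (h : e + e' - Y.dim = j) :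
    C.comp Γ Δ ∈ C.gr (X.prod Z) j := by
  have h1 := comp_mem C (e := e - X.dim) (e' := e' - Y.dim) (by rwa [add_sub_cancel])
    (by rwa [add_sub_cancel]) (Γ := Γ) (Δ := Δ)
  rwa [show (X.dim : ℤ) + (e - X.dim + (e' - Y.dim)) = j by omega] at h1

lemma zero_of_neg {x : C.A X} {i : ℤ} (hx : x ∈ C.gr X i) (h : i < 0) : x = 0 := by
  rw [C.gr_neg X i h] at hx
  exact (Submodule.mem_bot _).1 hx

lemma zero_of_top {x : C.A X} {i : ℤ} (hx : x ∈ C.gr X i) (h : (X.dim : ℤ) < i) : x = 0 :=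
  hC.gr_top X i x hx h

/-- Correspondences of codimension zero. -/
lemma corr_zero {D : C.A (X.prod Y)} (hD : D ∈ C.gr (X.prod Y) 0) :
    ∃ q : ℚ, D = q • C.ext (1 : C.A X) (1 : C.A Y) := by
  obtain ⟨q, rfl⟩ := hC.gr_zero _ D hD
  refine ⟨q, ?_⟩
  rw [TheoryData.ext, map_one, map_one, one_mul]

lemma comp_smul (q : ℚ) (Γ : C.A (X.prod Y)) (Δ : C.A (Y.prod Z)) :
    C.comp Γ (q • Δ) = q • C.comp Γ Δ := map_smul (compL C Γ) q Δ

lemma smul_comp (q : ℚ) (Γ : C.A (X.prod Y)) (Δ : C.A (Y.prod Z)) :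
    C.comp (q • Γ) Δ = q • C.comp Γ Δ := LinearMap.map_smul₂ (compL C) q Γ Δ

lemma tp_comp' (Γ : C.A (X.prod Y)) (Δ : C.A (Y.prod Z)) :
    tp C (C.comp Γ Δ) = C.comp (tp C Δ) (tp C Γ) := tp_comp C (ch_comm C) Γ Δ

end chow

section weil

variable {C : TheoryData.{u, v, 0} 𝒱 ℚ} [hC : IsChowProj C] {K : Type w} [Field K]
  {H : WeilTheoryData.{u, v, w} C K} [hH : IsWeilProj H] {S S' T X Y Z W : 𝒱.Obj}

include hC hH

/-- A correspondence which acts as zero on homogeneous classes is homologically trivial. -/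
lemma cl_zero_of {Γ : C.A (X.prod Y)}
    (h : ∀ (m : ℤ) (a : H.A X), a ∈ H.gr X m → H.act (H.cl Γ) a = 0) : H.cl Γ = 0 := by
  apply hom_zero_of_act
  have key : H.actL (H.cl Γ) = 0 := by
    apply ext_gr H
    intro m a ha
    rw [H.actL_apply, LinearMap.zero_apply]
    exact h m a ha
  intro a
  exact LinearMap.congr_fun key a

lemma actH_deg {Γ : C.A (X.prod Y)} {e m j : ℤ} (hΓ : Γ ∈ C.gr (X.prod Y) e) {a : H.A X}
    (ha : a ∈ H.gr X m) (h : m + 2 * (e - X.dim) = j) : H.act (H.cl Γ) a ∈ H.gr Y j := by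
  have h1 := actH_mem H (e := e - X.dim) (by rwa [add_sub_cancel]) ha
  rwa [h] at h1

lemma hgr_neg {a : H.A X} {m : ℤ} (ha : a ∈ H.gr X m) (h : m < 0) : a = 0 := by
  rw [H.gr_neg X m h] at ha
  exact (Submodule.mem_bot _).1 ha

/-- Entries of correspondences between pieces of different weights are homologically trivial. -/
lemma entry_zero {π : ℕ → C.A (X.prod X)} {ρ : ℕ → C.A (Y.prod Y)} (h : IsCK H X π)
    (h' : IsCK H Y ρ) {e : ℤ} {γ : C.A (X.prod Y)} (hγ : γ ∈ C.gr (X.prod Y) e) {i j : ℕ}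
    (hij : (i : ℤ) + 2 * (e - X.dim) ≠ j) : H.cl (C.comp (C.comp (π i) γ) (ρ j)) = 0 := by
  apply cl_zero_of
  intro m a ha
  rw [actH_comp, actH_comp, h.actH_eq i m ha]
  split_ifs with hm
  · have h1 := actH_deg (H := H) hγ ha rfl
    rw [h'.actH_eq j _ h1, if_neg (by omega)]
  · rw [TheoryData.act_map_zero, TheoryData.act_map_zero]

namespace IsMurreCK

variable {π : ℕ → C.A (S.prod S)} {ρ : ℕ → C.A (S'.prod S')}

/-- The dual of a Murre decomposition. -/
lemma dual (h : IsMurreCK H S π) : IsMurreCK H S (dualCK C π) := by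
  have hd := h.dim
  have e : ∀ i ≤ 4, dualCK C π i = tp C (π (4 - i)) := by
    intro i hi
    unfold dualCK
    rw [if_pos (by omega)]
    congr 2
    omega
  refine ⟨hd, h.ck.dual, ?_, ?_, ?_, ?_⟩
  · obtain ⟨x, hx, h1⟩ := h.four
    exact ⟨x, hx, by rw [e 0 (by omega), h1, tp_ext]⟩
  · obtain ⟨x, hx, h1⟩ := h.zero
    exact ⟨x, hx, by rw [e 4 (by omega), h1, tp_ext]⟩
  · obtain ⟨T, α, β, hT, hα, hβ, h1⟩ := h.three
    exact ⟨T, tp C β, tp C α, hT, tp_mem C hβ, tp_mem C hα, by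
      rw [e 1 (by omega), h1, tp_comp']⟩
  · obtain ⟨T, α, β, hT, hα, hβ, h1⟩ := h.one
    exact ⟨T, tp C β, tp C α, hT, tp_mem C hβ, tp_mem C hα, by
      rw [e 3 (by omega), h1, tp_comp']⟩

lemma tp_eq (h : IsMurreCK H S π) {i : ℕ} (hi : i ≤ 4) : tp C (π i) = dualCK C π (4 - i) := by
  have hd := h.dim
  unfold dualCK
  rw [if_pos (by omega)]
  congr 2
  omega

lemma mem (h : IsMurreCK H S π) (i : ℕ) : π i ∈ C.gr (S.prod S) 2 := by
  have h1 : π i ∈ C.gr (S.prod S) S.dim := h.ck.deg i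
  rw [h.dim] at h1
  exact_mod_cast h1

lemma out (h : IsMurreCK H S π) {i : ℕ} (hi : 4 < i) : π i = 0 :=
  h.ck.out i (by rw [h.dim]; omega)

/-- `(b0)`: the projectors of positive weight kill the fundamental class. -/
lemma act_one (h : IsMurreCK H S π) {i : ℕ} (hi : 0 < i) : C.act (π i) 1 = 0 := by
  apply gr_zero_eq (H := H) (act_deg (h.mem i) (C.one_mem S) (by rw [h.dim]; norm_num))
  rw [cl_act H, map_one]
  exact h.ck.act_ne i 0 1 (by omega) (H.one_mem S)

/-- `(b1)`: the projectors of weight at least three kill divisor classes. -/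
lemma act_divisor (h : IsMurreCK H S π) {i : ℕ} (hi : 3 ≤ i) {x : C.A S} (hx : x ∈ C.gr S 1) :
    C.act (π i) x = 0 := by
  rcases Nat.lt_or_ge 4 i with h4 | h4
  · rw [h.out h4, TheoryData.act_zero]
  · rcases Nat.lt_or_ge i 4 with h3 | h3
    · obtain rfl : i = 3 := by omega
      have h1 : C.act (π 3) x = C.act (π 3) (C.act (π 3) x) := by
        rw [← C.act_comp, h.ck.idem]
      rw [h1]
      set y := C.act (π 3) x with hy
      have hym : y ∈ C.gr S 1 := act_deg (h.mem 3) hx (by rw [h.dim]; norm_num)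
      have hycl : H.cl y = 0 := by
        rw [hy, cl_act H]
        exact h.ck.act_ne 3 (2 * 1) _ (by norm_num) (H.cl_mem hx)
      obtain ⟨T, α, β, hT, hα, hβ, h2⟩ := h.three
      rw [h2, C.act_comp]
      have h3 : C.act α y = 0 := by
        apply gr_zero_eq (H := H) (act_deg hα hym (by rw [h.dim]; norm_num))
        rw [cl_act H, hycl, TheoryData.act_map_zero]
      rw [h3, TheoryData.act_map_zero]
    · obtain rfl : i = 4 := by omega
      obtain ⟨x', hx', h1⟩ := h.four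
      rw [h1]
      exact act_ext_zero_of_lt (i := 1) (by rwa [one_mul]) (by rw [h.dim]; norm_num)

lemma act_tp_one (h : IsMurreCK H S π) {i : ℕ} (hi : i ≠ 4) : C.act (tp C (π i)) 1 = 0 := by
  rcases Nat.lt_or_ge 4 i with h4 | h4
  · rw [h.out h4, tp_zero, TheoryData.act_zero]
  · rw [h.tp_eq h4]
    exact h.dual.act_one (by omega)

lemma act_tp_divisor (h : IsMurreCK H S π) {i : ℕ} (hi : i ≤ 1) {x : C.A S}
    (hx : x ∈ C.gr S 1) : C.act (tp C (π i)) x = 0 := by
  rw [h.tp_eq (by omega)]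
  exact h.dual.act_divisor (by omega) hx

/-- The vanishing for an entry which is a sum of external products of the types `D × 1` and
`1 × D`. -/
lemma aux (_ : IsMurreCK H S π) (_ : IsMurreCK H S' ρ) {i j : ℕ} {X₀ : C.A (S.prod S')}
    (h1 : C.comp (C.comp (π i) X₀) (ρ j) = X₀) {a c : C.A S} {b d : C.A S'}
    (h2 : X₀ = C.ext a d + C.ext c b)
    (h3 : C.act (tp C (π i)) a = 0 ∨ C.act (ρ j) d = 0)
    (h4 : C.act (tp C (π i)) c = 0 ∨ C.act (ρ j) b = 0) : X₀ = 0 := by
  rw [← h1, h2, comp_add, add_comp, comp_ext, comp_ext, ext_comp, ext_comp]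
  have e1 : C.ext (C.act (tp C (π i)) a) (C.act (ρ j) d) = 0 := by
    rcases h3 with h3 | h3
    · rw [h3, TheoryData.ext_zero_left]
    · rw [h3, TheoryData.ext_zero_right]
  have e2 : C.ext (C.act (tp C (π i)) c) (C.act (ρ j) b) = 0 := by
    rcases h4 with h4 | h4
    · rw [h4, TheoryData.ext_zero_left]
    · rw [h4, TheoryData.ext_zero_right]
  rw [e1, e2, add_zero]

lemma entry_idem (h : IsMurreCK H S π) (h' : IsMurreCK H S' ρ) (γ : C.A (S.prod S')) (i j : ℕ) :
    C.comp (C.comp (π i) (C.comp (C.comp (π i) γ) (ρ j))) (ρ j) =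
      C.comp (C.comp (π i) γ) (ρ j) := by
  rw [comp_assoc C (π i) (C.comp (C.comp (π i) γ) (ρ j)), comp_assoc C (C.comp (π i) γ) (ρ j),
    h'.ck.idem, ← comp_assoc C (π i) (C.comp (π i) γ) (ρ j), ← comp_assoc C (π i) (π i) γ,
    h.ck.idem]

/-- **Correspondences between surfaces do not raise the weights.** -/
theorem key (hS : SurfaceProperties H) (h : IsMurreCK H S π) (h' : IsMurreCK H S' ρ) {r : ℤ}
    {γ : C.A (S.prod S')} (hγ : γ ∈ C.gr (S.prod S') (2 + r)) {i j : ℕ}
    (hij : (i : ℤ) + 2 * r < j) : C.comp (C.comp (π i) γ) (ρ j) = 0 := by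
  by_cases hi : 4 < i
  · rw [h.out hi, zero_comp, zero_comp]
  by_cases hj : 4 < j
  · rw [h'.out hj, comp_zero]
  have hd := h.dim
  have hd' := h'.dim
  have hcl : H.cl (C.comp (C.comp (π i) γ) (ρ j)) = 0 :=
    entry_zero h.ck h'.ck hγ (by rw [hd]; push_cast; omega)
  have hid := h.entry_idem h' γ i j
  set X₀ := C.comp (C.comp (π i) γ) (ρ j) with hX₀
  have hX₀m : X₀ ∈ C.gr (S.prod S') (2 + r) :=
    comp_deg (comp_deg (h.mem i) hγ rfl) (h'.mem j) (by rw [hd, hd']; push_cast; ring)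
  rcases lt_trichotomy r (-1) with hr | hr | hr
  · rcases lt_trichotomy r (-2) with hr' | hr' | hr'
    · exact zero_of_neg hX₀m (by omega)
    · subst hr'
      exact gr_zero_eq (H := H) (by simpa using hX₀m) hcl
    · omega
  · subst hr
    obtain ⟨a, b, ha, hb, h1⟩ := hS.divisors S S' X₀ (by simpa using hX₀m) hcl
    apply h.aux h' hid h1
    · by_cases hj0 : 0 < j
      · exact Or.inr (h'.act_one hj0)
      · exact Or.inl (h.act_tp_divisor (by omega) ha)
    · by_cases hi4 : i = 4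
      · exact Or.inr (h'.act_divisor (by omega) hb)
      · exact Or.inl (h.act_tp_one hi4)
  -- `i = 0`
  have case0 : i = 0 → X₀ = 0 := by
    intro hi0
    subst hi0
    obtain ⟨x, hx, h1⟩ := h.zero
    rw [hX₀, h1, ext_comp, ext_comp]
    have h2 : C.act γ 1 ∈ C.gr S' r := act_deg hγ (C.one_mem S) (by rw [hd]; push_cast; ring)
    have h3 : C.act (ρ j) (C.act γ 1) = 0 := by
      rcases lt_trichotomy r 1 with hr' | hr' | hr'
      · obtain rfl : r = 0 := by omega
        obtain ⟨q, hq⟩ := hC.gr_zero _ _ h2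
        rw [hq, act_map_smul, h'.act_one (by omega), smul_zero]
      · subst hr'
        exact h'.act_divisor (by omega) h2
      · omega
    rw [h3, TheoryData.ext_zero_right]
  -- `j = 4`
  have case4 : j = 4 → X₀ = 0 := by
    intro hj4
    subst hj4
    obtain ⟨x, hx, h1⟩ := h'.four
    rw [hX₀, h1, comp_ext, tp_comp', C.act_comp]
    have h2 : C.act (tp C γ) 1 ∈ C.gr S r :=
      act_deg (tp_mem C hγ) (C.one_mem S') (by rw [hd']; push_cast; ring)
    have h3 : C.act (tp C (π i)) (C.act (tp C γ) 1) = 0 := by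
      rcases lt_trichotomy r 1 with hr' | hr' | hr'
      · obtain rfl : r = 0 := by omega
        obtain ⟨q, hq⟩ := hC.gr_zero _ _ h2
        rw [hq, act_map_smul, h.act_tp_one (by omega), smul_zero]
      · subst hr'
        exact h.act_tp_divisor (by omega) h2
      · omega
    rw [h3, TheoryData.ext_zero_left]
  by_cases hi0 : i = 0
  · exact case0 hi0
  by_cases hj4 : j = 4
  · exact case4 hj4
  obtain rfl : r = 0 := by omega
  rw [add_zero] at hγ hX₀m
  by_cases hi1 : i = 1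
  · subst hi1
    obtain ⟨T, α, β, hT, hα, hβ, h1⟩ := h.one
    set G := C.comp (C.comp (C.comp β (π 1)) γ) (ρ j) with hG
    have hGm : G ∈ C.gr (T.prod S') 1 := by
      have h5 : C.comp β (π 1) ∈ C.gr (T.prod S) 1 :=
        comp_deg hβ (h.mem 1) (by rw [hd]; norm_num)
      have h6 : C.comp (C.comp β (π 1)) γ ∈ C.gr (T.prod S') 1 :=
        comp_deg h5 hγ (by rw [hd]; norm_num)
      exact comp_deg h6 (h'.mem j) (by rw [hd']; norm_num)
    have hGcl : H.cl G = 0 := by
      apply cl_zero_of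
      intro m a ha
      rw [hG, actH_comp, actH_comp, actH_comp]
      have h2 := actH_deg (H := H) hβ ha rfl
      rw [h.ck.actH_eq 1 _ h2]
      split_ifs with hm
      · have h3 := actH_deg (H := H) hγ h2 rfl
        rw [h'.ck.actH_eq j _ h3, if_neg (by rw [hd]; push_cast; omega)]
      · rw [TheoryData.act_map_zero, TheoryData.act_map_zero]
    have hXG : X₀ = C.comp α G := by
      rw [hX₀, hG]
      have h2 : π 1 = C.comp α (C.comp β (π 1)) := by
        rw [← comp_assoc, ← h1, h.ck.idem]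
      conv_lhs => rw [h2]
      rw [comp_assoc C α, comp_assoc C α]
    obtain ⟨a, b, ha, hb, h2⟩ := hS.divisors T S' G hGm hGcl
    rw [h2, comp_add, comp_ext, comp_ext] at hXG
    apply h.aux h' hid hXG
    · exact Or.inr (h'.act_one (by omega))
    · refine Or.inl (h.act_tp_divisor le_rfl ?_)
      exact act_deg (tp_mem C hα) (C.one_mem T) (by rw [hT]; norm_num)
  · -- `i = 2`, `j = 3`
    obtain rfl : i = 2 := by omega
    obtain rfl : j = 3 := by omega
    obtain ⟨T, α, β, hT, hα, hβ, h1⟩ := h'.three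
    set G := C.comp (C.comp (C.comp (π 2) γ) (ρ 3)) α with hG
    have hGm : G ∈ C.gr (S.prod T) 1 := comp_deg hX₀m hα (by rw [hd']; norm_num)
    have hGcl : H.cl G = 0 := by
      rw [hG, cl_comp, hcl, zero_comp]
    have hXG : X₀ = C.comp G β := by
      rw [hG, comp_assoc C _ α β, ← h1, comp_assoc C _ (ρ 3) (ρ 3), h'.ck.idem]
    obtain ⟨a, b, ha, hb, h2⟩ := hS.divisors S T G hGm hGcl
    rw [h2, add_comp, ext_comp, ext_comp] at hXG
    apply h.aux h' hid hXG
    · refine Or.inr (h'.act_divisor le_rfl ?_)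
      exact act_deg hβ (C.one_mem T) (by rw [hT]; norm_num)
    · exact Or.inl (h.act_tp_one (by omega))

/-- `π 2` acts as zero on homologically trivial divisors. -/
lemma act_pic (hS : SurfaceProperties H) (h : IsMurreCK H S π) {x : C.A S} (hx : x ∈ C.gr S 1)
    (hcl : H.cl x = 0) : C.act (π 2) x = 0 := by
  have hd := h.dim
  obtain ⟨μ, hμ, hpic⟩ := hS.murre S hd
  have h1 : x = C.act (μ 1) x := by
    have h2 : C.act (dg C S) x = x := act_dg C x
    rw [← hμ.ck.sum, hd, act_sum] at h2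
    simp only [show 2 * 2 + 1 = 5 from rfl, Finset.sum_range_succ, Finset.sum_range_zero] at h2
    rw [hpic x hx hcl, hμ.act_divisor le_rfl hx, hμ.act_divisor (i := 4) (by omega) hx] at h2
    have h3 : C.act (μ 0) x = 0 := by
      obtain ⟨y, hy, h4⟩ := hμ.zero
      rw [h4]
      exact act_ext_zero_of_lt (i := 2 + 1) (C.mul_mem hy hx) (by rw [hd]; norm_num)
    rw [h3] at h2
    simpa using h2.symm
  have h2 : C.comp (C.comp (μ 1) (dg C S)) (π 2) = 0 := by
    apply key hS hμ h (r := 0) (by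
      have := dg_mem C S
      rw [hd] at this
      simpa using this)
    norm_num
  rw [comp_dg] at h2
  rw [h1, ← C.act_comp, h2, TheoryData.act_zero]

end IsMurreCK

end weil

end Pool.Agent.X308.S
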