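import Pool.Agent.X308.S.Shift

/-!
# The Bloch-Beilinson filtration on varieties of surface type
-/

set_option autoImplicit false

open CategoryTheory AlgebraicGeometry

universe u v w

namespace Pool.Agent.X308.S

open Pool.Agent.H914 Pool.Agent.H914.VarClass Pool.Agent.H914.VarClass.Obj Pool.Agent.W492.BB
  Pool.Agent.W550.Corr Pool.Agent.TH133 Pool.Agent.Y148.BB

set_option linter.unusedSectionVars false

variable {k : Type u} [Field k] {𝒱 : VarClass k} {C : TheoryData.{u, v, 0} 𝒱 ℚ} {K : Type w}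
  [Field K] [hC : IsChowProj C]
  {H : WeilTheoryData.{u, v, w} C K} [hH : IsWeilProj H] {S S' T X Y Z W : 𝒱.Obj}

/-- A decomposition into pieces of pure weights. -/
structure IsPure (H : WeilTheoryData.{u, v, w} C K) {X : 𝒱.Obj} (π : ℕ → C.A (X.prod X)) :
    Prop where
  ck : IsCK H X π
  wt : ∀ w : ℕ, π w ∈ wt H X w

include hC hH

variable {π : ℕ → C.A (X.prod X)} {ρ : ℕ → C.A (Y.prod Y)}

lemma sum_act (h : IsCK H X π) (x : C.A X) :
    x = ∑ w ∈ Finset.range (2 * X.dim + 1), C.act (π w) x := by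
  rw [← act_sum, h.sum, act_dg]

lemma IsPure.stable (hS : SurfaceProperties H) (h : IsPure H π) (h' : IsPure H ρ) {i j n : ℕ}
    {Γ : C.A (X.prod Y)} (hΓ : Γ ∈ C.gr (X.prod Y) ((X.dim : ℤ) + j - i)) {x : C.A X}
    (hx : x ∈ ckFil C π i n) : C.act Γ x ∈ ckFil C ρ j n := by
  rw [h.ck.mem_ckFil] at hx
  rw [h'.ck.mem_ckFil]
  refine ⟨act_deg hΓ hx.1 (by ring), fun m hm => ?_⟩
  conv_lhs => rw [sum_act h.ck x]
  rw [act_map_sum, act_map_sum]
  apply Finset.sum_eq_zero
  intro w _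
  by_cases hw : 2 * i + 1 - n ≤ w
  · rw [hx.2 w hw, TheoryData.act_map_zero, TheoryData.act_map_zero]
  · rw [← C.act_comp, ← C.act_comp, ← comp_assoc]
    have h1 : Γ ∈ C.gr (X.prod Y) ((X.dim : ℤ) + (j - i)) := by
      rwa [show (X.dim : ℤ) + (j - i) = X.dim + j - i by ring]
    rw [wt_raise hS (w := w) (w' := m) (by omega) h1 (h.wt w) (h'.wt m), TheoryData.act_zero]

lemma IsPure.shift (hS : SurfaceProperties H) (hB : BlochCorrespondences H) (h : IsPure H π)
    (h' : IsPure H ρ) {i j n : ℕ} {Γ : C.A (X.prod Y)}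
    (hΓ : Γ ∈ C.gr (X.prod Y) ((X.dim : ℤ) + j - i)) (hk : Kills H Γ (2 * i - n)) {x : C.A X}
    (hx : x ∈ ckFil C π i n) : C.act Γ x ∈ ckFil C ρ j (n + 1) := by
  have hst := h.stable hS h' hΓ hx
  rw [h.ck.mem_ckFil] at hx
  rw [h'.ck.mem_ckFil] at hst ⊢
  refine ⟨hst.1, fun m hm => ?_⟩
  by_cases hmn : 2 * j + 1 - n ≤ m
  · exact hst.2 m hmn
  have hm2 : m + n = 2 * j := by omega
  conv_lhs => rw [sum_act h.ck x]
  rw [act_map_sum, act_map_sum]
  apply Finset.sum_eq_zero
  intro w _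
  by_cases hw : 2 * i + 1 - n ≤ w
  · rw [hx.2 w hw, TheoryData.act_map_zero, TheoryData.act_map_zero]
  have h1 : Γ ∈ C.gr (X.prod Y) ((X.dim : ℤ) + (j - i)) := by
    rwa [show (X.dim : ℤ) + (j - i) = X.dim + j - i by ring]
  by_cases hwi : w + n = 2 * i
  swap
  · rw [← C.act_comp, ← C.act_comp, ← comp_assoc,
      wt_raise hS (w := w) (w' := m) (by omega) h1 (h.wt w) (h'.wt m), TheoryData.act_zero]
  -- the homologically trivial entry
  set D := C.comp (C.comp (π w) Γ) (ρ m) with hD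
  have hDcl : H.cl D = 0 := by
    apply cl_zero_of
    intro q a ha
    rw [hD, actH_comp, actH_comp, h.ck.actH_eq w q ha]
    split_ifs with hq
    · have h2 : H.act (H.cl Γ) a = 0 := by
        apply hk a
        have h3 : (2 : ℤ) * i - n = q := by omega
        change a ∈ H.gr X (2 * i - n)
        rwa [h3]
      rw [h2, TheoryData.act_map_zero]
    · rw [TheoryData.act_map_zero, TheoryData.act_map_zero]
  have hDm : D ∈ C.gr (X.prod Y) ((X.dim : ℤ) + (j - i)) :=
    comp_deg (comp_deg (h.ck.deg w) h1 rfl) (h'.ck.deg m) (by ring)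
  have hDD : C.comp (C.comp (π w) D) (ρ m) = D := by
    rw [hD, comp_assoc C (π w) (C.comp (C.comp (π w) Γ) (ρ m)), comp_assoc C (C.comp (π w) Γ),
      h'.ck.idem, ← comp_assoc C (π w) (C.comp (π w) Γ), ← comp_assoc C (π w) (π w), h.ck.idem]
  rcases Nat.lt_or_ge n 3 with hn3 | hn3
  · interval_cases n
    · -- `n = 0`
      have h2 : C.act (π w) x ∈ C.gr X i := act_deg (h.ck.deg w) hx.1 (by ring)
      have h3 : H.cl (C.act Γ (C.act (π w) x)) = 0 := by
        rw [cl_act H]
        apply hk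
        have := H.cl_mem h2
        simpa using this
      exact wt_D hS (w := m) (l := j) (by omega) (h'.wt m) (act_deg hΓ h2 (by ring)) h3
    · -- `n = 1`
      rw [← C.act_comp, ← C.act_comp, ← comp_assoc, ← hD]
      have hodd : Odd (w : ℤ) := ⟨(i : ℤ) - 1, by omega⟩
      rw [← hDD, wt_odd_zero hS (w := w) (w' := m) (by omega) hodd hDm hDcl (h.wt w) (h'.wt m),
        TheoryData.act_zero]
    · -- `n = 2`
      rw [← C.act_comp, ← C.act_comp, ← comp_assoc, ← hD, ← hDD]
      exact wt_even_zero hB hS (s := j - i) (l := i) (w := w) (w' := m) (by omega) (by omega) hDm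
        hDcl (h.wt w) (h'.wt m) hx.1
  · rw [wt_B2 (w := w) (l := i) (by omega) (h.wt w) hx.1, TheoryData.act_map_zero,
      TheoryData.act_map_zero]

lemma IsPure.three (h : IsPure H π) {i n : ℕ} (hn : 3 ≤ n) {x : C.A X}
    (hx : x ∈ ckFil C π i n) : x = 0 := by
  rw [h.ck.mem_ckFil] at hx
  rw [sum_act h.ck x]
  apply Finset.sum_eq_zero
  intro w _
  by_cases hw : 2 * i + 1 - n ≤ w
  · exact hx.2 w hw
  · exact wt_B2 (w := w) (l := i) (by omega) (h.wt w) hx.1

lemma IsPure.anti (h : IsPure H π) {i m n : ℕ} (hmn : m ≤ n) {x : C.A X}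
    (hx : x ∈ ckFil C π i n) : x ∈ ckFil C π i m := by
  rw [h.ck.mem_ckFil] at hx ⊢
  exact ⟨hx.1, fun j hj => hx.2 j (by omega)⟩

omit hH in
lemma mulCorr_mem {y : C.A X} {j : ℤ} (hy : y ∈ C.gr X j) :
    C.mulCorr y ∈ C.gr (X.prod X) (X.dim + j) := by
  have h := C.push_mem (Obj.lift (𝟙 X) (𝟙 X)) hy
  have e : j + 1 * (((X.prod X).dim : ℤ) - X.dim) = X.dim + j := by
    rw [dim_prod]; push_cast; ring
  rwa [e] at h

lemma cl_mulCorr {y : C.A X} (hy : H.cl y = 0) : H.cl (C.mulCorr y) = 0 := by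
  have h : H.cl (C.mulCorr y) = H.push (Obj.lift (𝟙 X) (𝟙 X)) (H.cl y) := H.cl_push _ _
  rw [h, hy, map_zero]

lemma kills_of_cl {Γ : C.A (X.prod Y)} (h : H.cl Γ = 0) (m : ℤ) : Kills H Γ m := by
  intro a _
  rw [h, TheoryData.act_zero]

lemma IsPure.mul (hS : SurfaceProperties H) (hB : BlochCorrespondences H) (h : IsPure H π)
    {i j m n : ℕ} {x y : C.A X} (hx : x ∈ ckFil C π i m) (hy : y ∈ ckFil C π j n) :
    x * y ∈ ckFil C π (i + j) (m + n) := by
  have hxm := ((h.ck.mem_ckFil _ _ _).1 hx).1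
  have hym := ((h.ck.mem_ckFil _ _ _).1 hy).1
  have e1 : x * y = C.act (C.mulCorr y) x := by rw [C.act_mulCorr, ch_comm C]
  have e2 : x * y = C.act (C.mulCorr x) y := by rw [C.act_mulCorr]
  have d1 : C.mulCorr y ∈ C.gr (X.prod X) ((X.dim : ℤ) + (i + j : ℕ) - i) := by
    have := mulCorr_mem hym
    rwa [show (X.dim : ℤ) + (i + j : ℕ) - i = X.dim + j by push_cast; ring]
  have d2 : C.mulCorr x ∈ C.gr (X.prod X) ((X.dim : ℤ) + (i + j : ℕ) - j) := by
    have := mulCorr_mem hxm
    rwa [show (X.dim : ℤ) + (i + j : ℕ) - j = X.dim + i by push_cast; ring]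
  by_cases hn : n = 0
  · subst hn
    rw [e1]
    exact h.stable hS h d1 hx
  by_cases hm : m = 0
  · subst hm
    rw [e2, zero_add]
    exact h.stable hS h d2 hy
  have hclx : H.cl x = 0 := cl_of_mem_F1 h.ck (h.anti (by omega) hx)
  have hcly : H.cl y = 0 := cl_of_mem_F1 h.ck (h.anti (by omega) hy)
  by_cases hn1 : n = 1
  · subst hn1
    rw [e1]
    exact h.shift hS hB h d1 (kills_of_cl (cl_mulCorr hcly) _) hx
  · have h3 := h.shift hS hB h d2 (kills_of_cl (cl_mulCorr hclx) _) hy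
    rw [← e2] at h3
    rw [h.three (by omega) h3]
    exact Submodule.zero_mem _

/-- Curves and surfaces are of surface type. -/
lemma ofSurfaceType_of_dim (hd : S.dim = 2) : OfSurfaceType C S := by
  apply Submodule.subset_span
  refine ⟨S, 0, dg C S, dg C S, hd, ?_, ?_, (comp_dg C _).symm⟩
  · have := dg_mem C S
    simpa using this
  · have := dg_mem C S
    rw [hd] at this
    simpa using this

open Classical in
/-- The filtration defined by decompositions into pieces of pure weights. -/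
noncomputable def pureFil (H : WeilTheoryData.{u, v, w} C K) [IsWeilProj H] : Filtration C where
  F X i n := if h : ∃ π : ℕ → C.A (X.prod X), IsPure H π then ckFil C h.choose i n else ⊥
  le_gr X i n := by
    split_ifs with h
    · intro x hx
      exact ((h.choose_spec.ck.mem_ckFil _ _ _).1 hx).1
    · exact bot_le
  anti X i n := by
    split_ifs with h
    · intro x hx
      exact h.choose_spec.anti (by omega) hx
    · exact bot_le

lemma exists_pure (hS : SurfaceProperties H) (hX : OfSurfaceType C X) :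
    ∃ π : ℕ → C.A (X.prod X), IsPure H π := by
  obtain ⟨π, h1, -, h3⟩ := exists_selfDual_CK hS hX
  exact ⟨π, h1, h3⟩

lemma pureFil_eq (h : ∃ π : ℕ → C.A (X.prod X), IsPure H π) :
    ∃ π : ℕ → C.A (X.prod X), IsPure H π ∧ ∀ i n, (pureFil H).F X i n = ckFil C π i n := by
  refine ⟨h.choose, h.choose_spec, fun i n => ?_⟩
  simp only [pureFil]
  rw [dif_pos h]

theorem isBB_of_bloch (hS : SurfaceProperties H) (hB : BlochCorrespondences H) :
    IsBBOn H (OfSurfaceType C) (pureFil H) := by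
  refine ⟨⟨?_, ?_, ?_⟩, ⟨?_, ?_, ?_⟩, ?_⟩
  all_goals try simp only [Filtration.Mem]
  · intro X hX i x
    obtain ⟨π, h, e⟩ := pureFil_eq (exists_pure (H := H) hS hX)
    rw [e, B0_of_wt h.ck h.wt i]
  · intro X hX i x
    obtain ⟨π, h, e⟩ := pureFil_eq (exists_pure (H := H) hS hX)
    rw [e]
    exact D_of_wt hS h.ck h.wt i x
  · intro X hX i x hx
    obtain ⟨π, h, e⟩ := pureFil_eq (exists_pure (H := H) hS hX)
    rw [e, B1_of_wt hS h.ck h.wt i] at hx
    exact (Submodule.mem_bot _).1 hx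
  · intro X hX i j m n x y hx hy
    obtain ⟨π, h, e⟩ := pureFil_eq (exists_pure (H := H) hS hX)
    rw [e] at hx hy ⊢
    exact h.mul hS hB hx hy
  · intro X Y hX hY f i n y hy
    obtain ⟨π, h, e⟩ := pureFil_eq (exists_pure (H := H) hS hX)
    obtain ⟨ρ, h', e'⟩ := pureFil_eq (exists_pure (H := H) hS hY)
    rw [e'] at hy
    rw [e]
    change C.pull f y ∈ _
    rw [← C.act_cograph f y]
    apply h'.stable hS h _ hy
    have := cograph_mem (C := C) f
    rwa [show (Y.dim : ℤ) + i - i = Y.dim by ring]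
  · intro X Y hX hY f i j n x hij hx
    obtain ⟨π, h, e⟩ := pureFil_eq (exists_pure (H := H) hS hX)
    obtain ⟨ρ, h', e'⟩ := pureFil_eq (exists_pure (H := H) hS hY)
    rw [e] at hx
    rw [e']
    change C.push f x ∈ _
    rw [← C.act_graph f x]
    apply h.stable hS h' _ hx
    have h1 := C.push_mem (Obj.lift (𝟙 X) f) (C.one_mem X)
    have e1 : (0 : ℤ) + 1 * (((X.prod Y).dim : ℤ) - X.dim) = X.dim + j - i := by
      rw [dim_prod]; push_cast; omega
    rwa [e1] at h1
  · intro X Y hX hY i j n Γ hΓ x hx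
    obtain ⟨π, h, e⟩ := pureFil_eq (exists_pure (H := H) hS hX)
    obtain ⟨ρ, h', e'⟩ := pureFil_eq (exists_pure (H := H) hS hY)
    simp only [Filtration.Mem] at hx ⊢
    rw [e] at hx
    rw [e', e']
    exact ⟨h.stable hS h' hΓ hx, fun hk => h.shift hS hB h' hΓ hk hx⟩

/-- Degenerate correspondences act as zero on the Albanese kernel. -/
lemma degenerate_act {S T : 𝒱.Obj} {Z : C.A (S.prod T)} (hS2 : S.dim = 2)
    (hZ : IsDegenerate C Z) {α : C.A S} (hα : InAlbKer C α) : C.act Z α = 0 := by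
  induction hZ with
  | zero => exact C.act_zero α
  | left Y Γ Δ hY hΓ hΔ =>
    rw [C.act_comp, hα.act_eq_zero Y Γ hΓ, TheoryData.act_map_zero]
  | right Y Γ Δ hY hΓ hΔ =>
    have h1 : C.act Γ α ∈ C.gr Y 2 := act_deg hΓ hα.deg (by rw [hS2]; norm_num)
    rw [C.act_comp, zero_of_top h1 (by rw [hY]; norm_num), TheoryData.act_map_zero]
  | add Z W _ _ h1 h2 => rw [C.act_add, h1, h2, add_zero]

lemma degenerate_mem {S T : 𝒱.Obj} {Z : C.A (S.prod T)}
    (hZ : IsDegenerate C Z) : Z ∈ C.gr (S.prod T) 2 := by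
  induction hZ with
  | zero => exact Submodule.zero_mem _
  | left Y Γ Δ hY hΓ hΔ => exact comp_deg hΓ hΔ (by rw [hY]; norm_num)
  | right Y Γ Δ hY hΓ hΔ => exact comp_deg hΓ hΔ (by rw [hY]; norm_num)
  | add Z W _ _ h1 h2 => exact Submodule.add_mem _ h1 h2

omit hC hH in
lemma IsBBOn.stable {D : 𝒱.Obj → Prop} {F : Filtration C} (hF : IsBBOn H D F) (hX : D X) (hY : D Y)
    (i j n : ℕ) (Γ : C.A (X.prod Y)) (hΓ : C.Deg ((X.dim : ℤ) + j - i) Γ) (x : C.A X)
    (hx : x ∈ F.F X i n) : C.act Γ x ∈ F.F Y j n :=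
  (hF.motivic X Y hX hY i j n Γ hΓ x hx).1

omit hC hH in
lemma IsBBOn.shift {D : 𝒱.Obj → Prop} {F : Filtration C} (hF : IsBBOn H D F) (hX : D X) (hY : D Y)
    (i j n : ℕ) (Γ : C.A (X.prod Y)) (hΓ : C.Deg ((X.dim : ℤ) + j - i) Γ)
    (hk : Kills H Γ (2 * i - n)) (x : C.A X) (hx : x ∈ F.F X i n) :
    C.act Γ x ∈ F.F Y j (n + 1) :=
  (hF.motivic X Y hX hY i j n Γ hΓ x hx).2 hk

/-- The Albanese kernel lies in the second step of a Bloch-Beilinson filtration. -/
lemma mem_two {F : Filtration C} (hS : SurfaceProperties H)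
    (hF : IsBBOn H (OfSurfaceType C) F) (hd : S.dim = 2) {α : C.A S} (hα : InAlbKer C α) :
    α ∈ F.F S 2 2 := by
  obtain ⟨π, hπ, -⟩ := hS.murre S hd
  have hDS : OfSurfaceType C S := ofSurfaceType_of_dim (H := H) hd
  have hα2 : α ∈ C.gr S 2 := by
    have := hα.deg
    rwa [hd] at this
  -- the class is homologically trivial
  obtain ⟨q, hq⟩ := exists_hasDegree hα.deg
  -- the components
  have h1 : α = C.act (π 2) α := by
    have h2 := sum_act hπ.ck α
    rw [hd] at h2
    simp only [show 2 * 2 + 1 = 5 from rfl, Finset.sum_range_succ, Finset.sum_range_zero] at h2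
    have e0 : C.act (π 0) α = 0 := by
      obtain ⟨x, hx, h4⟩ := hπ.zero
      rw [h4]
      exact act_ext_zero_of_lt (i := 2 + 2) (C.mul_mem hx hα2) (by rw [hd]; norm_num)
    have e1 : C.act (π 1) α = 0 := by
      obtain ⟨T, a, b, hT, ha, hb, h4⟩ := hπ.one
      have h5 : C.act a α ∈ C.gr T 2 := act_deg ha hα2 (by rw [hd]; norm_num)
      rw [h4, C.act_comp, zero_of_top h5 (by rw [hT]; norm_num), TheoryData.act_map_zero]
    have e3 : C.act (π 3) α = 0 := by
      obtain ⟨T, a, b, hT, ha, hb, h4⟩ := hπ.three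
      rw [h4, C.act_comp, hα.act_eq_zero T a ha, TheoryData.act_map_zero]
    have e4 : C.act (π 4) α = 0 := by
      obtain ⟨x, hx, h4⟩ := hπ.four
      -- the degree is zero: multiply by a divisor
      by_contra hne
      rw [h4, act_ext' (q := q) (by rwa [one_mul])] at hne
      have hq : q ≠ 0 := fun h => hne (by rw [h, zero_smul])
      obtain ⟨h, hh, r, hr, hhr⟩ := hC.polarized S
      have h6 : C.act (C.ext (1 : C.A S) h) α = 0 := by
        apply hα.act_eq_zero S
        have := ext_mem' (C := C) (C.one_mem S) hh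
        simpa using this
      rw [act_ext' (q := q) (by rwa [one_mul])] at h6
      have h7 : h = 0 := by
        rw [← one_smul ℚ h, ← inv_mul_cancel₀ hq, mul_smul, h6, smul_zero]
      have hhr' : C.push (snd S S) (C.pull (fst S S) (h ^ S.dim)) = r • (1 : C.A S) := hhr
      rw [h7, hd, zero_pow (by norm_num), map_zero, map_zero] at hhr'
      have h8 : (1 : C.A S) = 0 := by
        rw [← one_smul ℚ (1 : C.A S), ← inv_mul_cancel₀ hr, mul_smul, ← hhr', smul_zero]
      have h9 : (1 : H.A S) = 0 := by rw [← map_one H.cl, h8, map_zero]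
      exact hH.one_ne_zero S h9
    rw [e0, e1, e3, e4] at h2
    simpa using h2
  have hcl : H.cl α = 0 := by
    rw [h1, cl_act H]
    exact hπ.ck.act_ne 2 (2 * 2) _ (by norm_num) (H.cl_mem hα2)
  have h3 : α ∈ F.F S 2 1 := (hF.steps.one S hDS 2 α).2 ⟨by exact_mod_cast hα2, hcl⟩
  rw [h1]
  refine hF.shift hDS hDS 2 2 1 (π 2) ?_ ?_ α h3
  · have := hπ.mem 2
    rw [hd]
    simpa using this
  · intro a ha
    exact hπ.ck.act_ne 2 (2 * 2 - 1) a (by norm_num) (by exact_mod_cast ha)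

theorem bloch_of_isBB {F : Filtration C} (hS : SurfaceProperties H)
    (hF : IsBBOn H (OfSurfaceType C) F) : BlochCorrespondences H := by
  rintro S T Z hd hd' hZ ⟨W, hW, hZW⟩ α hα
  have hDS : OfSurfaceType C S := ofSurfaceType_of_dim (H := H) hd
  have hDT : OfSurfaceType C T := ofSurfaceType_of_dim (H := H) hd'
  have h1 : C.act (Z - W) α = 0 := by
    apply hF.steps.top T hDT 2
    refine hF.shift hDS hDT 2 2 2 (Z - W) ?_ ?_ α (mem_two hS hF hd hα)
    · have h2 := Submodule.sub_mem _ hZ (degenerate_mem (H := H) hW)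
      rw [hd]
      simpa using h2
    · exact kills_of_cl (by rw [map_sub, hZW, sub_self]) _
  rw [C.act_sub, degenerate_act (H := H) hd hW hα, sub_zero] at h1
  exact h1

/-- **A Bloch-Beilinson filtration on the varieties of surface type exists if and only if Bloch's
conjecture holds for correspondences between surfaces.** -/
theorem isBB_iff (hS : SurfaceProperties H) :
    (∃ F : Filtration C, IsBBOn H (OfSurfaceType C) F) ↔
      BlochCorrespondences H :=
  ⟨fun ⟨_, hF⟩ => bloch_of_isBB hS hF, fun hB => ⟨_, isBB_of_bloch hS hB⟩⟩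

end Pool.Agent.X308.S
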