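import Pool.Agent.TH133.Defs

/-!
# Surfaces in products of surfaces
-/

set_option autoImplicit false

universe u v w

namespace Pool.Agent.X308.S

open Pool.Agent.H914 Pool.Agent.H914.VarClass Pool.Agent.W492.BB

variable {k : Type u} [Field k] {𝒱 : VarClass k} (C : TheoryData.{u, v, 0} 𝒱 ℚ)

/-- For surfaces `S` and `T` there is a smooth surface `U ⊆ S × T` which is a complete intersection
of two divisors with the class `A × T + S × B`, `A` and `B` ample (theorem of Bertini). The
properties which are used: both projections `p` and `q` are surjective and the class of `U` in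
`CH^2(S × T)` is of the form `a × T + D × E + S × b` with zero-cycles `a`, `b` and divisors `D`,
`E`. -/
def HasSurfacesInProducts : Prop :=
  ∀ S T : 𝒱.Obj, S.dim = 2 → T.dim = 2 →
    ∃ (U : 𝒱.Obj) (p : U ⟶ S) (q : U ⟶ T) (m n : ℚ) (a D : C.A S) (b E : C.A T),
      U.dim = 2 ∧ m ≠ 0 ∧ n ≠ 0 ∧ C.down p 1 = m • 1 ∧ C.down q 1 = n • 1 ∧
      C.Deg 2 a ∧ C.Deg 2 b ∧ C.Deg 1 D ∧ C.Deg 1 E ∧
      C.down (Obj.lift p q) 1 = C.ext a 1 + C.ext D E + C.ext 1 b

end Pool.Agent.X308.S
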