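import Pool.Agent.X308.S.BBDefs
import Pool.Agent.X308.S.InProdDefs

/-!
# Square-zero correspondences between surfaces: definitions
-/

set_option autoImplicit false

open CategoryTheory AlgebraicGeometry

universe u v w

namespace Pool.Agent.X308.S

open Pool.Agent.H914 Pool.Agent.H914.VarClass Pool.Agent.H914.VarClass.Obj Pool.Agent.W492.BB
  Pool.Agent.W550.Corr Pool.Agent.TH133

variable {k : Type u} [Field k] {𝒱 : VarClass k} (C : TheoryData.{u, v, 0} 𝒱 ℚ) {K : Type w}
  [Field K] (H : WeilTheoryData.{u, v, w} C K)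

variable {C}

/-- The formal properties of the kernels `N X j ⊆ CH^j(X)` of the Abel-Jacobi maps
`CH^j(X)_hom → J^(2j-1)(X) ⊗ ℚ`: they are groups of homologically trivial classes, stable under all
correspondences; a correspondence acting as zero on `H^(2j-1)(X)` maps `CH^j(X)_hom` to the kernel
of the Abel-Jacobi map of the target; the kernel is zero for curves (Abel). -/
structure IsAJKernel (N : ∀ X : 𝒱.Obj, ℕ → C.A X → Prop) : Prop where
  hom : ∀ (X : 𝒱.Obj) (j : ℕ) (z : C.A X), N X j z → C.Deg j z ∧ H.cl z = 0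
  zero : ∀ (X : 𝒱.Obj) (j : ℕ), N X j 0
  add : ∀ (X : 𝒱.Obj) (j : ℕ) (z w : C.A X), N X j z → N X j w → N X j (z + w)
  stable : ∀ (X Y : 𝒱.Obj) (j i : ℕ) (Γ : C.A (X.prod Y)), C.Deg (X.dim + i - j) Γ →
    ∀ z : C.A X, N X j z → N Y i (C.act Γ z)
  kills : ∀ (X Y : 𝒱.Obj) (j i : ℕ) (Γ : C.A (X.prod Y)), C.Deg (X.dim + i - j) Γ →
    Kills H Γ (2 * j - 1) → ∀ z : C.A X, C.Deg j z → H.cl z = 0 → N Y i (C.act Γ z)
  abel : ∀ (T : 𝒱.Obj) (z : C.A T), T.dim = 1 → N T 1 z → z = 0

/-- The subspaces `F^n CH^i(X)` form a Bloch-Beilinson filtration on the Chow groups of the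
varieties `X` with the property `D` in the sense of conditions 1-4 of the problem, `N` being the
kernels of the Abel-Jacobi maps (the subspaces are contained in `CH^i(X)` and descending in `n` by
the definition of `Filtration`). -/
structure IsBBWithAJ (N : ∀ X : 𝒱.Obj, ℕ → C.A X → Prop) (D : 𝒱.Obj → Prop)
    (F : Filtration C) : Prop where
  steps : HasSteps H D F
  two : ∀ X : 𝒱.Obj, D X → ∀ (i : ℕ) (x : C.A X), F.Mem i 2 x ↔ N X i x
  motivic : IsMotivicOn H D F

/-- The homologically trivial self-correspondences `Γ` of surfaces with `Γ ∘ Γ = 0` which act as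
zero on the divisor classes, as does their transpose, act as zero on the Albanese kernel. -/
def SquareZeroActTrivially : Prop :=
  ∀ (U : 𝒱.Obj) (Γ : C.A (U.prod U)), U.dim = 2 → C.Deg 2 Γ → H.cl Γ = 0 → C.comp Γ Γ = 0 →
    (∀ D : C.A U, C.Deg 1 D → C.act Γ D = 0 ∧ C.act (tp C Γ) D = 0) →
    ∀ α : C.A U, InAlbKer C α → C.act Γ α = 0

end Pool.Agent.X308.S
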