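import Pool.Agent.X308.S.BBMain
import Pool.Agent.X308.S.SqDefs
import Pool.Agent.X308.A.Pair

/-!
# Square-zero correspondences between surfaces and the Bloch-Beilinson filtration
-/

set_option autoImplicit false

open CategoryTheory AlgebraicGeometry

universe u v w

namespace Pool.Agent.X308.S

open Pool.Agent.H914 Pool.Agent.H914.VarClass Pool.Agent.H914.VarClass.Obj Pool.Agent.W492.BB
  Pool.Agent.W550.Corr Pool.Agent.TH133 Pool.Agent.Y148.BB

set_option linter.unusedSectionVars false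

variable {k : Type u} [Field k] {𝒱 : VarClass k} {C : TheoryData.{u, v, 0} 𝒱 ℚ} {K : Type w}
  [Field K] [hC : IsChowProj C]
  {H : WeilTheoryData.{u, v, w} C K} [hH : IsWeilProj H] {S S' T U X Y Z W : 𝒱.Obj}

include hC hH

omit hH in
lemma graph_mem' (f : X ⟶ Y) : C.graph f ∈ C.gr (X.prod Y) Y.dim := by
  have h := C.push_mem (Obj.lift (𝟙 X) f) (C.one_mem X)
  have e1 : (0 : ℤ) + 1 * (((X.prod Y).dim : ℤ) - (X.dim : ℤ)) = Y.dim := by
    rw [dim_prod]; push_cast; ring
  rwa [e1] at h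

lemma murre_albKer {π : ℕ → C.A (S.prod S)} (hπ : IsMurreCK H S π) {α : C.A S}
    (hα : InAlbKer C α) : C.act (π 2) α = α := by
  have hd := hπ.dim
  have hα2 : α ∈ C.gr S 2 := by
    have := hα.deg
    rwa [hd] at this
  obtain ⟨q, hq⟩ := exists_hasDegree hα.deg
  have h2 := sum_act hπ.ck α
  rw [hd] at h2
  simp only [show 2 * 2 + 1 = 5 from rfl, Finset.sum_range_succ, Finset.sum_range_zero] at h2
  have e0 : C.act (π 0) α = 0 := by
    obtain ⟨x, hx, h4⟩ := hπ.zero
    rw [h4]
    exact act_ext_zero_of_lt (i := 2 + 2) (C.mul_mem hx hα2) (by rw [hd]; norm_num)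
  have e1 : C.act (π 1) α = 0 := by
    obtain ⟨T, a, b, hT, ha, hb, h4⟩ := hπ.one
    have h5 : C.act a α ∈ C.gr T 2 := act_deg ha hα2 (by rw [hd]; norm_num)
    rw [h4, C.act_comp, zero_of_top h5 (by rw [hT]; norm_num), TheoryData.act_map_zero]
  have e3 : C.act (π 3) α = 0 := by
    obtain ⟨T, a, b, hT, ha, hb, h4⟩ := hπ.three
    rw [h4, C.act_comp, hα.act_eq_zero T a ha, TheoryData.act_map_zero]
  have e4 : C.act (π 4) α = 0 := by
    obtain ⟨x, hx, h4⟩ := hπ.four
    by_contra hne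
    rw [h4, act_ext' (q := q) (by rwa [one_mul])] at hne
    have hq : q ≠ 0 := fun h => hne (by rw [h, zero_smul])
    obtain ⟨h, hh, r, hr, hhr⟩ := hC.polarized S
    have h6 : C.act (C.ext (1 : C.A S) h) α = 0 := by
      apply hα.act_eq_zero S
      have := ext_mem' (C := C) (C.one_mem S) hh
      simpa using this
    rw [act_ext' (q := q) (by rwa [one_mul])] at h6
    have h7 : h = 0 := by
      rw [← one_smul ℚ h, ← inv_mul_cancel₀ hq, mul_smul, h6, smul_zero]
    have hhr' : C.push (snd S S) (C.pull (fst S S) (h ^ S.dim)) = r • (1 : C.A S) := hhr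
    rw [h7, hd, zero_pow (by norm_num), map_zero, map_zero] at hhr'
    have h8 : (1 : C.A S) = 0 := by
      rw [← one_smul ℚ (1 : C.A S), ← inv_mul_cancel₀ hr, mul_smul, ← hhr', smul_zero]
    have h9 : (1 : H.A S) = 0 := by rw [← map_one H.cl, h8, map_zero]
    exact hH.one_ne_zero S h9
  rw [e0, e1, e3, e4] at h2
  simpa using h2.symm

lemma cl_albKer (hS : SurfaceProperties H) (hd : S.dim = 2) {α : C.A S}
    (hα : InAlbKer C α) : H.cl α = 0 := by
  obtain ⟨π, hπ, -⟩ := hS.murre S hd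
  have hα2 : α ∈ C.gr S 2 := by
    have := hα.deg
    rwa [hd] at this
  rw [← murre_albKer hπ hα, cl_act H]
  exact hπ.ck.act_ne 2 (2 * 2) _ (by norm_num) (H.cl_mem hα2)

/-- Correspondences preserve the Albanese kernel. -/
lemma albKer_act (hd : S.dim = 2) (hd' : T.dim = 2) {γ : C.A (S.prod T)}
    (hγ : γ ∈ C.gr (S.prod T) 2) {α : C.A S} (hα : InAlbKer C α) : InAlbKer C (C.act γ α) := by
  refine ⟨?_, fun Y W hW => ?_⟩
  · have h1 := hα.deg
    rw [hd] at h1
    have h2 : C.act γ α ∈ C.gr T 2 := act_deg hγ h1 (by rw [hd]; norm_num)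
    change C.act γ α ∈ C.gr T T.dim
    rw [hd']
    exact_mod_cast h2
  · rw [← C.act_comp]
    exact hα.act_eq_zero Y _ (comp_deg hγ hW (by rw [hd']; norm_num))

/-- The main step: a homologically trivial correspondence which acts as zero on divisors is
annihilated by decomposable correspondences. -/
lemma sandwich_zero (hd : S.dim = 2) (hd' : T.dim = 2) {γ : C.A (S.prod T)}
    (hγ : γ ∈ C.gr (S.prod T) 2) (h0 : H.cl γ = 0)
    (hdiv : ∀ D, D ∈ C.gr S 1 → C.act γ D = 0) {a D : C.A T} {b E : C.A S}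
    (hE : E ∈ C.gr S 1) :
    C.comp γ (C.comp (C.ext a 1 + C.ext D E + C.ext 1 b) γ) = 0 := by
  have h1 : C.act γ 1 = 0 := by
    apply gr_zero_eq (H := H) (act_deg hγ (C.one_mem S) (by rw [hd]; norm_num))
    rw [cl_act H, h0, TheoryData.act_zero]
  have h2 : C.act (tp C γ) 1 = 0 := by
    apply gr_zero_eq (H := H) (act_deg (tp_mem C hγ) (C.one_mem T) (by rw [hd']; norm_num))
    rw [cl_act H, cl_tp, h0, tp_zero, TheoryData.act_zero]
  rw [add_comp, add_comp, ext_comp, ext_comp, ext_comp, h1, hdiv E hE, TheoryData.ext_zero_right,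
    TheoryData.ext_zero_right, zero_add, zero_add, comp_ext, h2, TheoryData.ext_zero_left]

/-- **Bloch's conjecture for correspondences follows from the case of square-zero
self-correspondences.** -/
theorem bloch_of_squareZero (hS : SurfaceProperties H) (hU : HasSurfacesInProducts C)
    (hQ : SquareZeroActTrivially H) : BlochCorrespondences H := by
  rintro S T Z hd hd' hZ ⟨W, hW, hZW⟩ α hα
  obtain ⟨π, hπ, -⟩ := hS.murre S hd
  obtain ⟨ρ, hρ, -⟩ := hS.murre T hd'
  set γ := Z - W with hγd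
  have hγ : γ ∈ C.gr (S.prod T) 2 := Submodule.sub_mem _ hZ (degenerate_mem (H := H) hW)
  have hγ0 : H.cl γ = 0 := by rw [hγd, map_sub, hZW, sub_self]
  suffices h : C.act γ α = 0 by
    rw [hγd, C.act_sub, degenerate_act (H := H) hd hW hα, sub_zero] at h
    exact h
  have hγα : InAlbKer C (C.act γ α) := albKer_act (H := H) hd hd' hγ hα
  -- the part between the motives `h^2`
  set Γ := C.comp (C.comp (π 2) γ) (ρ 2) with hΓd
  have hΓ : Γ ∈ C.gr (S.prod T) 2 :=
    comp_deg (comp_deg (j := 2) (hπ.mem 2) hγ (by rw [hd]; norm_num)) (hρ.mem 2)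
      (by rw [hd']; norm_num)
  have hΓ0 : H.cl Γ = 0 := by
    rw [hΓd, cl_comp, cl_comp, hγ0, comp_zero, zero_comp]
  have hΓα : C.act Γ α = C.act γ α := by
    rw [hΓd, C.act_comp, C.act_comp, murre_albKer hπ hα, murre_albKer hρ hγα]
  have hΓdiv : ∀ D, D ∈ C.gr S 1 → C.act Γ D = 0 := by
    intro D hD
    have h1 : C.act (π 2) D ∈ C.gr S 1 := act_deg (hπ.mem 2) hD (by rw [hd]; norm_num)
    have h2 : C.act γ (C.act (π 2) D) ∈ C.gr T 1 := act_deg hγ h1 (by rw [hd]; norm_num)
    rw [hΓd, C.act_comp, C.act_comp]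
    apply hρ.act_pic hS h2
    rw [cl_act H, hγ0, TheoryData.act_zero]
  have hΓdiv' : ∀ D, D ∈ C.gr T 1 → C.act (tp C Γ) D = 0 := by
    intro D hD
    have h1 : C.act (tp C (ρ 2)) D ∈ C.gr T 1 :=
      act_deg (tp_mem C (hρ.mem 2)) hD (by rw [hd']; norm_num)
    have h2 : C.act (tp C γ) (C.act (tp C (ρ 2)) D) ∈ C.gr S 1 :=
      act_deg (tp_mem C hγ) h1 (by rw [hd']; norm_num)
    rw [hΓd, tp_comp', tp_comp', C.act_comp, C.act_comp, hπ.tp_eq (by norm_num)]
    apply hπ.dual.act_pic hS h2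
    rw [cl_act H, cl_tp, hγ0, tp_zero, TheoryData.act_zero]
  -- the surface in the product
  obtain ⟨U, q, p, n, m, a, D, b, E, hdU, hn, hm, hq, hp, ha, hb, hD, hE, hM⟩ := hU T S hd' hd
  have hq' : C.push q 1 = n • (1 : C.A T) := hq
  have hp' : C.push p 1 = m • (1 : C.A S) := hp
  have hM' : C.comp (C.cograph q) (C.graph p) = C.ext a 1 + C.ext D E + C.ext 1 b := by
    rw [X308.A.comp_cograph_graph]
    exact hM
  set Δ := C.comp (C.comp (C.graph p) Γ) (C.cograph q) with hΔd
  have hgp : C.graph p ∈ C.gr (U.prod S) 2 := by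
    have := graph_mem' (C := C) p
    rw [hd] at this
    exact_mod_cast this
  have hgq : C.cograph q ∈ C.gr (T.prod U) 2 := by
    have := cograph_mem (C := C) q
    rw [hd'] at this
    exact_mod_cast this
  have hΔ : Δ ∈ C.gr (U.prod U) 2 :=
    comp_deg (comp_deg (j := 2) hgp hΓ (by rw [hd]; norm_num)) hgq (by rw [hd']; norm_num)
  have hΔ0 : H.cl Δ = 0 := by
    rw [hΔd, cl_comp, cl_comp, hΓ0, comp_zero, zero_comp]
  have hΔ2 : C.comp Δ Δ = 0 := by
    have h1 : C.comp Δ Δ = C.comp (C.graph p) (C.comp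
        (C.comp Γ (C.comp (C.comp (C.cograph q) (C.graph p)) Γ)) (C.cograph q)) := by
      rw [hΔd]
      simp only [comp_assoc]
    rw [h1, hM', sandwich_zero (H := H) hd hd' hΓ hΓ0 hΓdiv hE, zero_comp, comp_zero]
  have hact : ∀ x : C.A U, C.act Δ x = C.pull q (C.act Γ (C.push p x)) := by
    intro x
    rw [hΔd, C.act_comp, C.act_comp, C.act_graph, C.act_cograph]
  have hact' : ∀ x : C.A U, C.act (tp C Δ) x = C.pull p (C.act (tp C Γ) (C.push q x)) := by
    intro x
    rw [hΔd, tp_comp', tp_comp', X308.A.tp_graph, X308.A.tp_cograph, C.act_comp, C.act_comp,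
      C.act_graph, C.act_cograph]
  have hdivU : ∀ D : C.A U, C.Deg 1 D → C.act Δ D = 0 ∧ C.act (tp C Δ) D = 0 := by
    intro D hD
    constructor
    · have h1 : C.push p D ∈ C.gr S 1 := by
        have h2 := C.push_mem p hD
        have e : (1 : ℤ) + 1 * ((S.dim : ℤ) - U.dim) = 1 := by rw [hd, hdU]; ring
        rwa [e] at h2
      rw [hact, hΓdiv _ h1, map_zero]
    · have h1 : C.push q D ∈ C.gr T 1 := by
        have h2 := C.push_mem q hD
        have e : (1 : ℤ) + 1 * ((T.dim : ℤ) - U.dim) = 1 := by rw [hd', hdU]; ring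
        rwa [e] at h2
      rw [hact', hΓdiv' _ h1, map_zero]
  -- the cycle on `U`
  have hβ : InAlbKer C (C.pull p α) := by
    refine ⟨?_, fun Y W hW => ?_⟩
    · have h1 := C.pull_mem p hα.deg
      change C.pull p α ∈ C.gr U U.dim
      rw [hd] at h1
      rw [hdU]
      exact_mod_cast h1
    · rw [← C.act_cograph p α, ← C.act_comp]
      apply hα.act_eq_zero Y
      have h1 : C.cograph p ∈ C.gr (S.prod U) 2 := by
        have := cograph_mem (C := C) p
        rw [hd] at this
        exact_mod_cast this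
      exact comp_deg h1 hW (by rw [hdU]; norm_num)
  have h1 := hQ U Δ hdU hΔ hΔ0 hΔ2 hdivU _ hβ
  have h2 : C.push p (C.pull p α) = m • α := by
    have h3 := C.proj_left p 1 α
    rw [mul_one, hp', mul_smul_comm, mul_one] at h3
    exact h3
  rw [hact, h2, act_map_smul, map_smul, hΓα] at h1
  have h3 : C.pull q (C.act γ α) = 0 := by
    rw [← one_smul ℚ (C.pull q (C.act γ α)), ← inv_mul_cancel₀ hm, mul_smul, h1, smul_zero]
  have h4 : C.push q (C.pull q (C.act γ α)) = n • C.act γ α := by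
    have h5 := C.proj_left q 1 (C.act γ α)
    rw [mul_one, hq', mul_smul_comm, mul_one] at h5
    exact h5
  rw [h3, map_zero] at h4
  rw [← one_smul ℚ (C.act γ α), ← inv_mul_cancel₀ hn, mul_smul, ← h4, smul_zero]

theorem squareZero_of_bloch (hB : BlochCorrespondences H) : SquareZeroActTrivially H := by
  intro U Γ hd hΓ h0 _ _ α hα
  exact hB U U Γ hd hd hΓ ⟨0, IsDegenerate.zero, by rw [h0, map_zero]⟩ α hα

/-! ## The Abel-Jacobi kernel -/

variable {N : ∀ X : 𝒱.Obj, ℕ → C.A X → Prop} {π : ℕ → C.A (X.prod X)}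

/-- Correspondences of weight `2 l - 1` act as zero on the kernel of the Abel-Jacobi map. -/
lemma wt_AJ (hN : IsAJKernel H N) {l : ℕ} {w : ℤ} (hw : w = 2 * l - 1)
    {x : C.A (X.prod X)} (hx : x ∈ wt H X w) {z : C.A X} (hz : N X l z) : C.act x z = 0 := by
  have h1 : wt H X w ≤ LinearMap.ker (LinearMap.flip (actB C) z) := by
    unfold wt
    rw [Submodule.span_le]
    rintro _ ⟨S, π, i, n, a, b, hπ, hw', ha, hb, rfl⟩
    rw [SetLike.mem_coe, LinearMap.mem_ker, LinearMap.flip_apply, actB_apply, C.act_comp,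
      C.act_comp]
    have hd := hπ.dim
    have h2 : C.act (π i) (C.act a z) = 0 := by
      by_cases hi : 4 < i
      · rw [hπ.out hi, TheoryData.act_zero]
      by_cases hi1 : i = 1
      · subst hi1
        obtain ⟨T, α, β, hT, hα, hβ, h4⟩ := hπ.one
        have h5 : N T 1 (C.act (C.comp a α) z) := by
          apply hN.stable X T l 1 (C.comp a α) _ z hz
          exact comp_deg ha hα (by rw [hd]; push_cast; omega)
        rw [h4, C.act_comp, ← C.act_comp a, hN.abel T _ hT h5, TheoryData.act_map_zero]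
      by_cases hi3 : i = 3
      · subst hi3
        obtain ⟨T, α, β, hT, hα, hβ, h4⟩ := hπ.three
        have h5 : N T 1 (C.act (C.comp a α) z) := by
          apply hN.stable X T l 1 (C.comp a α) _ z hz
          exact comp_deg ha hα (by rw [hd]; push_cast; omega)
        rw [h4, C.act_comp, ← C.act_comp a, hN.abel T _ hT h5, TheoryData.act_map_zero]
      omega
    rw [h2, TheoryData.act_map_zero]
  have h2 := h1 hx
  rw [LinearMap.mem_ker, LinearMap.flip_apply, actB_apply] at h2
  exact h2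

lemma ajKernel_sum (hN : IsAJKernel H N) {ι : Type*} (s : Finset ι) (f : ι → C.A X) {j : ℕ}
    (h : ∀ i ∈ s, N X j (f i)) : N X j (∑ i ∈ s, f i) := by
  classical
  induction s using Finset.induction_on with
  | empty => exact hN.zero X j
  | insert a s ha ih =>
    rw [Finset.sum_insert ha]
    exact hN.add X j _ _ (h a (Finset.mem_insert_self a s))
      (ih fun i hi => h i (Finset.mem_insert_of_mem hi))

/-- The second step is the kernel of the Abel-Jacobi map. -/
lemma pure_two (hS : SurfaceProperties H) (hN : IsAJKernel H N) (h : IsPure H π) (i : ℕ)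
    (z : C.A X) : z ∈ ckFil C π i 2 ↔ N X i z := by
  constructor
  · intro hz
    have hcl : H.cl z = 0 := cl_of_mem_F1 h.ck (h.anti (by omega) hz)
    rw [h.ck.mem_ckFil] at hz
    rw [sum_act h.ck z]
    apply ajKernel_sum hN
    intro w _
    by_cases hw : 2 * i + 1 - 2 ≤ w
    · rw [hz.2 w hw]
      exact hN.zero X i
    · refine hN.kills X X i i (π w) ?_ ?_ z hz.1 hcl
      · have := h.ck.deg w
        rwa [show (X.dim : ℤ) + i - i = X.dim by ring]
      · intro a ha
        exact h.ck.act_ne w (2 * i - 1) a (by omega) ha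
  · intro hz
    obtain ⟨hz1, hz2⟩ := hN.hom X i z hz
    rw [h.ck.mem_ckFil]
    refine ⟨hz1, fun j hj => ?_⟩
    rcases lt_trichotomy (2 * i) j with hlt | heq | hgt
    · exact wt_B0 (w := j) (l := i) (by omega) (h.wt j) hz1
    · exact wt_D hS (w := j) (l := i) (by omega) (h.wt j) hz1 hz2
    · exact wt_AJ hN (w := j) (by omega) (h.wt j) hz

theorem isBBWithAJ_of_bloch (hS : SurfaceProperties H) (hB : BlochCorrespondences H)
    (hN : IsAJKernel H N) :
    IsBBWithAJ H N (OfSurfaceType C) (pureFil H) := by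
  have h := isBB_of_bloch hS hB
  refine ⟨h.steps, fun X hX i x => ?_, h.motivic⟩
  obtain ⟨π, hπ, e⟩ := pureFil_eq (exists_pure (H := H) hS hX)
  rw [Filtration.Mem, e]
  exact pure_two hS hN hπ i x

theorem bloch_of_isBBWithAJ (hS : SurfaceProperties H) (hN : IsAJKernel H N)
    {F : Filtration C} (hF : IsBBWithAJ H N (OfSurfaceType C) F) : BlochCorrespondences H := by
  rintro S T Z hd hd' hZ ⟨W, hW, hZW⟩ α hα
  have hDS : OfSurfaceType C S := ofSurfaceType_of_dim (H := H) hd
  have hDT : OfSurfaceType C T := ofSurfaceType_of_dim (H := H) hd'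
  obtain ⟨π, hπ, -⟩ := hS.murre S hd
  have hα2 : α ∈ C.gr S 2 := by
    have := hα.deg
    rwa [hd] at this
  have hα3 : F.Mem 2 2 α := by
    rw [hF.two S hDS 2, ← murre_albKer hπ hα]
    refine hN.kills S S 2 2 (π 2) ?_ ?_ α (by exact_mod_cast hα2) (cl_albKer hS hd hα)
    · have := hπ.mem 2
      rw [hd]
      simpa using this
    · intro a ha
      exact hπ.ck.act_ne 2 (2 * 2 - 1) a (by norm_num) (by exact_mod_cast ha)
  have h1 : C.act (Z - W) α = 0 := by
    have h3 := (hF.motivic S T hDS hDT 2 2 2 (Z - W) ?_ α hα3).2 ?_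
    · exact hF.steps.top T hDT 2 _ h3
    · have h2 := Submodule.sub_mem _ hZ (degenerate_mem (H := H) hW)
      rw [hd]
      simpa using h2
    · exact kills_of_cl (by rw [map_sub, hZW, sub_self]) _
  rw [C.act_sub, degenerate_act (H := H) hd hW hα, sub_zero] at h1
  exact h1

/-- **Main theorem.** -/
theorem isBBWithAJ_iff_squareZero (hS : SurfaceProperties H)
    (hU : HasSurfacesInProducts C) (hN : IsAJKernel H N) :
    (∃ F, IsBBWithAJ H N (OfSurfaceType C) F) ↔ SquareZeroActTrivially H :=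
  ⟨fun ⟨_, hF⟩ => squareZero_of_bloch (bloch_of_isBBWithAJ hS hN hF),
    fun hQ => ⟨_, isBBWithAJ_of_bloch hS (bloch_of_squareZero hS hU hQ) hN⟩⟩

end Pool.Agent.X308.S
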