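import Pool.Agent.X308.S.BB

/-!
# The Bloch-Beilinson filtration on varieties of surface type: uniqueness and main theorem
-/

set_option autoImplicit false

open CategoryTheory AlgebraicGeometry

universe u v w

namespace Pool.Agent.X308.S

open Pool.Agent.H914 Pool.Agent.H914.VarClass Pool.Agent.H914.VarClass.Obj Pool.Agent.W492.BB
  Pool.Agent.W550.Corr Pool.Agent.TH133 Pool.Agent.Y148.BB

set_option linter.unusedSectionVars false

variable {k : Type u} [Field k] {𝒱 : VarClass k} {C : TheoryData.{u, v, 0} 𝒱 ℚ} {K : Type w}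
  [Field K] [hC : IsChowProj C]
  {H : WeilTheoryData.{u, v, w} C K} [hH : IsWeilProj H] {S S' T X Y Z W : 𝒱.Obj}

include hC hH

variable {D : 𝒱.Obj → Prop} {F : Filtration C}
  {π : ℕ → C.A (X.prod X)}

lemma IsBBOn.anti' (hF : IsBBOn H D F) (hX : D X) (i : ℕ) {m n : ℕ} (h : m ≤ n) :
    F.F X i n ≤ F.F X i m := by
  induction n, h using Nat.le_induction with
  | base => exact le_refl _
  | succ n _ ih => exact (F.anti X i n).trans ih

lemma IsBBOn.proj_stable (hF : IsBBOn H D F) (hX : D X) (hπ : IsCK H X π) {i n : ℕ} (w : ℕ)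
    {x : C.A X} (hx : x ∈ F.F X i n) : C.act (π w) x ∈ F.F X i n := by
  refine hF.stable hX hX i i n (π w) ?_ x hx
  have := hπ.deg w
  rwa [show (X.dim : ℤ) + i - i = X.dim by ring]

lemma IsBBOn.proj_shift (hF : IsBBOn H D F) (hX : D X) (hπ : IsCK H X π) {i n w : ℕ}
    (hw : w + n ≠ 2 * i) {x : C.A X} (hx : x ∈ F.F X i n) : C.act (π w) x ∈ F.F X i (n + 1) := by
  refine hF.shift hX hX i i n (π w) ?_ ?_ x hx
  · have := hπ.deg w
    rwa [show (X.dim : ℤ) + i - i = X.dim by ring]
  · intro a ha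
    exact hπ.act_ne w (2 * i - n) a (by omega) ha

/-- Components of too large weight of a class in `F^n` are zero. -/
lemma IsBBOn.proj_zero (hF : IsBBOn H D F) (hX : D X) (hπ : IsCK H X π) {i w : ℕ} {x : C.A X} :
    ∀ n, 2 * i < w + n → x ∈ F.F X i n → C.act (π w) x = 0 := by
  have key : ∀ m n : ℕ, 2 * i < w + n → x ∈ F.F X i n → C.act (π w) x ∈ F.F X i (n + m) := by
    intro m
    induction m with
    | zero => intro n _ hx; exact hF.proj_stable hX hπ w hx
    | succ m ih =>
      intro n hn hx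
      have h1 := hF.proj_shift hX hπ (w := w) (by omega) (ih n hn hx)
      rw [← C.act_comp, hπ.idem] at h1
      exact h1
  intro n hn hx
  apply hF.steps.top X hX i
  exact hF.anti' hX i (by omega) (key (i + 1) n hn hx)

/-- Components of small weight lie in `F^n`. -/
lemma IsBBOn.proj_mem (hF : IsBBOn H D F) (hX : D X) (hπ : IsCK H X π) {i w : ℕ} {x : C.A X}
    (hx : C.Deg i x) : ∀ n, w + n ≤ 2 * i → C.act (π w) x ∈ F.F X i n := by
  intro n
  induction n with
  | zero =>
    intro _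
    exact hF.proj_stable hX hπ w ((hF.steps.zero X hX i x).2 hx)
  | succ n ih =>
    intro hn
    have h1 := hF.proj_shift hX hπ (w := w) (by omega) (ih (by omega))
    rw [← C.act_comp, hπ.idem] at h1
    exact h1

/-- A Bloch-Beilinson filtration is the filtration attached to any Chow-Kunneth decomposition. -/
theorem IsBBOn.eq_ckFil (hF : IsBBOn H D F) (hX : D X) (hπ : IsCK H X π) (i n : ℕ) :
    F.F X i n = ckFil C π i n := by
  ext x
  rw [hπ.mem_ckFil]
  constructor
  · intro hx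
    refine ⟨(hF.steps.zero X hX i x).1 (hF.anti' hX i (Nat.zero_le n) hx), fun j hj => ?_⟩
    exact hF.proj_zero hX hπ n (by omega) hx
  · rintro ⟨hx, h⟩
    rw [sum_act hπ x]
    refine Submodule.sum_mem _ fun w _ => ?_
    by_cases hw : 2 * i + 1 - n ≤ w
    · rw [h w hw]
      exact Submodule.zero_mem _
    · exact hF.proj_mem hX hπ hx n (by omega)

/-- **Main theorem.** -/
theorem surfaceType_isBB_iff (hS : SurfaceProperties H) :
    ((∃ F, IsBBOn H (OfSurfaceType C) F) ↔ BlochCorrespondences H) ∧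
      ∀ F, IsBBOn H (OfSurfaceType C) F → ∀ X : 𝒱.Obj, OfSurfaceType C X →
        (∃ π, IsCK H X π) ∧ ∀ π, IsCK H X π → ∀ i n : ℕ, F.F X i n = ckFil C π i n := by
  refine ⟨⟨?_, fun hB => ⟨_, isBB_of_bloch hS hB⟩⟩, fun F hF X hX => ⟨?_, fun π hπ i n =>
    hF.eq_ckFil hX hπ i n⟩⟩
  · rintro ⟨F, hF⟩
    exact bloch_of_isBB hS hF
  · obtain ⟨π, h⟩ := exists_pure (H := H) hS hX
    exact ⟨π, h.ck⟩

end Pool.Agent.X308.S
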