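import Pool.Agent.X308.S.Ring

/-!
# Equivariant self-dual partitions from flags of invariant idempotents
-/

set_option autoImplicit false

namespace Pool.Agent.X308.S

variable {A : Type*} [Ring A] {S : Subring A}

/-- `e` is a left identity of the two-sided ideal of `S` generated by it. -/
def LInv (S : Subring A) (e : A) : Prop := e ∈ S ∧ ∀ a ∈ S, e * a * e = a * e

/-- `e` is contained in the right ideal generated by `f`. -/
def Below (e f : A) : Prop := f * e = e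

lemma LInv.idem {e : A} (h : LInv S e) : e * e = e := by
  have := h.2 1 S.one_mem
  rwa [mul_one, one_mul] at this

lemma LInv.mul {e f : A} (he : LInv S e) (hf : LInv S f) : LInv S (e * f) := by
  refine ⟨S.mul_mem he.1 hf.1, fun a ha => ?_⟩
  have h1 : f * (a * e) * f = a * e * f := hf.2 _ (S.mul_mem ha he.1)
  have h2 : e * a * e = a * e := he.2 a ha
  calc e * f * a * (e * f) = e * (f * (a * e) * f) := by simp only [mul_assoc]
    _ = e * a * e * f := by rw [h1]; simp only [mul_assoc]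
    _ = a * (e * f) := by rw [h2, mul_assoc]

lemma LInv.sup {e f : A} (he : LInv S e) (hf : LInv S f) : LInv S (e + f - e * f) := by
  refine ⟨S.sub_mem (S.add_mem he.1 hf.1) (S.mul_mem he.1 hf.1), fun a ha => ?_⟩
  -- `(1 - z) = (1 - e) (1 - f)`
  have h0 : 1 - (e + f - e * f) = (1 - e) * (1 - f) := by noncomm_ring
  have h1 : ∀ b ∈ S, (1 - e) * b * e = 0 := fun b hb => by
    rw [sub_mul, sub_mul, one_mul, he.2 b hb, sub_self]
  have h2 : ∀ b ∈ S, (1 - f) * b * f = 0 := fun b hb => by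
    rw [sub_mul, sub_mul, one_mul, hf.2 b hb, sub_self]
  have hfS : (1 - f) * a ∈ S := S.mul_mem (S.sub_mem S.one_mem hf.1) ha
  have h3 : (1 - (e + f - e * f)) * a * (e + f - e * f) = 0 := by
    rw [h0]
    have e1 : (1 - e) * (1 - f) * a * (e + f - e * f) = (1 - e) * ((1 - f) * a) * e +
        (1 - e) * ((1 - f) * a * f) - (1 - e) * ((1 - f) * (a * e) * f) := by noncomm_ring
    rw [e1, h1 _ hfS, h2 a ha, h2 _ (S.mul_mem ha he.1)]
    simp
  have h4 : (1 - (e + f - e * f)) * a * (e + f - e * f) =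
      a * (e + f - e * f) - (e + f - e * f) * a * (e + f - e * f) := by noncomm_ring
  rw [h4] at h3
  exact (sub_eq_zero.1 h3).symm

lemma Below.trans {e f g : A} (h : Below e f) (h' : Below f g) : Below e g := by
  unfold Below at *
  rw [← h, ← mul_assoc, h']

lemma below_mul {e f g : A} (h : Below g e) (h' : Below g f) : Below g (e * f) := by
  unfold Below at *
  rw [mul_assoc, h', h]

lemma mul_below_left {e f : A} (he : LInv S e) : Below (e * f) e := by
  unfold Below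
  rw [← mul_assoc, he.idem]

lemma mul_below_right {e f : A} (he : LInv S e) (hf : LInv S f) : Below (e * f) f := by
  unfold Below
  rw [← mul_assoc]
  exact hf.2 e he.1

lemma below_sup_left {e f : A} (he : LInv S e) (hf : LInv S f) : Below e (e + f - e * f) := by
  unfold Below
  rw [sub_mul, add_mul, he.idem, he.2 f hf.1]
  abel

lemma below_sup_right {e f : A} (hf : LInv S f) : Below f (e + f - e * f) := by
  unfold Below
  rw [sub_mul, add_mul, mul_assoc, hf.idem]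
  abel

lemma sup_below {e f g : A} (h : Below e g) (h' : Below f g) : Below (e + f - e * f) g := by
  unfold Below at *
  rw [mul_sub, mul_add, ← mul_assoc, h, h']

/-- An increasing family of invariant idempotents, from `0` to `1`, in bijection with a decomposition
of `1` which is adapted to the corresponding filtration. -/
structure IsFlag (S : Subring A) (N : ℕ) (Z : ℕ → A) : Prop where
  zero : Z 0 = 0
  top : Z N = 1
  inv : ∀ n, LInv S (Z n)
  mono : ∀ m n, m ≤ n → Below (Z m) (Z n)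

/-- The flag obtained from two flags: intersections below, sums above the middle. -/
def mixed (d : ℕ) (F G : ℕ → A) (n : ℕ) : A :=
  if n ≤ d then F n * G n else F n + G n - F n * G n

lemma isFlag_mixed {d N : ℕ} (hd : d < N) {F G : ℕ → A} (hF : IsFlag S N F) (hG : IsFlag S N G) :
    IsFlag S N (mixed d F G) := by
  refine ⟨?_, ?_, fun n => ?_, fun m n hmn => ?_⟩
  · rw [mixed, if_pos (Nat.zero_le _), hF.zero, zero_mul]
  · rw [mixed, if_neg (by omega), hF.top, hG.top]; simp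
  · unfold mixed
    split_ifs
    · exact (hF.inv n).mul (hG.inv n)
    · exact (hF.inv n).sup (hG.inv n)
  · unfold mixed
    split_ifs with h1 h2 h2
    · exact below_mul ((mul_below_left (hF.inv m)).trans (hF.mono m n hmn))
        ((mul_below_right (hF.inv m) (hG.inv m)).trans (hG.mono m n hmn))
    · exact ((mul_below_left (hF.inv m)).trans (hF.mono m n hmn)).trans
        (below_sup_left (hF.inv n) (hG.inv n))
    · omega
    · exact sup_below ((hF.mono m n hmn).trans (below_sup_left (hF.inv n) (hG.inv n)))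
        ((hG.mono m n hmn).trans (below_sup_right (hG.inv n)))

/-- The layers of a flag in the subring `T`. -/
def layer (T : Subring A) (Z : ℕ → A) (w : ℕ) : AddSubgroup A where
  carrier := {x | x ∈ T ∧ Z (w + 1) * x = x ∧ x * Z w = 0}
  zero_mem' := ⟨T.zero_mem, mul_zero _, zero_mul _⟩
  add_mem' := by
    rintro x y ⟨h1, h2, h3⟩ ⟨h4, h5, h6⟩
    exact ⟨T.add_mem h1 h4, by rw [mul_add, h2, h5], by rw [add_mul, h3, h6, add_zero]⟩
  neg_mem' := by
    rintro x ⟨h1, h2, h3⟩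
    exact ⟨T.neg_mem h1, by rw [mul_neg, h2], by rw [neg_mul, h3, neg_zero]⟩

lemma mem_layer {T : Subring A} {Z : ℕ → A} {w : ℕ} {x : A} :
    x ∈ layer T Z w ↔ x ∈ T ∧ Z (w + 1) * x = x ∧ x * Z w = 0 := Iff.rfl

lemma triIdeals_layer {T : Subring A} (hT : T ≤ S) {N : ℕ} {Z : ℕ → A} (hZ : IsFlag S N Z) :
    TriIdeals T (layer T Z) where
  le := fun w x hx => hx.1
  left := fun w a x ha hx => by
    refine ⟨T.mul_mem ha hx.1, ?_, by rw [mul_assoc, hx.2.2, mul_zero]⟩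
    have h1 := (hZ.inv (w + 1)).2 a (hT ha)
    conv_lhs => rw [← hx.2.1]
    rw [← mul_assoc, ← mul_assoc, h1, mul_assoc, hx.2.1]
  right := fun w a x ha hx => by
    refine ⟨T.mul_mem hx.1 ha, by rw [← mul_assoc, hx.2.1], ?_⟩
    have h1 := (hZ.inv w).2 a (hT ha)
    rw [mul_assoc, ← h1, ← mul_assoc, ← mul_assoc, hx.2.2, zero_mul, zero_mul]
  tri := fun w w' x y hw hx hy => by
    have h1 : Z w' * Z (w + 1) = Z (w + 1) := hZ.mono _ _ (by omega)
    rw [← hx.2.1, ← h1, mul_assoc, ← mul_assoc, hy.2.2, zero_mul]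

lemma diff_mem_layer {N : ℕ} {Z : ℕ → A} (hZ : IsFlag S N Z) (w : ℕ) :
    Z (w + 1) - Z w ∈ layer S Z w := by
  refine ⟨S.sub_mem (hZ.inv _).1 (hZ.inv _).1, ?_, ?_⟩
  · rw [mul_sub, (hZ.inv _).idem, show Z (w + 1) * Z w = Z w from hZ.mono _ _ (by omega)]
  · rw [sub_mul, (hZ.inv _).idem, show Z (w + 1) * Z w = Z w from hZ.mono _ _ (by omega), sub_self]

lemma sum_diff {N : ℕ} {Z : ℕ → A} (hZ : IsFlag S N Z) :
    ∑ w ∈ Finset.range N, (Z (w + 1) - Z w) = 1 := by
  rw [Finset.sum_range_sub, hZ.top, hZ.zero, sub_zero]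

/-- **Equivariant self-dual partitions**, for ideals. -/
theorem exists_equivariant_ideals [Algebra ℚ A] {d : ℕ} {I : ℕ → AddSubgroup A}
    (hI : TriIdeals S I) (hSq : ∀ (r : ℚ) x, x ∈ S → r • x ∈ S)
    (hq : ∀ w (r : ℚ) x, x ∈ I w → r • x ∈ I w)
    (t : A →+ A) (htq : ∀ (r : ℚ) a, t (r • a) = r • t a) (htt : ∀ a, t (t a) = a)
    (htm : ∀ a b, t (a * b) = t b * t a) (ht1 : t 1 = 1) (htS : ∀ a ∈ S, t a ∈ S)
    (htI : ∀ w ≤ 2 * d, ∀ x ∈ I w, t x ∈ I (2 * d - w))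
    {E₀ : ℕ → A} (hE₀ : ∀ w ≤ 2 * d, E₀ w ∈ I w)
    (hsum : ∑ w ∈ Finset.range (2 * d + 1), E₀ w = 1)
    {G : Type*} [Group G] [Finite G] (ρ : G →* A) (hρ : ∀ g, ρ g ∈ S)
    (htρ : ∀ g, t (ρ g) = ρ g⁻¹) :
    ∃ q : ℕ → A, (∀ w, q w ∈ I w) ∧ (∀ w, 2 * d < w → q w = 0) ∧
      (∀ i j, q i * q j = if i = j then q i else 0) ∧ ∑ w ∈ Finset.range (2 * d + 1), q w = 1 ∧
      (∀ w ≤ 2 * d, t (q w) = q (2 * d - w)) ∧ ∀ w g, ρ g * q w = q w * ρ g := by
  classical
  have : Fintype G := Fintype.ofFinite G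
  let T : Subring A := S ⊓ Subring.centralizer (Set.range ρ)
  have memT : ∀ {x : A}, x ∈ T ↔ x ∈ S ∧ ∀ g, ρ g * x = x * ρ g := by
    intro x
    rw [Subring.mem_inf, Subring.mem_centralizer_iff]
    constructor
    · rintro ⟨h1, h2⟩
      exact ⟨h1, fun g => h2 _ ⟨g, rfl⟩⟩
    · rintro ⟨h1, h2⟩
      refine ⟨h1, ?_⟩
      rintro _ ⟨g, rfl⟩
      exact h2 g
  let J : ℕ → AddSubgroup A := fun w => I w ⊓ T.toAddSubgroup
  have memJ : ∀ {w : ℕ} {x : A}, x ∈ J w ↔ x ∈ I w ∧ x ∈ T := fun {w x} => AddSubgroup.mem_inf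
  have hTS : ∀ {x : A}, x ∈ T → x ∈ S := fun h => h.1
  have hJ : TriIdeals T J :=
    { le := fun w x hx => (memJ.1 hx).2
      left := fun w a x ha hx => memJ.2 ⟨hI.left _ _ _ (hTS ha) (memJ.1 hx).1,
        T.mul_mem ha (memJ.1 hx).2⟩
      right := fun w a x ha hx => memJ.2 ⟨hI.right _ _ _ (hTS ha) (memJ.1 hx).1,
        T.mul_mem (memJ.1 hx).2 ha⟩
      tri := fun w w' x y hw hx hy => hI.tri w w' x y hw (memJ.1 hx).1 (memJ.1 hy).1 }
  have hρρ : ∀ g, ρ g * ρ g⁻¹ = 1 := fun g => by rw [← map_mul, mul_inv_cancel, map_one]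
  -- the averages
  let c : ℚ := ((Fintype.card G : ℚ))⁻¹
  have hc : c * (Fintype.card G : ℚ) = 1 :=
    inv_mul_cancel₀ (Nat.cast_ne_zero.2 Fintype.card_ne_zero)
  let E : ℕ → A := fun w => c • ∑ g : G, ρ g * E₀ w * ρ g⁻¹
  have hES : ∀ w ≤ 2 * d, E w ∈ I w := by
    intro w hw
    apply hq
    apply AddSubgroup.sum_mem
    intro g _
    exact hI.right _ _ _ (hρ _) (hI.left _ _ _ (hρ _) (hE₀ w hw))
  have hEc : ∀ w g, ρ g * E w = E w * ρ g := by
    intro w g
    simp only [E]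
    rw [mul_smul_comm, smul_mul_assoc, Finset.mul_sum, Finset.sum_mul]
    congr 1
    apply Fintype.sum_bijective (fun h => g * h) (Group.mulLeft_bijective g)
    intro h
    have h1 : ρ (g * h)⁻¹ * ρ g = ρ h⁻¹ := by
      rw [← map_mul, mul_inv_rev, inv_mul_cancel_right]
    calc ρ g * (ρ h * E₀ w * ρ h⁻¹)
        = (ρ g * ρ h) * E₀ w * ρ h⁻¹ := by simp only [mul_assoc]
      _ = ρ (g * h) * E₀ w * ρ (g * h)⁻¹ * ρ g := by
          rw [← map_mul, mul_assoc _ (ρ (g * h)⁻¹), h1]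
  have hicc : Finset.Icc 0 (0 + 2 * d) = Finset.range (2 * d + 1) := by
    ext i; rw [Finset.mem_range, Finset.mem_Icc]; omega
  have hEJ : ∀ w ∈ Finset.Icc 0 (0 + 2 * d), E w ∈ J w := fun w hw => by
    rw [Finset.mem_Icc] at hw
    have h1 := hES w (by omega)
    exact memJ.2 ⟨h1, memT.2 ⟨hI.le _ _ h1, hEc w⟩⟩
  have hsumE : ∑ w ∈ Finset.Icc 0 (0 + 2 * d), E w = 1 := by
    rw [hicc]
    simp only [E]
    rw [← Finset.smul_sum, Finset.sum_comm]
    have h2 : ∀ g : G, ∑ w ∈ Finset.range (2 * d + 1), ρ g * E₀ w * ρ g⁻¹ = 1 := by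
      intro g
      rw [← Finset.sum_mul, ← Finset.mul_sum, hsum, mul_one, hρρ]
    rw [Finset.sum_congr rfl fun g _ => h2 g, Finset.sum_const, Finset.card_univ,
      ← Nat.cast_smul_eq_nsmul ℚ, smul_smul, hc, one_smul]
  have htT : ∀ x ∈ T, t x ∈ T := by
    intro x hx
    rw [memT] at hx ⊢
    refine ⟨htS x hx.1, fun g => ?_⟩
    have h1 := congrArg t (hx.2 g⁻¹)
    rw [htm, htm, htρ, inv_inv] at h1
    exact h1.symm
  obtain ⟨q, h1, h2, h3, h4, -, h6⟩ := exists_selfDual (A := A) (S := T) (I := J) hJ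
    (fun w r x hx => memJ.2 ⟨hq w r x (memJ.1 hx).1, by
      have hx' := memT.1 (memJ.1 hx).2
      exact memT.2 ⟨hSq r x hx'.1, fun g => by rw [mul_smul_comm, smul_mul_assoc, hx'.2 g]⟩⟩)
    t htq htt htm d 0 1 E T.one_mem (mul_one 1) ht1 hEJ (fun w hw x hx => by
      rw [Finset.mem_Icc] at hw
      have e1 : 2 * 0 + 2 * d - w = 2 * d - w := by omega
      rw [e1]
      exact memJ.2 ⟨htI w (by omega) x (memJ.1 hx).1, htT x (memJ.1 hx).2⟩) hsumE
  refine ⟨q, fun w => (memJ.1 (h1 w)).1, fun w hw => h2 w ?_, h3, ?_, fun w hw => ?_,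
    fun w g => (memT.1 (memJ.1 (h1 w)).2).2 g⟩
  · rw [Finset.mem_Icc]; omega
  · rw [← hicc]; exact h4
  · have h7 := h6 w (Finset.mem_Icc.2 (by omega))
    simpa using h7

/-- **Equivariant self-dual partitions**, for flags. -/
theorem exists_equivariant [Algebra ℚ A] {d : ℕ} {Z : ℕ → A} (hZ : IsFlag S (2 * d + 1) Z)
    (hSq : ∀ (r : ℚ) x, x ∈ S → r • x ∈ S)
    (t : A →+ A) (htq : ∀ (r : ℚ) a, t (r • a) = r • t a) (htt : ∀ a, t (t a) = a)
    (htm : ∀ a b, t (a * b) = t b * t a) (ht1 : t 1 = 1) (htS : ∀ a ∈ S, t a ∈ S)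
    (htZ : ∀ n ≤ 2 * d + 1, t (Z n) = 1 - Z (2 * d + 1 - n))
    {G : Type*} [Group G] [Finite G] (ρ : G →* A) (hρ : ∀ g, ρ g ∈ S)
    (htρ : ∀ g, t (ρ g) = ρ g⁻¹) :
    ∃ q : ℕ → A, (∀ w, q w ∈ layer S Z w) ∧ (∀ w, 2 * d < w → q w = 0) ∧
      (∀ i j, q i * q j = if i = j then q i else 0) ∧ ∑ w ∈ Finset.range (2 * d + 1), q w = 1 ∧
      (∀ w ≤ 2 * d, t (q w) = q (2 * d - w)) ∧ ∀ w g, ρ g * q w = q w * ρ g := by
  refine exists_equivariant_ideals (I := layer S Z) (triIdeals_layer le_rfl hZ) hSq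
    (fun w r x hx => ⟨hSq r x hx.1, by rw [mul_smul_comm, hx.2.1], by
      rw [smul_mul_assoc, hx.2.2, smul_zero]⟩) t htq htt htm ht1 htS (fun w hw x hx => ?_)
    (fun w _ => diff_mem_layer hZ w) (sum_diff hZ) ρ hρ htρ
  have e1 : 2 * d + 1 - w = 2 * d - w + 1 := by omega
  have e2 : 2 * d + 1 - (w + 1) = 2 * d - w := by omega
  refine ⟨htS x hx.1, ?_, ?_⟩
  · have h7 := congrArg t hx.2.2
    rw [htm, htZ w (by omega), map_zero, sub_mul, one_mul, e1, sub_eq_zero] at h7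
    exact h7.symm
  · have h7 := congrArg t hx.2.1
    rw [htm, htZ (w + 1) (by omega), mul_sub, mul_one, e2, sub_eq_self] at h7
    exact h7

end Pool.Agent.X308.S
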