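import Pool.Agent.X308.S.CK

/-!
# Decompositions into pieces of pure weights satisfy the conjectures of Murre
-/

set_option autoImplicit false

open CategoryTheory AlgebraicGeometry

universe u v w

namespace Pool.Agent.X308.S

open Pool.Agent.H914 Pool.Agent.H914.VarClass Pool.Agent.H914.VarClass.Obj Pool.Agent.W492.BB
  Pool.Agent.W550.Corr Pool.Agent.TH133 Pool.Agent.Y148.BB

set_option linter.unusedSectionVars false

variable {k : Type u} [Field k] {𝒱 : VarClass k} {C : TheoryData.{u, v, 0} 𝒱 ℚ} {K : Type w}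
  [Field K] [hC : IsChowProj C]
  {H : WeilTheoryData.{u, v, w} C K} [hH : IsWeilProj H] {S S' T X Y Z W : 𝒱.Obj}

include hC hH

/-- The cycle class of a class in `F^1` vanishes. -/
lemma cl_of_mem_F1 {π : ℕ → C.A (X.prod X)} (hπ : IsCK H X π) {i : ℕ} {x : C.A X}
    (hx : x ∈ ckFil C π i 1) : H.cl x = 0 := by
  rw [hπ.mem_ckFil] at hx
  have h1 : H.act (H.cl (π (2 * i))) (H.cl x) = H.cl x :=
    hπ.act_self (2 * i) _ (by
      have := H.cl_mem hx.1
      exact_mod_cast this)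
  rw [← h1, ← cl_act H, hx.2 (2 * i) (by omega), map_zero]

variable {π : ℕ → C.A (X.prod X)}

lemma noRaising_of_wt (hS : SurfaceProperties H) (hw : ∀ w : ℕ, π w ∈ wt H X w) :
    NoRaising C π := by
  intro γ hγ a b hab
  exact wt_tri hS (w := b) (w' := a) (by exact_mod_cast hab) (wt_comp (hw b) hγ) (hw a)

lemma B0_of_wt (hπ : IsCK H X π) (hw : ∀ w : ℕ, π w ∈ wt H X w) (i : ℕ) :
    ckFil C π i 0 = C.gr X i := by
  ext x
  rw [hπ.mem_ckFil]
  refine ⟨fun h => h.1, fun hx => ⟨hx, fun j hj => ?_⟩⟩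
  exact wt_B0 (w := j) (l := i) (by omega) (hw j) hx

lemma B1_of_wt (hS : SurfaceProperties H) (hπ : IsCK H X π) (hw : ∀ w : ℕ, π w ∈ wt H X w)
    (i : ℕ) : ckFil C π i (i + 1) = ⊥ := by
  rw [eq_bot_iff]
  intro x hx
  rw [hπ.mem_ckFil] at hx
  rw [Submodule.mem_bot]
  have h1 : x = ∑ j ∈ Finset.range (2 * X.dim + 1), C.act (π j) x := by
    rw [← act_sum, hπ.sum, act_dg]
  rw [h1]
  apply Finset.sum_eq_zero
  intro j _
  by_cases hj : i ≤ j
  · exact hx.2 j (by omega)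
  · exact wt_B1 hS (w := j) (l := i) (by omega) (hw j) hx.1

lemma D_of_wt (hS : SurfaceProperties H) (hπ : IsCK H X π) (hw : ∀ w : ℕ, π w ∈ wt H X w)
    (i : ℕ) (x : C.A X) : x ∈ ckFil C π i 1 ↔ C.Deg i x ∧ H.cl x = 0 := by
  constructor
  · intro hx
    refine ⟨?_, cl_of_mem_F1 hπ hx⟩
    rw [hπ.mem_ckFil] at hx
    exact hx.1
  · rintro ⟨hx, hcl⟩
    rw [hπ.mem_ckFil]
    refine ⟨hx, fun j hj => ?_⟩
    by_cases hj2 : j = 2 * i
    · exact wt_D hS (w := j) (l := i) (by exact_mod_cast hj2) (hw j) hx hcl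
    · exact wt_B0 (w := j) (l := i) (by omega) (hw j) hx

/-- Murre's conjectures for one self-dual decomposition. -/
theorem exists_good (hS : SurfaceProperties H) (hX : dg C X ∈ throughSurfaces C X) :
    ∃ π : ℕ → C.A (X.prod X), IsCK H X π ∧ IsSelfDual C π ∧
      (∀ i : ℕ, ckFil C π i 0 = C.gr X i) ∧ (∀ i : ℕ, ckFil C π i (i + 1) = ⊥) ∧
      ∀ (i : ℕ) (x : C.A X), x ∈ ckFil C π i 1 ↔ C.Deg i x ∧ H.cl x = 0 := by
  obtain ⟨π, h1, h2, h3⟩ := exists_selfDual_CK hS hX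
  exact ⟨π, h1, h2, B0_of_wt h1 h3, B1_of_wt hS h1 h3, D_of_wt hS h1 h3⟩

end Pool.Agent.X308.S
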