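import Pool.Agent.X308.S.EqDefs
import Pool.Agent.X308.S.Flag
import Pool.Agent.X308.S.Good

/-!
# Equivariant self-dual Chow-Kunneth decompositions
-/

set_option autoImplicit false

open CategoryTheory AlgebraicGeometry

universe u v w

namespace Pool.Agent.X308.S

open Pool.Agent.H914 Pool.Agent.H914.VarClass Pool.Agent.H914.VarClass.Obj Pool.Agent.W492.BB
  Pool.Agent.W550.Corr Pool.Agent.TH133 Pool.Agent.Y148.BB

set_option linter.unusedSectionVars false

variable {k : Type u} [Field k] {𝒱 : VarClass k} {C : TheoryData.{u, v, 0} 𝒱 ℚ} {K : Type w}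
  [Field K] [hC : IsChowProj C]
  {H : WeilTheoryData.{u, v, w} C K} [hH : IsWeilProj H] {X Y Z W : 𝒱.Obj}

section Graphs

lemma graph_mem (f : X ⟶ X) : C.graph f ∈ C.gr (X.prod X) X.dim := by
  have h := C.push_mem (lift (𝟙 X) f) (C.one_mem X)
  have e : (0 : ℤ) + 1 * ((X.prod X).dim - X.dim) = X.dim := by
    rw [show ((X.prod X).dim : ℤ) = X.dim + X.dim from by exact_mod_cast dim_prod X X]; ring
  rw [e] at h
  exact h

/-- The graphs of the automorphisms in a group acting on `X`. -/
theorem isOrthogonal_graph {G : Type} [Group G] (a : G →* Aut X) :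
    IsOrthogonal C (fun g => C.graph (a g).hom) where
  deg g := graph_mem _
  one := by
    rw [map_one]
    rfl
  mul g h := by
    rw [map_mul, comp_eq_extR, extR_graph, TheoryData.graph, TheoryData.graph, ← C.push_comp]
    congr 1
    have e1 : lift (𝟙 X) (a h).hom ≫ prodMap (𝟙 X) (a g).hom = lift (𝟙 X) (a g * a h).hom := by
      apply prod_ext <;> simp [Aut.Aut_mul_def]
    rw [e1]
  inv g := by
    have h1 : (a g).hom ≫ (a g).inv = 𝟙 X := (a g).hom_inv_id
    have h2 : (a g).inv ≫ (a g).hom = 𝟙 X := (a g).inv_hom_id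
    have h3 : (a g⁻¹).hom = (a g).inv := by rw [map_inv]; rfl
    have e1 : lift (𝟙 X) (a g).hom ≫ sw X X = (a g).hom ≫ lift (𝟙 X) (a g).inv := by
      apply prod_ext
      · simp [sw]
      · simp [sw, h1]
    rw [h3, tp_eq_push, TheoryData.graph, TheoryData.graph, ← C.push_comp, e1, C.push_comp]
    congr 1
    exact HasIso.push_one _ _ h1 h2

end Graphs

include hC hH

/-- The partial sums of a Chow-Kunneth decomposition. -/
noncomputable def psum (P : ℕ → Cor C X) (n : ℕ) : Cor C X := ∑ i ∈ Finset.range n, P i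

lemma psum_mul {P : ℕ → Cor C X} (h : IsCK H X P) {m n : ℕ} (hmn : m ≤ n) :
    psum P n * psum P m = psum P m := by
  unfold psum
  rw [Finset.sum_mul_sum]
  have h1 : ∀ i ∈ Finset.range n, ∑ j ∈ Finset.range m, P i * P j =
      if i ∈ Finset.range m then P i else 0 := by
    intro i _
    rw [Finset.sum_congr rfl fun j _ => h.mul_eq i j, Finset.sum_ite_eq]
  rw [Finset.sum_congr rfl h1, Finset.sum_ite_mem]
  congr 1
  ext i
  simp only [Finset.mem_inter, Finset.mem_range]
  omega

lemma one_sub_psum {P : ℕ → Cor C X} (h : IsCK H X P) {n : ℕ} (hn : n ≤ 2 * X.dim + 1) :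
    1 - psum P n = ∑ i ∈ Finset.Ico n (2 * X.dim + 1), P i := by
  rw [← h.sum_eq, psum, sub_eq_iff_eq_add, add_comm (∑ i ∈ Finset.Ico n (2 * X.dim + 1), P i),
    Finset.sum_range_add_sum_Ico _ hn]

lemma psum_of_le {P : ℕ → Cor C X} (h : IsCK H X P) {n : ℕ} (hn : 2 * X.dim + 1 ≤ n) :
    psum P n = 1 := h.sum_of_le hn

lemma psum_mem {P : ℕ → Cor C X} (h : IsCK H X P) (n : ℕ) : psum P n ∈ cor0 C X :=
  Subalgebra.sum_mem _ fun i _ => h.deg i

lemma psum_inv {P : ℕ → Cor C X} (h : IsCK H X P) (hN : NoRaising C P) (n : ℕ) :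
    LInv (cor0 C X).toSubring (psum P n) := by
  refine ⟨psum_mem h n, fun a ha => ?_⟩
  rcases le_or_gt (2 * X.dim + 1) n with hn | hn
  · rw [psum_of_le h hn, one_mul]
  · have h1 : (1 - psum P n) * (a * psum P n) = 0 := by
      rw [one_sub_psum h hn.le, Finset.sum_mul]
      apply Finset.sum_eq_zero
      intro i hi
      rw [psum, Finset.mul_sum, Finset.mul_sum]
      apply Finset.sum_eq_zero
      intro j hj
      rw [Finset.mem_Ico] at hi
      rw [Finset.mem_range] at hj
      exact hN a ha i j (by omega)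
    rw [sub_mul, one_mul, sub_eq_zero] at h1
    rw [mul_assoc]
    exact h1.symm

lemma isFlag_psum {P : ℕ → Cor C X} (h : IsCK H X P) (hN : NoRaising C P) :
    IsFlag (cor0 C X).toSubring (2 * X.dim + 1) (psum P) where
  zero := Finset.sum_range_zero _
  top := psum_of_le h le_rfl
  inv := psum_inv h hN
  mono := fun _ _ hmn => psum_mul h hmn

lemma tpR_psum {P : ℕ → Cor C X} (h : IsCK H X P) {n : ℕ} (hn : n ≤ 2 * X.dim + 1) :
    tpR C X (psum P n) = 1 - psum (dualCK C P) (2 * X.dim + 1 - n) := by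
  have hd := h.dual
  rw [one_sub_psum hd (by omega), psum, map_sum]
  -- reindex
  refine Finset.sum_nbij' (fun i => 2 * X.dim - i) (fun i => 2 * X.dim - i) ?_ ?_ ?_ ?_ ?_
  · intro i hi
    rw [Finset.mem_range] at hi
    rw [Finset.mem_Ico]
    omega
  · intro i hi
    rw [Finset.mem_Ico] at hi
    rw [Finset.mem_range]
    omega
  · intro i hi
    rw [Finset.mem_range] at hi
    omega
  · intro i hi
    rw [Finset.mem_Ico] at hi
    omega
  · intro i hi
    rw [Finset.mem_range] at hi
    have h1 : dualCK C P (2 * X.dim - i) = tp C (P (2 * X.dim - (2 * X.dim - i))) :=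
      if_pos (by omega)
    have h2 : 2 * X.dim - (2 * X.dim - i) = i := by omega
    rw [h2] at h1
    exact h1.symm

omit hH in
lemma noRaising_dual {P : ℕ → C.A (X.prod X)} (hN : NoRaising C P) :
    NoRaising C (dualCK C P) := by
  intro γ hγ a b hab
  rcases le_or_gt a (2 * X.dim) with ha | ha
  · have h1 : dualCK C P a = tp C (P (2 * X.dim - a)) := if_pos ha
    have h2 : dualCK C P b = tp C (P (2 * X.dim - b)) := if_pos (by omega)
    have h3 := hN (tp C γ) (tp_mem C hγ) (2 * X.dim - b) (2 * X.dim - a) (by omega)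
    have h4 := congrArg (tp C) h3
    rw [tp_comp C (ch_comm C), tp_comp C (ch_comm C), tp_tp, tp_zero, ← h1, ← h2,
      ← comp_assoc] at h4
    exact h4
  · have h1 : dualCK C P a = 0 := if_neg (by omega)
    rw [h1, comp_zero]

lemma psum_act {P : ℕ → Cor C X} (h : IsCK H X P) (n : ℕ) {m : ℤ} {a : H.A X}
    (ha : a ∈ H.gr X m) (hm : 0 ≤ m) : actH C X H (psum P n) a = if m < n then a else 0 := by
  rw [psum, map_sum, LinearMap.sum_apply]
  obtain ⟨m, rfl⟩ := Int.eq_ofNat_of_zero_le hm
  have h1 : ∀ i ∈ Finset.range n, actH C X H (P i) a = if m = i then a else 0 := by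
    intro i _
    rw [h.actH_eq' i _ ha]
    simp
  rw [Finset.sum_congr rfl h1, Finset.sum_ite_eq]
  simp

lemma tp_mixed {P : ℕ → Cor C X} (h : IsCK H X P) {n : ℕ} (hn : n ≤ 2 * X.dim + 1) :
    tpR C X (mixed X.dim (psum P) (psum (dualCK C P)) n) =
      1 - mixed X.dim (psum P) (psum (dualCK C P)) (2 * X.dim + 1 - n) := by
  have h1 := tpR_psum h hn
  have h2 : tpR C X (psum (dualCK C P) n) = 1 - psum P (2 * X.dim + 1 - n) := by
    have h3 := tpR_psum h.dual hn
    rwa [dualCK_dualCK h] at h3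
  unfold mixed
  by_cases hd : n ≤ X.dim
  · rw [if_pos hd, if_neg (by omega), tpR_mul, h1, h2]
    noncomm_ring
  · rw [if_neg hd, if_pos (by omega), map_sub, map_add, tpR_mul, h1, h2]
    noncomm_ring

lemma mixed_act {P : ℕ → Cor C X} (h : IsCK H X P) (n : ℕ) {m : ℤ} {a : H.A X}
    (ha : a ∈ H.gr X m) (hm : 0 ≤ m) :
    actH C X H (mixed X.dim (psum P) (psum (dualCK C P)) n) a = if m < n then a else 0 := by
  have h1 := psum_act h n ha hm
  have h2 := psum_act h.dual n ha hm
  unfold mixed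
  by_cases hd : n ≤ X.dim
  · rw [if_pos hd, map_mul, Module.End.mul_apply, h2]
    split_ifs with h3
    · rw [h1, if_pos h3]
    · rw [map_zero]
  · rw [if_neg hd, map_sub, map_add, LinearMap.sub_apply, LinearMap.add_apply, map_mul,
      Module.End.mul_apply, h1, h2]
    split_ifs with h3
    · rw [h1, if_pos h3]; abel
    · rw [map_zero]; abel

/-- Elements of the layers act on the cohomology in one degree only. -/
lemma layer_act {P : ℕ → Cor C X} (h : IsCK H X P) {w : ℕ} {x : Cor C X}
    (hx : x ∈ layer (cor0 C X).toSubring (mixed X.dim (psum P) (psum (dualCK C P))) w) {m : ℤ}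
    {a : H.A X} (ha : a ∈ H.gr X m) (hm : m ≠ w) : actH C X H x a = 0 := by
  by_cases ha0 : a = 0
  · rw [ha0, map_zero]
  have hm0 : 0 ≤ m := nonneg_of_mem H ha ha0
  rcases lt_or_gt_of_ne hm with hlt | hgt
  · have h1 := congrArg (fun y => actH C X H y a) hx.2.2
    simp only [map_mul, Module.End.mul_apply, map_zero, LinearMap.zero_apply] at h1
    rwa [mixed_act h w ha hm0, if_pos hlt] at h1
  · have h1 := congrArg (fun y => actH C X H y a) hx.2.1
    simp only [map_mul, Module.End.mul_apply] at h1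
    rw [mixed_act h (w + 1) (actH_mem0 hx.1 ha) hm0, if_neg (by push_cast; omega)] at h1
    exact h1.symm

lemma isCK_of_pure {P : ℕ → Cor C X} (hm : ∀ i, P i ∈ cor0 C X)
    (hout : ∀ i, 2 * X.dim < i → P i = 0)
    (hmul : ∀ i j, P i * P j = if i = j then P i else 0)
    (hsum : ∑ i ∈ Finset.range (2 * X.dim + 1), P i = 1)
    (hact : ∀ (i : ℕ) (m : ℤ) (a : H.A X), a ∈ H.gr X m → m ≠ i → actH C X H (P i) a = 0) :
    IsCK H X P := by
  refine isCK_of hm hout hmul hsum ?_
  intro i m a ha
  split_ifs with hmi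
  · have h7 : a = ∑ j ∈ Finset.range (2 * X.dim + 1), actH C X H (P j) a := by
      rw [← LinearMap.sum_apply, ← map_sum, hsum, map_one]
      rfl
    conv_rhs => rw [h7]
    symm
    apply Finset.sum_eq_single i
    · intro j _ hj
      exact hact j m a ha (by omega)
    · intro h8
      rw [Finset.mem_range] at h8
      rw [hout i (by omega), map_zero, LinearMap.zero_apply]
  · exact hact i m a ha hmi

section Rep

variable {G : Type} [Group G] {ρ : G → C.A (X.prod X)}

/-- The homomorphism into the ring of correspondences. -/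
noncomputable def repHom (hρ : IsOrthogonal C ρ) : G →* Cor C X where
  toFun := ρ
  map_one' := hρ.one
  map_mul' := hρ.mul

/-- **Equivariant self-dual decompositions.** -/
theorem exists_equivariant_CK [Finite G] {π : ℕ → C.A (X.prod X)} (h : IsCK H X π)
    (hN : NoRaising C π) (hρ : IsOrthogonal C ρ) :
    ∃ q : ℕ → C.A (X.prod X), IsCK H X q ∧ IsSelfDual C q ∧ NoRaising C q ∧
      CommutesWith C ρ q := by
  have hZ : IsFlag (cor0 C X).toSubring (2 * X.dim + 1)
      (mixed X.dim (psum (C := C) (X := X) π) (psum (dualCK C π))) :=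
    isFlag_mixed (by omega) (isFlag_psum h hN) (isFlag_psum h.dual (noRaising_dual hN))
  obtain ⟨q, h1, h2, h3, h4, h5, h6⟩ := exists_equivariant hZ
    (fun r x hx => (cor0 C X).smul_mem hx r) (tpR C X) (fun r a => tpR_smul r a)
    (fun a => tpR_tpR a) (fun a b => tpR_mul a b) tpR_one (fun a ha => tpR_mem ha)
    (fun n hn => tp_mixed h hn) (repHom hρ) (fun g => hρ.deg g) (fun g => hρ.inv g)
  refine ⟨q, isCK_of_pure (fun i => (h1 i).1) h2 h3 h4
    (fun i m a ha hm => layer_act h (h1 i) ha hm), fun i hi => h5 i hi, ?_, fun g i => ?_⟩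
  · intro γ hγ a b hab
    have hI := triIdeals_layer (le_refl (cor0 C X).toSubring) hZ
    let γ' : Cor C X := γ
    have h7 : q a * (γ' * q b) = 0 :=
      hI.tri b a _ _ hab (hI.left _ _ _ hγ (h1 b)) (h1 a)
    exact h7
  · exact (h6 i g).symm

/-- Equivariant self-dual decompositions of varieties dominated by surfaces. -/
theorem exists_equivariant_surf [Finite G] (hS : SurfaceProperties H)
    (hX : dg C X ∈ throughSurfaces C X) (hρ : IsOrthogonal C ρ) :
    ∃ q : ℕ → C.A (X.prod X), IsCK H X q ∧ IsSelfDual C q ∧ CommutesWith C ρ q ∧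
      ∀ w : ℕ, q w ∈ wt H X w := by
  obtain ⟨π, h1, h2, h3⟩ := exists_selfDual_CK hS hX
  have hI : TriIdeals (A := Cor C X) (cor0 C X).toSubring
      (fun w : ℕ => (wt H X (w : ℤ)).toAddSubgroup) :=
    { le := fun w x hx => (triIdeals hS X).le w x hx
      left := fun w a x ha hx => (triIdeals hS X).left w a x ha hx
      right := fun w a x ha hx => (triIdeals hS X).right w a x ha hx
      tri := fun w w' x y hlt hx hy => (triIdeals hS X).tri w w' x y (by exact_mod_cast hlt) hx hy }
  obtain ⟨q, h4, h5, h6, h7, h8, h9⟩ := exists_equivariant_ideals (A := Cor C X) hI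
    (fun r x hx => (cor0 C X).smul_mem hx r)
    (fun w r x hx => Submodule.smul_mem (wt H X (w : ℤ)) r hx)
    (tpR C X) (fun r a => tpR_smul r a)
    (fun a => tpR_tpR a) (fun a b => tpR_mul a b) tpR_one (fun a ha => tpR_mem ha)
    (d := X.dim) (fun w hw x hx => wt_tp (w := (w : ℤ)) (w' := ((2 * X.dim - w : ℕ) : ℤ)) hx
      (by omega)) (E₀ := π) (fun w _ => h3 w) h1.sum_eq
    (repHom hρ) (fun g => hρ.deg g) (fun g => hρ.inv g)
  exact ⟨q, isCK_of_pure (fun i => wt_mem (h4 i)) h5 h6 h7
    (fun i m a ha hm => wt_actH (h4 i) ha hm), fun i hi => h8 i hi,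
    fun g i => (h9 i g).symm, h4⟩

end Rep

end Pool.Agent.X308.S
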