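import Pool.Agent.X308.S.DegDefs

/-!
# Bloch-Beilinson filtrations on a class of varieties: definitions
-/

set_option autoImplicit false

open CategoryTheory AlgebraicGeometry

universe u v w

namespace Pool.Agent.X308.S

open Pool.Agent.H914 Pool.Agent.H914.VarClass Pool.Agent.H914.VarClass.Obj Pool.Agent.W492.BB
  Pool.Agent.W550.Corr Pool.Agent.TH133

variable {k : Type u} [Field k] {𝒱 : VarClass k} {C : TheoryData.{u, v, 0} 𝒱 ℚ} {K : Type w}
  [Field K] (H : WeilTheoryData.{u, v, w} C K)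

/-- The motive of `X` is a direct summand of a finite sum of twists of motives of surfaces. -/
def OfSurfaceType (C : TheoryData.{u, v, 0} 𝒱 ℚ) (X : 𝒱.Obj) : Prop :=
  dg C X ∈ throughSurfaces C X

/-- Conditions 1 and 2: `F^0 CH^i(X) = CH^i(X)`, `F^1 CH^i(X)` consists of the homologically trivial
cycles and `F^(i+1) CH^i(X) = 0`, for the varieties `X` with the property `D`. -/
structure HasSteps (D : 𝒱.Obj → Prop) (F : Filtration C) : Prop where
  zero : ∀ X : 𝒱.Obj, D X → ∀ (i : ℕ) (x : C.A X), F.Mem i 0 x ↔ C.Deg i x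
  one : ∀ X : 𝒱.Obj, D X → ∀ (i : ℕ) (x : C.A X), F.Mem i 1 x ↔ C.Deg i x ∧ H.cl x = 0
  top : ∀ X : 𝒱.Obj, D X → ∀ (i : ℕ) (x : C.A X), F.Mem i (i + 1) x → x = 0

/-- Conditions 3 and 4: `F^m CH^i(X) · F^n CH^j(X) ⊆ F^(m+n) CH^(i+j)(X)`, and pull-backs and
push-forwards by morphisms respect the filtrations, for the varieties with the property `D`. -/
structure IsFunctorial (D : 𝒱.Obj → Prop) (F : Filtration C) : Prop where
  mul : ∀ X : 𝒱.Obj, D X → ∀ (i j m n : ℕ) (x y : C.A X), F.Mem i m x → F.Mem j n y →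
    F.Mem (i + j) (m + n) (C.mul x y)
  pull : ∀ X Y : 𝒱.Obj, D X → D Y → ∀ (f : X ⟶ Y) (i n : ℕ) (y : C.A Y), F.Mem i n y →
    F.Mem i n (C.up f y)
  push : ∀ X Y : 𝒱.Obj, D X → D Y → ∀ (f : X ⟶ Y) (i j n : ℕ) (x : C.A X),
    i + Y.dim = j + X.dim → F.Mem i n x → F.Mem j n (C.down f x)

/-- Condition 5: correspondences `Γ` of any degree between varieties with the property `D` map
`F^n CH^i(X)` to `F^n CH^j(Y)`, and to `F^(n+1) CH^j(Y)` if `Γ` acts as zero on `H^(2i-n)(X)`. -/
def IsMotivicOn (D : 𝒱.Obj → Prop) (F : Filtration C) : Prop :=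
  ∀ X Y : 𝒱.Obj, D X → D Y → ∀ (i j n : ℕ) (Γ : C.A (X.prod Y)), C.Deg (X.dim + j - i) Γ →
    ∀ x : C.A X, F.Mem i n x →
      F.Mem j n (C.act Γ x) ∧ (Kills H Γ (2 * i - n) → F.Mem j (n + 1) (C.act Γ x))

/-- The subspaces `F^n CH^i(X)` form a Bloch-Beilinson filtration on the Chow groups of the
varieties `X` with the property `D` (they are contained in `CH^i(X)` and descending in `n` by the
definition of `Filtration`). -/
structure IsBBOn (D : 𝒱.Obj → Prop) (F : Filtration C) : Prop where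
  steps : HasSteps H D F
  functorial : IsFunctorial D F
  motivic : IsMotivicOn H D F

/-- Bloch's conjecture for zero-cycles on surfaces: a correspondence `Z ∈ CH^2(S × T)` between
surfaces which is homologically equivalent to a degenerate one (over `ℂ`, by the Lefschetz theorem
on classes of type `(1, 1)`: for which `[Z]^*` is zero on `H^{2,0}(T)`) acts as zero on the kernel
of the Albanese map of `S`. -/
def BlochCorrespondences : Prop :=
  ∀ (S T : 𝒱.Obj) (Z : C.A (S.prod T)), S.dim = 2 → T.dim = 2 → C.Deg 2 Z →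
    IsHomDegenerate H Z → ∀ α : C.A S, InAlbKer C α → C.act Z α = 0

end Pool.Agent.X308.S
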