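import Pool.Agent.X308.S.Good
import Pool.Agent.X308.S.BBDefs

/-!
# Correspondences between the pieces of varieties of surface type
-/

set_option autoImplicit false

open CategoryTheory AlgebraicGeometry

universe u v w

namespace Pool.Agent.X308.S

open Pool.Agent.H914 Pool.Agent.H914.VarClass Pool.Agent.H914.VarClass.Obj Pool.Agent.W492.BB
  Pool.Agent.W550.Corr Pool.Agent.TH133 Pool.Agent.Y148.BB

set_option linter.unusedSectionVars false

variable {k : Type u} [Field k] {𝒱 : VarClass k} {C : TheoryData.{u, v, 0} 𝒱 ℚ} {K : Type w}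
  [Field K] [hC : IsChowProj C]
  {H : WeilTheoryData.{u, v, w} C K} [hH : IsWeilProj H] {S S' T X Y Z W : 𝒱.Obj}

include hC hH

/-- Homologically trivial correspondences between the pieces of odd weight `i` and `i + 2 r` of
surfaces vanish. -/
theorem IsMurreCK.key_odd (hS : SurfaceProperties H) {π : ℕ → C.A (S.prod S)}
    {ρ : ℕ → C.A (S'.prod S')} (h : IsMurreCK H S π) (h' : IsMurreCK H S' ρ) {r : ℤ}
    {γ : C.A (S.prod S')} (hγ : γ ∈ C.gr (S.prod S') (2 + r)) (hcl0 : H.cl γ = 0) {i j : ℕ}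
    (hi : Odd i) (hij : (i : ℤ) + 2 * r = j) : C.comp (C.comp (π i) γ) (ρ j) = 0 := by
  by_cases hi4 : 4 < i
  · rw [h.out hi4, zero_comp, zero_comp]
  by_cases hj4 : 4 < j
  · rw [h'.out hj4, comp_zero]
  have hd := h.dim
  have hd' := h'.dim
  have hcl : H.cl (C.comp (C.comp (π i) γ) (ρ j)) = 0 := by
    rw [cl_comp, cl_comp, hcl0, comp_zero, zero_comp]
  have hid := h.entry_idem h' γ i j
  set X₀ := C.comp (C.comp (π i) γ) (ρ j) with hX₀
  have hX₀m : X₀ ∈ C.gr (S.prod S') (2 + r) :=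
    comp_deg (comp_deg (h.mem i) hγ rfl) (h'.mem j) (by rw [hd, hd']; push_cast; ring)
  obtain ⟨m, hm⟩ := hi
  have hi13 : i = 1 ∨ i = 3 := by omega
  have hj13 : j = 1 ∨ j = 3 := by omega
  have hπX : C.comp (π i) X₀ = X₀ := by
    rw [hX₀, ← comp_assoc, ← comp_assoc, h.ck.idem]
  have hXρ : C.comp X₀ (ρ j) = X₀ := by
    rw [hX₀, comp_assoc, h'.ck.idem]
  rcases hi13 with rfl | rfl
  · obtain ⟨T, α, β, hT, hα, hβ, h1⟩ := h.one
    have e1 : X₀ = C.comp α (C.comp β X₀) := by rw [← comp_assoc, ← h1, hπX]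
    rcases hj13 with rfl | rfl
    · -- `(1, 1)`
      obtain rfl : r = 0 := by omega
      have hGm : C.comp β X₀ ∈ C.gr (T.prod S') 1 := comp_deg hβ hX₀m (by rw [hd]; norm_num)
      obtain ⟨a, b, ha, hb, h2⟩ := hS.divisors T S' (C.comp β X₀) hGm
        (by rw [cl_comp, hcl, comp_zero])
      rw [h2, comp_add, comp_ext, comp_ext] at e1
      apply h.aux h' hid e1
      · exact Or.inr (h'.act_one (by omega))
      · refine Or.inl (h.act_tp_divisor le_rfl ?_)
        exact act_deg (tp_mem C hα) (C.one_mem T) (by rw [hT]; norm_num)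
    · -- `(1, 3)`
      obtain rfl : r = 1 := by omega
      obtain ⟨T', α', β', hT', hα', hβ', h1'⟩ := h'.three
      have e2 : X₀ = C.comp α (C.comp (C.comp (C.comp β X₀) α') β') := by
        rw [comp_assoc C (C.comp β X₀), ← h1', comp_assoc C β, hXρ]
        exact e1
      have hG1 : C.comp β X₀ ∈ C.gr (T.prod S') 2 := comp_deg hβ hX₀m (by rw [hd]; norm_num)
      have hGm : C.comp (C.comp β X₀) α' ∈ C.gr (T.prod T') 1 :=
        comp_deg hG1 hα' (by rw [hd']; norm_num)
      obtain ⟨a, b, ha, hb, h2⟩ := hS.divisors T T' _ hGm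
        (by rw [cl_comp, cl_comp, hcl, comp_zero, zero_comp])
      rw [h2, add_comp, ext_comp, ext_comp, comp_add, comp_ext, comp_ext] at e2
      apply h.aux h' hid e2
      · refine Or.inr (h'.act_divisor le_rfl ?_)
        exact act_deg hβ' (C.one_mem T') (by rw [hT']; norm_num)
      · refine Or.inl (h.act_tp_divisor le_rfl ?_)
        exact act_deg (tp_mem C hα) (C.one_mem T) (by rw [hT]; norm_num)
  · rcases hj13 with rfl | rfl
    · -- `(3, 1)`
      obtain rfl : r = -1 := by omega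
      obtain ⟨a, b, ha, hb, h1⟩ := hS.divisors S S' X₀ (by simpa using hX₀m) hcl
      apply h.aux h' hid h1
      · exact Or.inr (h'.act_one (by omega))
      · exact Or.inl (h.act_tp_one (by omega))
    · -- `(3, 3)`
      obtain rfl : r = 0 := by omega
      obtain ⟨T, α, β, hT, hα, hβ, h1⟩ := h'.three
      have e1 : X₀ = C.comp (C.comp X₀ α) β := by rw [comp_assoc, ← h1, hXρ]
      have hGm : C.comp X₀ α ∈ C.gr (S.prod T) 1 := comp_deg hX₀m hα (by rw [hd']; norm_num)
      obtain ⟨a, b, ha, hb, h2⟩ := hS.divisors S T _ hGm (by rw [cl_comp, hcl, zero_comp])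
      rw [h2, add_comp, ext_comp, ext_comp] at e1
      apply h.aux h' hid e1
      · refine Or.inr (h'.act_divisor le_rfl ?_)
        exact act_deg hβ (C.one_mem T) (by rw [hT]; norm_num)
      · exact Or.inl (h.act_tp_one (by omega))

/-- Reduction to generators. -/
lemma wt_bilin {w w' : ℤ} (D : C.A (X.prod Y)) (P : Submodule ℚ (C.A (X.prod Y)))
    (h : ∀ z ∈ wtGen H X X X.dim w, ∀ z' ∈ wtGen H Y Y Y.dim w', C.comp (C.comp z D) z' ∈ P)
    {z : C.A (X.prod X)} (hz : z ∈ wt H X w) {z' : C.A (Y.prod Y)} (hz' : z' ∈ wt H Y w') :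
    C.comp (C.comp z D) z' ∈ P := by
  have key : ∀ z' ∈ wtGen H Y Y Y.dim w', wt H X w ≤
      P.comap ((LinearMap.flip (compL C) z') ∘ₗ (LinearMap.flip (compL C) D)) := by
    intro z' hz'
    unfold wt
    rw [Submodule.span_le]
    intro z hz
    exact h z hz z' hz'
  have h1 : wt H Y w' ≤ P.comap (compL C (C.comp z D)) := by
    conv_lhs => unfold wt
    rw [Submodule.span_le]
    intro z' hz'
    exact key z' hz' hz
  exact h1 hz'

omit hH in
/-- Rearrangement of a composition through two surfaces. -/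
lemma comp_six {a : C.A (X.prod S)} {p : C.A (S.prod S)} {b : C.A (S.prod X)} {D : C.A (X.prod Y)}
    {a' : C.A (Y.prod S')} {p' : C.A (S'.prod S')} {b' : C.A (S'.prod Y)} :
    C.comp (C.comp (C.comp a (C.comp p b)) D) (C.comp a' (C.comp p' b')) =
      C.comp a (C.comp (C.comp (C.comp p (C.comp b (C.comp D a'))) p') b') := by
  simp only [comp_assoc]

/-- Correspondences between varieties do not raise the weights. -/
lemma wt_raise (hS : SurfaceProperties H) {s w w' : ℤ} (hw : w + 2 * s < w')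
    {D : C.A (X.prod Y)} (hD : D ∈ C.gr (X.prod Y) (X.dim + s)) {z : C.A (X.prod X)}
    (hz : z ∈ wt H X w) {z' : C.A (Y.prod Y)} (hz' : z' ∈ wt H Y w') :
    C.comp (C.comp z D) z' = 0 := by
  have h1 := wt_bilin (H := H) D ⊥ ?_ hz hz'
  · exact (Submodule.mem_bot _).1 h1
  rintro _ ⟨S, π, i, n, a, b, hπ, hw1, ha, hb, rfl⟩ _ ⟨S', ρ, j, n', a', b', hρ, hw2, ha', hb', rfl⟩
  rw [Submodule.mem_bot, comp_six]
  have h3 : C.comp b (C.comp D a') ∈ C.gr (S.prod S') (2 + (n - n' + s)) :=
    comp_deg hb (comp_deg hD ha' rfl) (by ring)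
  rw [hπ.key hS hρ h3 (by omega), zero_comp, comp_zero]

/-- Homologically trivial correspondences between pieces of odd weights `w` and `w + 2 s`
vanish. -/
lemma wt_odd_zero (hS : SurfaceProperties H) {s w w' : ℤ} (hw : w + 2 * s = w') (hodd : Odd w)
    {D : C.A (X.prod Y)} (hD : D ∈ C.gr (X.prod Y) (X.dim + s)) (hcl : H.cl D = 0)
    {z : C.A (X.prod X)} (hz : z ∈ wt H X w) {z' : C.A (Y.prod Y)} (hz' : z' ∈ wt H Y w') :
    C.comp (C.comp z D) z' = 0 := by
  have h1 := wt_bilin (H := H) D ⊥ ?_ hz hz'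
  · exact (Submodule.mem_bot _).1 h1
  rintro _ ⟨S, π, i, n, a, b, hπ, hw1, ha, hb, rfl⟩ _ ⟨S', ρ, j, n', a', b', hρ, hw2, ha', hb', rfl⟩
  rw [Submodule.mem_bot, comp_six]
  have h3 : C.comp b (C.comp D a') ∈ C.gr (S.prod S') (2 + (n - n' + s)) :=
    comp_deg hb (comp_deg hD ha' rfl) (by ring)
  have h4 : H.cl (C.comp b (C.comp D a')) = 0 := by
    rw [cl_comp, cl_comp, hcl, zero_comp, comp_zero]
  have h5 : Odd i := by
    obtain ⟨m, hm⟩ := hodd
    have h6 : (i : ℤ) = 2 * (m - n) + 1 := by omega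
    have h7 : Odd (i : ℤ) := ⟨m - n, h6⟩
    exact_mod_cast h7
  rw [hπ.key_odd hS hρ h3 h4 h5 (by omega), zero_comp, comp_zero]

/-- Correspondences of weight `w < 2 l - 2` act as zero on cycles of codimension `l`. -/
lemma wt_B2 {w l : ℤ} (hwl : w < 2 * l - 2) {x : C.A (X.prod X)}
    (hx : x ∈ wt H X w) {z : C.A X} (hz : z ∈ C.gr X l) : C.act x z = 0 := by
  have h1 : wt H X w ≤ LinearMap.ker (LinearMap.flip (actB C) z) := by
    unfold wt
    rw [Submodule.span_le]
    rintro _ ⟨S, π, i, n, a, b, hπ, hw, ha, hb, rfl⟩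
    rw [SetLike.mem_coe, LinearMap.mem_ker, LinearMap.flip_apply, actB_apply, C.act_comp,
      C.act_comp]
    have hd := hπ.dim
    have hy : C.act a z ∈ C.gr S (l - n) := act_deg ha hz (by ring)
    have h2 : C.act (π i) (C.act a z) = 0 := by
      by_cases htop : 2 < l - n
      · rw [zero_of_top hy (by rw [hd]; omega), TheoryData.act_map_zero]
      by_cases hi0 : i = 0
      · subst hi0
        obtain ⟨x', hx', h4⟩ := hπ.zero
        rw [h4, act_ext_zero_of_lt (i := 2 + (l - n)) (C.mul_mem hx' hy)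
          (by rw [hd]; push_cast; omega)]
      by_cases hi1 : i = 1
      · subst hi1
        obtain ⟨T, α, β, hT, hα, hβ, h4⟩ := hπ.one
        have h5 : C.act α (C.act a z) ∈ C.gr T (l - n) := act_deg hα hy (by rw [hd]; norm_num)
        rw [h4, C.act_comp, zero_of_top h5 (by rw [hT]; omega), TheoryData.act_map_zero]
      · omega
    rw [h2, TheoryData.act_map_zero]
  have h2 := h1 hx
  rw [LinearMap.mem_ker, LinearMap.flip_apply, actB_apply] at h2
  exact h2

/-- The projector `π 2` maps zero-cycles into the Albanese kernel. -/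
lemma inAlbKer_two (hS : SurfaceProperties H) {π : ℕ → C.A (S.prod S)} (hπ : IsMurreCK H S π)
    {y : C.A S} (hy : y ∈ C.gr S 2) : InAlbKer C (C.act (π 2) y) where
  deg := act_deg (hπ.mem 2) hy (by rw [hπ.dim]; norm_num)
  act_eq_zero Y Wc hW := by
    obtain ⟨e, he, h1⟩ := weight_two_divisor hS hπ (b := Wc) hW
    rw [← C.act_comp, h1]
    exact act_ext_zero_of_lt (i := 1 + 2) (C.mul_mem he hy) (by rw [hπ.dim]; norm_num)

/-- Assuming Bloch's conjecture, homologically trivial correspondences act as zero on the part of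
weight `2 l - 2` of the cycles of codimension `l`. -/
lemma wt_even_zero (hB : BlochCorrespondences H) (hS : SurfaceProperties H) {s l w w' : ℤ}
    (hw : w = 2 * l - 2) (hw' : w' = w + 2 * s) {D : C.A (X.prod Y)}
    (hD : D ∈ C.gr (X.prod Y) (X.dim + s)) (hcl : H.cl D = 0) {z : C.A (X.prod X)}
    (hz : z ∈ wt H X w) {z' : C.A (Y.prod Y)} (hz' : z' ∈ wt H Y w') {x : C.A X}
    (hx : x ∈ C.gr X l) : C.act (C.comp (C.comp z D) z') x = 0 := by
  have h1 := wt_bilin (H := H) D (LinearMap.ker (LinearMap.flip (actB C) x)) ?_ hz hz'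
  · rw [LinearMap.mem_ker, LinearMap.flip_apply, actB_apply] at h1
    exact h1
  rintro _ ⟨S, π, i, n, a, b, hπ, hw1, ha, hb, rfl⟩ _ ⟨S', ρ, j, n', a', b', hρ, hw2, ha', hb', rfl⟩
  rw [LinearMap.mem_ker, LinearMap.flip_apply, actB_apply, comp_six, C.act_comp, C.act_comp,
    C.act_comp, C.act_comp]
  have h3 : C.comp b (C.comp D a') ∈ C.gr (S.prod S') (2 + (n - n' + s)) :=
    comp_deg hb (comp_deg hD ha' rfl) (by ring)
  have h4 : H.cl (C.comp b (C.comp D a')) = 0 := by
    rw [cl_comp, cl_comp, hcl, zero_comp, comp_zero]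
  set γ := C.comp b (C.comp D a') with hγ
  have hd := hπ.dim
  have hd' := hρ.dim
  have hy : C.act a x ∈ C.gr S (l - n) := act_deg ha hx (by ring)
  set y := C.act a x with hyd
  have h5 : C.act (ρ j) (C.act γ (C.act (π i) y)) = 0 := by
    by_cases htop : 2 < l - n
    · rw [zero_of_top hy (by rw [hd]; omega), TheoryData.act_map_zero, TheoryData.act_map_zero,
        TheoryData.act_map_zero]
    by_cases hi0 : i = 0
    · subst hi0
      obtain ⟨x', hx', h6⟩ := hπ.zero
      rw [h6, act_ext_zero_of_lt (i := 2 + (l - n)) (C.mul_mem hx' hy)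
        (by rw [hd]; push_cast; omega), TheoryData.act_map_zero, TheoryData.act_map_zero]
    obtain rfl : i = 2 := by omega
    have hy2 : y ∈ C.gr S 2 := by rwa [show l - n = 2 by omega] at hy
    have hker := inAlbKer_two hS hπ hy2
    rcases lt_trichotomy (n - n' + s) 0 with h7 | h7 | h7
    · by_cases hneg : n - n' + s < -1
      · rw [zero_of_neg h3 (by omega), TheoryData.act_zero, TheoryData.act_map_zero]
      · have h8 : C.act γ (C.act (π 2) y) = 0 := hker.act_eq_zero S' γ (by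
          have h9 : (2 : ℤ) + (n - n' + s) = 1 := by omega
          rwa [h9] at h3)
        rw [h8, TheoryData.act_map_zero]
    · have h8 : C.act γ (C.act (π 2) y) = 0 := by
        refine hB S S' γ hd hd' ?_ ⟨0, IsDegenerate.zero, by rw [h4, map_zero]⟩ _ hker
        rwa [h7, add_zero] at h3
      rw [h8, TheoryData.act_map_zero]
    · have h8 : C.act γ (C.act (π 2) y) ∈ C.gr S' (2 + (n - n' + s)) :=
        act_deg h3 (act_deg (hπ.mem 2) hy2 rfl) (by rw [hd]; push_cast; ring)
      rw [zero_of_top h8 (by rw [hd']; omega), TheoryData.act_map_zero]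
  rw [h5, TheoryData.act_map_zero]

end Pool.Agent.X308.S
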