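import Pool.Agent.X308.S.EvenDefs
import Pool.Agent.X308.S.TriMain
import Pool.Agent.X308.S.Shift

/-!
# Varieties dominated by surfaces with algebraic even cohomology
-/

set_option autoImplicit false

open CategoryTheory AlgebraicGeometry

universe u v w

namespace Pool.Agent.X308.S

open Pool.Agent.H914 Pool.Agent.H914.VarClass Pool.Agent.H914.VarClass.Obj Pool.Agent.W492.BB
  Pool.Agent.W550.Corr Pool.Agent.TH133 Pool.Agent.Y148.BB

set_option linter.unusedSectionVars false

variable {k : Type u} [Field k] {𝒱 : VarClass k} {C : TheoryData.{u, v, 0} 𝒱 ℚ} {K : Type w}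
  [Field K] [hC : IsChowProj C]
  {H : WeilTheoryData.{u, v, w} C K} [hH : IsWeilProj H] {S S' T X Y Z W : 𝒱.Obj}

include hC hH

variable {π : ℕ → C.A (X.prod X)} {ρ : ℕ → C.A (Y.prod Y)}

omit hH in
lemma comp_sum_left {ι : Type*} (s : Finset ι) (f : ι → C.A (X.prod Y)) (Δ : C.A (Y.prod Z)) :
    C.comp (∑ i ∈ s, f i) Δ = ∑ i ∈ s, C.comp (f i) Δ :=
  map_sum (LinearMap.flip (compL C) Δ) f s

omit hH in
lemma comp_sum_right {ι : Type*} (s : Finset ι) (Γ : C.A (X.prod Y)) (f : ι → C.A (Y.prod Z)) :
    C.comp Γ (∑ i ∈ s, f i) = ∑ i ∈ s, C.comp Γ (f i) :=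
  map_sum (compL C Γ) f s

/-- The even Künneth component acts as zero on the Chow groups of other codimensions, if phantoms
act trivially. -/
lemma even_zero (hE : EvenAlgebraic H X) (hP : PhantomsActTrivially H X) (h : IsCK H X π)
    {m : ℕ} {l : ℤ} (hml : l ≠ m) {x : C.A X} (hx : C.Deg l x) : C.act (π (2 * m)) x = 0 := by
  obtain ⟨n, a, b, hab, hd, hid⟩ := hE m
  set c : C.A (X.prod X) := ∑ i, C.ext (a i) (b i) with hc
  have hcm : c ∈ C.gr (X.prod X) X.dim := by
    refine Submodule.sum_mem _ fun i _ => ?_
    have := ext_mem' (C := C) (hab i).1 (hab i).2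
    rwa [sub_add_cancel] at this
  set q := π (2 * m) with hq
  have hqm : q ∈ C.gr (X.prod X) X.dim := h.deg _
  -- `c ∘ q ∘ c = c`
  have h1 : C.comp c (C.comp q c) = c := by
    have h2 : ∀ i j, C.comp (C.comp (C.ext (a i) (b i)) q) (C.ext (a j) (b j)) =
        if i = j then C.ext (a i) (b i) else 0 := by
      intro i j
      have h3 : HasDegree C (C.act q (b i) * a j) (if i = j then 1 else 0) := by
        have h4 : C.act q (b i) ∈ C.gr X m := act_deg hqm (hab i).2 (by ring)
        obtain ⟨r, hr⟩ := exists_hasDegree (C := C) (x := C.act q (b i) * a j) (by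
          have := C.mul_mem h4 (hab j).1
          rwa [add_sub_cancel] at this)
        have h5 : HasDegree C ((C.act q (b i) - b i) * a j) 0 := by
          apply hasDegree_zero_of_cl H
          · have := C.mul_mem (Submodule.sub_mem _ h4 (hab i).2) (hab j).1
            rwa [add_sub_cancel] at this
          · rw [map_mul, map_sub, cl_act H, hq, h.act_self (2 * m) _ (by
              have := H.cl_mem (hab i).2
              exact_mod_cast this), sub_self, zero_mul]
        have h6 : HasDegree C (C.act q (b i) * a j) (if i = j then 1 else 0) := by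
          intro Y
          have e : C.act q (b i) * a j = (C.act q (b i) - b i) * a j + a j * b i := by
            rw [sub_mul, ch_comm C (b i) (a j), sub_add_cancel]
          have h7 := hd j i Y
          have h8 := h5 Y
          change C.push (snd X Y) (C.pull (fst X Y) (a j * b i)) = _ ∧
            C.push (fst Y X) (C.pull (snd Y X) (a j * b i)) = _ at h7
          rw [e, map_add, map_add, map_add, map_add, h7.1, h8.1, h7.2, h8.2, zero_smul, zero_add]
          constructor <;> simp only [eq_comm]
        exact h6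
      rw [ext_comp, comp_ext_ext h3]
      split_ifs with hij
      · rw [one_smul, hij]
      · rw [zero_smul]
    rw [← comp_assoc]
    conv_lhs => rw [hc]
    rw [comp_sum_left, comp_sum_left]
    have h3 : ∀ i, C.comp (C.comp (C.ext (a i) (b i)) q) (∑ j, C.ext (a j) (b j)) =
        C.ext (a i) (b i) := by
      intro i
      rw [comp_sum_right]
      simp only [h2]
      rw [Finset.sum_ite_eq]
      simp
    simp only [h3]
    exact hc.symm
  have hqq : C.comp q q = q := h.idem _
  -- the phantom
  set p := C.comp q (C.comp c q) with hp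
  have hpm : p ∈ C.gr (X.prod X) X.dim :=
    comp_deg hqm (comp_deg hcm hqm (j := X.dim) (by ring)) (by ring)
  have hqp : C.comp q p = p := by rw [hp, ← comp_assoc, hqq]
  have hpq : C.comp p q = p := by rw [hp, comp_assoc, comp_assoc, hqq]
  have hpp : C.comp p p = p := by
    have e : C.comp p p = C.comp q (C.comp (C.comp c (C.comp q c)) q) := by
      rw [hp]
      simp only [comp_assoc]
      rw [← comp_assoc C q q, hqq]
    rw [e, h1]
  have h2 := hP (q - p) (Submodule.sub_mem _ hqm hpm) (by
    rw [sub_comp, comp_sub, comp_sub, hqq, hqp, hpq, hpp, sub_self, sub_zero]) (by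
    apply cl_zero_of
    intro r y hy
    rw [map_sub, H.act_sub, hp, actH_comp, actH_comp, hq, h.actH_eq (2 * m) r hy]
    split_ifs with hr
    · rw [hid y (by rw [hr] at hy; exact_mod_cast hy), h.actH_eq (2 * m) r hy, if_pos hr, sub_self]
    · rw [TheoryData.act_map_zero, TheoryData.act_map_zero, sub_self]) x
  rw [C.act_sub, sub_eq_zero] at h2
  have h3 : C.act (π (2 * m)) x = C.act p x := h2
  rw [h3, hp, C.act_comp, C.act_comp]
  have h4 : C.act q x ∈ C.gr X l := act_deg hqm hx (by ring)
  have h5 : C.act c (C.act q x) = 0 := by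
    rw [hc, act_sum]
    apply Finset.sum_eq_zero
    intro i _
    exact act_ext_zero_of_lt (i := (X.dim : ℤ) - m + l) (C.mul_mem (hab i).1 h4) (by omega)
  rw [h5, TheoryData.act_map_zero]

/-- Classes which are not detected by curves are killed by the correspondences of weight
`2 l - 1`. -/
lemma wt_curves {w : ℤ} {l : ℤ} (hwl : w = 2 * l - 1) {x : C.A (X.prod X)} (hx : x ∈ wt H X w)
    {z : C.A X} (hcu : ∀ (T : 𝒱.Obj) (Γ : C.A (X.prod T)), T.dim = 1 →
      C.Deg ((X.dim : ℤ) + 1 - l) Γ → C.act Γ z = 0) : C.act x z = 0 := by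
  have h1 : wt H X w ≤ LinearMap.ker (LinearMap.flip (actB C) z) := by
    unfold wt
    rw [Submodule.span_le]
    rintro _ ⟨S, π, i, n, a, b, hπ, hw, ha, hb, rfl⟩
    rw [SetLike.mem_coe, LinearMap.mem_ker, LinearMap.flip_apply, actB_apply]
    have hdim := hπ.dim
    by_cases hi4 : 4 < i
    · rw [hπ.out hi4, zero_comp, comp_zero, TheoryData.act_zero]
    have key : ∀ (T : 𝒱.Obj) (α : C.A (S.prod T)) (β : C.A (T.prod S)) (e : ℤ), T.dim = 1 →
        C.Deg e α → (X.dim : ℤ) - n + e - 2 = X.dim + 1 - l → π i = C.comp α β →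
        C.act (C.comp a (C.comp (π i) b)) z = 0 := by
      intro T α β e hT hα he hi
      have h2 : C.comp a (C.comp (π i) b) = C.comp (C.comp a α) (C.comp β b) := by
        rw [hi]
        simp only [comp_assoc]
      have h3 : C.comp a α ∈ C.gr (X.prod T) ((X.dim : ℤ) + 1 - l) :=
        comp_deg ha hα (by rw [hdim]; push_cast; linarith)
      rw [h2, C.act_comp, hcu T _ hT h3, TheoryData.act_map_zero]
    interval_cases i
    · omega
    · obtain ⟨T, α, β, hT, hα, hβ, h4⟩ := hπ.one
      exact key T α β 2 hT hα (by push_cast at hw; omega) h4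
    · omega
    · obtain ⟨T, α, β, hT, hα, hβ, h4⟩ := hπ.three
      exact key T α β 1 hT hα (by push_cast at hw; omega) h4
    · omega
  exact h1 hx

end Pool.Agent.X308.S
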