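import Pool.Agent.X308.S.Defs

/-!
# The Albanese kernel
-/

set_option autoImplicit false

universe u v w

namespace Pool.Agent.X308.S

open Pool.Agent.H914 Pool.Agent.W492.BB

variable {k : Type u} [Field k] {𝒱 : VarClass k} {C : TheoryData.{u, v, 0} 𝒱 ℚ}

variable (C) in
/-- The zero-cycle `α` on `S` lies in the Albanese kernel: it is mapped to zero by all
correspondences `W ∈ CH^1(S × Y)`, `Y` any variety (these map zero-cycles on `S` to divisor classes
on `Y`). -/
structure InAlbKer {S : 𝒱.Obj} (α : C.A S) : Prop where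
  deg : C.Deg S.dim α
  act_eq_zero : ∀ (Y : 𝒱.Obj) (W : C.A (S.prod Y)), C.Deg 1 W → C.act W α = 0

end Pool.Agent.X308.S
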