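import Pool.Agent.X308.S.Ideal
import Pool.Agent.X308.S.MotDefs

/-!
# Chow-Kunneth decompositions of motives which are dominated by surfaces
-/

set_option autoImplicit false

open CategoryTheory AlgebraicGeometry

universe u v w

namespace Pool.Agent.X308.S

open Pool.Agent.H914 Pool.Agent.H914.VarClass Pool.Agent.H914.VarClass.Obj Pool.Agent.W492.BB
  Pool.Agent.W550.Corr Pool.Agent.TH133 Pool.Agent.Y148.BB

set_option linter.unusedSectionVars false

variable {k : Type u} [Field k] {𝒱 : VarClass k} {C : TheoryData.{u, v, 0} 𝒱 ℚ} {K : Type w}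
  [Field K] [hC : IsChowProj C]
  {H : WeilTheoryData.{u, v, w} C K} [hH : IsWeilProj H] {S S' T X Y Z W : 𝒱.Obj}

include hC hH

/-- An idempotent which factors through surfaces is the sum of orthogonal idempotents of pure
weights. -/
theorem exists_weights (hS : SurfaceProperties H) {p : Cor C X} (hpp : p * p = p)
    (hp : (p : C.A (X.prod X)) ∈ throughSurfaces C X) :
    ∃ (s : Finset ℤ) (q : ℤ → Cor C X), (∀ w, (q w : C.A (X.prod X)) ∈ wt H X w) ∧
      (∀ w, w ∉ s → q w = 0) ∧ (∀ i j, q i * q j = if i = j then q i else 0) ∧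
      ∑ w ∈ s, q w = p := by
  have h1 := through_le hS X hp
  obtain ⟨f, hf, hfs⟩ := (Submodule.mem_iSup_iff_exists_finsupp _ _).1 h1
  obtain ⟨q, h2, h3, h4, h5, -⟩ := exists_orthogonal (triIdeals hS X) f.support p
    (fun w => f w) (by
      have h6 : (⨆ w, wt H X w) ≤ C.gr (X.prod X) X.dim := iSup_le fun w x hx => wt_mem hx
      exact h6 h1) hpp (fun w _ => hf w) hfs
  exact ⟨f.support, q, h2, h3, h4, h5⟩

/-- **Murre's conjectures (A), (B), (D) for motives dominated by surfaces.** -/
theorem murre_motive (hS : SurfaceProperties H) {p : C.A (X.prod X)} (hpp : C.comp p p = p)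
    (hp : p ∈ throughSurfaces C X) (n : ℤ) :
    ∃ π : ℤ → C.A (X.prod X), IsMotiveCK H p n π ∧ MotiveB C n π ∧ MotiveD H n π := by
  obtain ⟨s, q, h1, h2, h3, h4⟩ := exists_weights (H := H) hS (p := p) hpp hp
  have hq : ∀ {w : ℤ} {m : ℤ} {a : H.A X}, a ∈ H.gr X m → m ≠ w →
      H.act (X := X) (Y := X) (H.cl (X := X.prod X) (q w)) a = 0 :=
    fun {w m a} ha hm => wt_actH (h1 w) ha hm
  let e : ℤ → ℤ := fun i => 2 * X.dim - (i - 2 * n)
  have he : ∀ i, e (e i) = i := fun i => by simp only [e]; ring
  have hsupp : {i | q (e i) ≠ 0} ⊆ ((s.image e : Finset ℤ) : Set ℤ) := by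
    intro i hi
    rw [Finset.coe_image]
    refine ⟨e i, ?_, he i⟩
    by_contra hcon
    exact hi (h2 _ hcon)
  have hsum : finsum (fun i => q (e i)) = p := by
    rw [finsum_eq_sum_of_support_subset (s := s.image e) _ hsupp,
      Finset.sum_image (fun x _ y _ hxy => by rw [← he x, hxy, he])]
    have h5 : ∀ w ∈ s, q (e (e w)) = q w := fun w _ => by rw [he]
    rw [Finset.sum_congr rfl h5]
    exact h4
  refine ⟨fun i => q (e i), ⟨(s.image e).finite_toSet.subset hsupp, fun i => wt_mem (h1 _),
    fun i => ?_, fun i j hij => ?_, hsum, fun i a ha => ?_, fun i m a hm ha => ?_⟩, ?_, ?_⟩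
  · have h5 := h3 (e i) (e i)
    rw [if_pos rfl] at h5
    exact h5
  · have h5 := h3 (e j) (e i)
    rw [if_neg (by simp only [e]; omega)] at h5
    exact h5
  · have h5 : H.act (X := X) (Y := X) (H.cl (X := X.prod X) p) a =
        ∑ w ∈ s, H.act (X := X) (Y := X) (H.cl (X := X.prod X) (q w)) a := by
      have h6 : actH C X H p a = ∑ w ∈ s, actH C X H (q w) a := by
        have h7 : (p : Cor C X) = ∑ w ∈ s, q w := h4.symm
        rw [h7, map_sum, LinearMap.sum_apply]
      exact h6
    rw [h5]
    symm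
    have ha' : a ∈ H.gr X (e i) := ha
    apply Finset.sum_eq_single (e i)
    · intro w _ hw
      exact hq ha' (Ne.symm hw)
    · intro h6
      have h7 : (q (e i) : C.A (X.prod X)) = 0 := h2 _ h6
      rw [h7]
      exact actH_zero H a
  · exact hq ha hm
  · intro l i hi z hz
    exact wt_B0 (l := X.dim - (l - n)) (by simp only [e]; omega) (h1 _) hz
  · intro l z hz hcl
    exact wt_D hS (l := X.dim - (l - n)) (by simp only [e]; ring) (h1 _) hz hcl

/-- A variety dominated by surfaces has a self-dual Chow-Kunneth decomposition into pieces of pure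
weights. -/
theorem exists_selfDual_CK (hS : SurfaceProperties H) (hX : dg C X ∈ throughSurfaces C X) :
    ∃ π : ℕ → C.A (X.prod X), IsCK H X π ∧ IsSelfDual C π ∧ ∀ w : ℕ, π w ∈ wt H X w := by
  have h1 := through_le hS X hX
  obtain ⟨f, hf, hfs⟩ := (Submodule.mem_iSup_iff_exists_finsupp _ _).1 h1
  have hfs' : ∑ w ∈ f.support, f w = dg C X := hfs
  -- restriction to the weights between `0` and `2 dim X`
  have hsub : f.support ⊆ (Finset.Icc 0 (2 * X.dim)).image (fun w : ℕ => (w : ℤ)) := by
    intro w hw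
    rw [Finsupp.mem_support_iff] at hw
    have h2 : 0 ≤ w := by
      by_contra hcon
      exact hw (wt_neg hS (by omega) (hf w))
    have h3 : w ≤ 2 * X.dim := by
      by_contra hcon
      exact hw (wt_big hS (by omega) (hf w))
    obtain ⟨w, rfl⟩ := Int.eq_ofNat_of_zero_le h2
    rw [Finset.mem_image]
    exact ⟨w, Finset.mem_Icc.2 ⟨Nat.zero_le _, by omega⟩, rfl⟩
  let F : ℕ → Cor C X := fun w => f (w : ℤ)
  have hsum : ∑ w ∈ Finset.Icc 0 (0 + 2 * X.dim), F w = 1 := by
    rw [zero_add]
    have h2 : ∑ w ∈ Finset.Icc 0 (2 * X.dim), (f (w : ℤ) : C.A (X.prod X)) = dg C X := by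
      rw [← hfs', Finset.sum_subset hsub, Finset.sum_image (fun x _ y _ hxy => by simpa using hxy)]
      intro w _ hw
      rwa [Finsupp.notMem_support_iff] at hw
    exact h2
  have hI : TriIdeals (A := Cor C X) (cor0 C X).toSubring
      (fun w : ℕ => (wt H X (w : ℤ)).toAddSubgroup) :=
    { le := fun w x hx => (triIdeals hS X).le w x hx
      left := fun w a x ha hx => (triIdeals hS X).left w a x ha hx
      right := fun w a x ha hx => (triIdeals hS X).right w a x ha hx
      tri := fun w w' x y hlt hx hy => (triIdeals hS X).tri w w' x y (by exact_mod_cast hlt) hx hy }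
  obtain ⟨q, h2, h3, h4, h5, -, h6⟩ := exists_selfDual (A := Cor C X) hI
    (fun w r x hx => Submodule.smul_mem (wt H X (w : ℤ)) r hx)
    (tpR C X) (fun r a => tpR_smul r a) (fun a => tpR_tpR a)
    (fun a b => tpR_mul a b) X.dim 0 1 F (cor0 C X).one_mem (mul_one 1)
    tpR_one (fun w _ => hf w) (fun w hw x hx => by
      rw [Finset.mem_Icc] at hw
      exact wt_tp (w := (w : ℤ)) (w' := ((2 * 0 + 2 * X.dim - w : ℕ) : ℤ)) hx (by omega)) hsum
  have hout : ∀ i, 2 * X.dim < i → q i = 0 := by
    intro i hi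
    apply h3
    rw [Finset.mem_Icc]
    omega
  have hsumq : ∑ i ∈ Finset.range (2 * X.dim + 1), q i = 1 := by
    rw [← h5]
    apply Finset.sum_congr _ (fun _ _ => rfl)
    ext i
    rw [Finset.mem_range, Finset.mem_Icc]
    omega
  refine ⟨q, isCK_of (fun i => wt_mem (h2 i)) hout h4 hsumq ?_, ?_, h2⟩
  · intro i m a ha
    split_ifs with hm
    · have h7 : a = ∑ j ∈ Finset.range (2 * X.dim + 1), actH C X H (q j) a := by
        rw [← LinearMap.sum_apply, ← map_sum, hsumq, map_one]
        rfl
      conv_rhs => rw [h7]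
      symm
      apply Finset.sum_eq_single i
      · intro j _ hj
        exact wt_actH (h2 j) ha (by omega)
      · intro h8
        rw [Finset.mem_range] at h8
        rw [hout i (by omega), map_zero, LinearMap.zero_apply]
    · exact wt_actH (h2 i) ha hm
  · intro i hi
    have h7 := h6 i (Finset.mem_Icc.2 (by omega))
    simp only [mul_zero, zero_add] at h7
    exact h7

end Pool.Agent.X308.S
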