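import Pool.Agent.X308.S.AlbDefs

/-!
# Degenerate correspondences
-/

set_option autoImplicit false

universe u v w

namespace Pool.Agent.X308.S

open Pool.Agent.H914 Pool.Agent.W492.BB

variable {k : Type u} [Field k] {𝒱 : VarClass k} {C : TheoryData.{u, v, 0} 𝒱 ℚ} {K : Type w}
  [Field K] (H : WeilTheoryData.{u, v, w} C K)

variable (C) in
/-- The degenerate correspondences in `CH^2(S × T)`, `S` and `T` surfaces: the sums of compositions
`S → Y → T` of correspondences through curves `Y` (equivalently, the classes of cycles supported on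
`V × T` or on `S × V` for curves `V`). -/
inductive IsDegenerate {S T : 𝒱.Obj} : C.A (S.prod T) → Prop
  | zero : IsDegenerate 0
  | left (Y : 𝒱.Obj) (Γ : C.A (S.prod Y)) (Δ : C.A (Y.prod T)) (hY : Y.dim = 1)
      (hΓ : C.Deg 1 Γ) (hΔ : C.Deg 2 Δ) : IsDegenerate (C.comp Γ Δ)
  | right (Y : 𝒱.Obj) (Γ : C.A (S.prod Y)) (Δ : C.A (Y.prod T)) (hY : Y.dim = 1)
      (hΓ : C.Deg 2 Γ) (hΔ : C.Deg 1 Δ) : IsDegenerate (C.comp Γ Δ)
  | add (Z W : C.A (S.prod T)) (hZ : IsDegenerate Z) (hW : IsDegenerate W) :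
      IsDegenerate (Z + W)

/-- The correspondence `Z` between surfaces is homologically equivalent to a degenerate one. -/
def IsHomDegenerate {S T : 𝒱.Obj} (Z : C.A (S.prod T)) : Prop :=
  ∃ W, IsDegenerate C W ∧ H.cl Z = H.cl W

end Pool.Agent.X308.S
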