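import Pool.Agent.X308.S.TriDefs
import Mathlib.CategoryTheory.Endomorphism

/-!
# Equivariant Chow-Kunneth decompositions: definitions
-/

set_option autoImplicit false

open CategoryTheory AlgebraicGeometry

universe u v w

namespace Pool.Agent.X308.S

open Pool.Agent.H914 Pool.Agent.H914.VarClass Pool.Agent.H914.VarClass.Obj Pool.Agent.W492.BB
  Pool.Agent.W550.Corr Pool.Agent.TH133

variable {k : Type u} [Field k] {𝒱 : VarClass k}

/-- The correspondences `ρ g ∈ CH^(dim X)(X × X)` form a representation of the group `G` such that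
the transpose of `ρ g` is `ρ g⁻¹`; for example the graphs of the automorphisms in a finite group
acting on `X`. -/
structure IsOrthogonal (C : TheoryData.{u, v, 0} 𝒱 ℚ) {X : 𝒱.Obj} {G : Type} [Group G]
    (ρ : G → C.A (X.prod X)) : Prop where
  deg : ∀ g, C.Deg X.dim (ρ g)
  one : ρ 1 = dg C X
  mul : ∀ g h, ρ (g * h) = C.comp (ρ h) (ρ g)
  inv : ∀ g, tp C (ρ g) = ρ g⁻¹

/-- The correspondences `ρ g` commute with the members of the family `π`. -/
def CommutesWith (C : TheoryData.{u, v, 0} 𝒱 ℚ) {X : 𝒱.Obj} {G : Type}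
    (ρ : G → C.A (X.prod X)) (π : ℕ → C.A (X.prod X)) : Prop :=
  ∀ g i, C.comp (ρ g) (π i) = C.comp (π i) (ρ g)

end Pool.Agent.X308.S
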