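import Pool.Agent.X308.S.Even
import Pool.Agent.X308.S.Good

/-!
# Murre's conjectures for varieties dominated by surfaces with algebraic even cohomology
-/

set_option autoImplicit false

open CategoryTheory AlgebraicGeometry

universe u v w

namespace Pool.Agent.X308.S

open Pool.Agent.H914 Pool.Agent.H914.VarClass Pool.Agent.H914.VarClass.Obj Pool.Agent.W492.BB
  Pool.Agent.W550.Corr Pool.Agent.TH133 Pool.Agent.Y148.BB

set_option linter.unusedSectionVars false

variable {k : Type u} [Field k] {𝒱 : VarClass k} {C : TheoryData.{u, v, 0} 𝒱 ℚ} {K : Type w}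
  [Field K] [hC : IsChowProj C]
  {H : WeilTheoryData.{u, v, w} C K} [hH : IsWeilProj H] {S S' T X Y Z W : 𝒱.Obj}

include hC hH

variable {π : ℕ → C.A (X.prod X)} {ρ : ℕ → C.A (Y.prod Y)}

lemma sum_act' (h : IsCK H X π) (x : C.A X) :
    x = ∑ w ∈ Finset.range (2 * X.dim + 1), C.act (π w) x := by
  rw [← act_sum, h.sum, act_dg]

omit hH in
/-- Curves are of surface type. -/
lemma dg_mem_of_curve (hT : T.dim = 1) : dg C T ∈ throughSurfaces C T := by
  apply Submodule.subset_span
  refine ⟨T.prod T, -1, C.graph (Obj.lift (𝟙 T) (𝟙 T)), C.graph (fst T T), ?_, ?_, ?_, ?_⟩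
  · rw [dim_prod, hT]
  · have h := C.push_mem (Obj.lift (𝟙 T) (Obj.lift (𝟙 T) (𝟙 T))) (C.one_mem T)
    have e1 : (0 : ℤ) + 1 * (((T.prod (T.prod T)).dim : ℤ) - T.dim) = (T.dim : ℤ) - (-1) := by
      rw [dim_prod, dim_prod, hT]; norm_num
    rwa [e1] at h
  · have h := C.push_mem (Obj.lift (𝟙 (T.prod T)) (fst T T)) (C.one_mem (T.prod T))
    have e1 : (0 : ℤ) + 1 * ((((T.prod T).prod T).dim : ℤ) - (T.prod T).dim) = 2 + (-1) := by
      rw [dim_prod, hT]; norm_num
    rwa [e1] at h
  · rw [comp_graph, TheoryData.graph, ← C.push_comp]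
    have e : Obj.lift (𝟙 T) (Obj.lift (𝟙 T) (𝟙 T)) ≫ prodMap (𝟙 T) (fst T T) =
        Obj.lift (𝟙 T) (𝟙 T) := by
      apply prod_ext <;> simp
    rw [e]
    rfl

/-- Phantoms act trivially, and the even cohomology is algebraic: curves detect the homologically
trivial cycles. -/
theorem detect_of_phantoms (hS : SurfaceProperties H) (h : IsCK H X π)
    (hw : ∀ w : ℕ, π w ∈ wt H X w) (hE : EvenAlgebraic H X) (hP : PhantomsActTrivially H X) :
    CurvesDetect H X := by
  intro l x hx hcl hcu
  rw [sum_act' h x]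
  apply Finset.sum_eq_zero
  intro w _
  by_cases h1 : 2 * l < w
  · exact wt_B0 (w := w) (l := l) (by exact_mod_cast h1) (hw w) hx
  by_cases h2 : w = 2 * l
  · exact wt_D hS (w := w) (l := l) (by exact_mod_cast h2) (hw w) hx hcl
  by_cases h3 : w + 1 = 2 * l
  · exact wt_curves (w := w) (l := l) (by omega) (hw w) hcu
  rcases Nat.even_or_odd' w with ⟨m, hm | hm⟩
  · rw [hm]
    exact even_zero hE hP h (by omega) hx
  · exact wt_B2 (w := w) (l := l) (by omega) (hw w) hx

/-- If curves detect the homologically trivial cycles then phantoms act trivially. -/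
theorem phantoms_of_detect (hS : SurfaceProperties H) (h : IsCK H X π)
    (hw : ∀ w : ℕ, π w ∈ wt H X w) (hD : CurvesDetect H X) : PhantomsActTrivially H X := by
  intro p hp hpp hcl
  -- homogeneous classes
  have key : ∀ (l : ℕ) (x : C.A X), C.Deg l x → C.act p x = 0 := by
    intro l x hx
    set y := C.act p x with hy
    have hym : y ∈ C.gr X l := act_deg hp hx (by ring)
    have hycl : H.cl y = 0 := by rw [hy, cl_act H, hcl, TheoryData.act_zero]
    have hpy : C.act p y = y := by rw [hy, ← C.act_comp, hpp]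
    apply hD l y hym hycl
    intro T Γ hT hΓ
    obtain ⟨ρ, h', -, hw'⟩ := exists_selfDual_CK (H := H) hS (dg_mem_of_curve (C := C) hT)
    have hDm : C.comp p Γ ∈ C.gr (X.prod T) (X.dim + (1 - l)) :=
      comp_deg hp hΓ (by ring)
    have hDcl : H.cl (C.comp p Γ) = 0 := by
      apply cl_zero_of
      intro m a ha
      rw [actH_comp, hcl, TheoryData.act_zero, TheoryData.act_map_zero]
    have e1 : C.act Γ y = C.act (C.comp p Γ) y := by rw [C.act_comp, hpy]
    rw [e1]
    have hm1 : ∀ z : C.A X, z ∈ C.gr X l → C.act (C.comp p Γ) z ∈ C.gr T 1 := fun z hz =>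
      act_deg hDm hz (by ring)
    rw [sum_act' h' (C.act (C.comp p Γ) y)]
    apply Finset.sum_eq_zero
    intro w' hw2
    rw [Finset.mem_range, hT] at hw2
    by_cases h0 : w' = 0
    · exact wt_B1 hS (w := w') (l := 1) (by rw [h0]; norm_num) (hw' w') (hm1 y hym)
    by_cases h2 : w' = 2
    · refine wt_D hS (w := w') (l := 1) (by rw [h2]; norm_num) (hw' w') (hm1 y hym) ?_
      rw [cl_act H, hDcl, TheoryData.act_zero]
    have h1 : w' = 1 := by omega
    conv_lhs => rw [sum_act' h y]
    rw [act_map_sum, act_map_sum]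
    apply Finset.sum_eq_zero
    intro w _
    by_cases h3 : 2 * l < w
    · rw [wt_B0 (w := w) (l := l) (by exact_mod_cast h3) (hw w) hym, TheoryData.act_map_zero,
        TheoryData.act_map_zero]
    by_cases h4 : w = 2 * l
    · rw [wt_D hS (w := w) (l := l) (by exact_mod_cast h4) (hw w) hym hycl,
        TheoryData.act_map_zero, TheoryData.act_map_zero]
    rw [← C.act_comp, ← C.act_comp, ← comp_assoc]
    by_cases h5 : w + 1 = 2 * l
    · rw [wt_odd_zero hS (s := 1 - l) (w := w) (w' := w') (by omega)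
        ⟨(l : ℤ) - 1, by omega⟩ hDm hDcl (hw w) (hw' w'), TheoryData.act_zero]
    · rw [wt_raise hS (s := 1 - l) (w := w) (w' := w') (by omega) hDm (hw w) (hw' w'),
        TheoryData.act_zero]
  intro x
  have h1 : ⨆ i, C.gr X i ≤ LinearMap.ker (C.actL p) := by
    refine iSup_le fun i x hx => ?_
    rw [LinearMap.mem_ker]
    change C.act p x = 0
    rcases lt_or_ge i 0 with hi | hi
    · rw [C.gr_neg X i hi] at hx
      rw [(Submodule.mem_bot _).1 hx, TheoryData.act_map_zero]
    · lift i to ℕ using hi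
      exact key i x hx
  have h2 : x ∈ ⨆ i, C.gr X i := by
    rw [(C.isInternal X).submodule_iSup_eq_top]
    trivial
  exact LinearMap.mem_ker.1 (h1 h2)

/-- **Main theorem.** -/
theorem tfae_even (hS : SurfaceProperties H) (hX : dg C X ∈ throughSurfaces C X)
    (hE : EvenAlgebraic H X) :
    List.TFAE [MurreD H X, MurreC H X, MurreB0 H X ∧ MurreB1 H X, PhantomsActTrivially H X,
      CurvesDetect H X] := by
  obtain ⟨π, h, -, hw⟩ := exists_selfDual_CK (H := H) hS hX
  have h1 := tfae_murre h (noRaising_of_wt hS hw) (B0_of_wt h hw) (B1_of_wt hS h hw)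
    (D_of_wt hS h hw)
  tfae_have 1 ↔ 4 := h1.out 3 4
  tfae_have 2 ↔ 4 := h1.out 2 4
  tfae_have 3 ↔ 4 := h1.out 0 4
  tfae_have 4 → 5 := detect_of_phantoms hS h hw hE
  tfae_have 5 → 4 := phantoms_of_detect hS h hw
  tfae_finish

end Pool.Agent.X308.S
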