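import Mathlib

/-!
# Triangular partitions of idempotents
-/

set_option autoImplicit false

namespace Pool.Agent.X308.S

/-- A family of two-sided ideals `I w` of the subring `S`, indexed by weights, such that
`I w' * I w = 0` for `w < w'`. -/
structure TriIdeals {A : Type*} [Ring A] {ι : Type*} [LinearOrder ι] (S : Subring A)
    (I : ι → AddSubgroup A) : Prop where
  le : ∀ w x, x ∈ I w → x ∈ S
  left : ∀ w a x, a ∈ S → x ∈ I w → a * x ∈ I w
  right : ∀ w a x, a ∈ S → x ∈ I w → x * a ∈ I w
  tri : ∀ w w' x y, w < w' → x ∈ I w → y ∈ I w' → y * x = 0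

variable {A : Type*} [Ring A] {S : Subring A}

/-- An idempotent which is a sum of elements of triangular ideals is the sum of orthogonal
idempotents in these ideals. -/
theorem exists_orthogonal {ι : Type*} [LinearOrder ι] {I : ι → AddSubgroup A}
    (hI : TriIdeals S I) (s : Finset ι) :
    ∀ (p : A) (E : ι → A), p ∈ S → p * p = p → (∀ w ∈ s, E w ∈ I w) → ∑ w ∈ s, E w = p →
      ∃ q : ι → A, (∀ w, q w ∈ I w) ∧ (∀ w, w ∉ s → q w = 0) ∧
        (∀ i j, q i * q j = if i = j then q i else 0) ∧ ∑ w ∈ s, q w = p ∧
        ∀ w, p * q w = q w ∧ q w * p = q w := by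
  classical
  induction s using Finset.induction_on_max with
  | empty =>
    intro p E _ _ _ hs
    rw [Finset.sum_empty] at hs
    refine ⟨fun _ => 0, fun w => (I w).zero_mem, fun _ _ => rfl, fun i j => ?_, ?_, fun w => ?_⟩
    · split_ifs <;> simp
    · rw [Finset.sum_empty]; exact hs
    · exact ⟨mul_zero _, zero_mul _⟩
  | insert a s ha ih =>
    intro p E hpS hp hE hs
    have hna : a ∉ s := fun h => lt_irrefl a (ha a h)
    rw [Finset.sum_insert hna] at hs
    have hpEp : ∀ w ∈ insert a s, p * E w * p ∈ I w := fun w hw =>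
      hI.right _ _ _ hpS (hI.left _ _ _ hpS (hE w hw))
    set e := p * E a * p with he
    have hpe : p * e = e := by rw [he, ← mul_assoc, ← mul_assoc, hp]
    have hep : e * p = e := by rw [he, mul_assoc, hp]
    have hsum : e + ∑ w ∈ s, p * E w * p = p := by
      calc e + ∑ w ∈ s, p * E w * p = p * (E a + ∑ w ∈ s, E w) * p := by
            rw [he, mul_add, add_mul, Finset.mul_sum, Finset.sum_mul]
        _ = p := by rw [hs, hp, hp]
    have hee : e * e = e := by
      have h1 : e * ∑ w ∈ s, p * E w * p = 0 := by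
        rw [Finset.mul_sum]
        apply Finset.sum_eq_zero
        intro w hw
        exact hI.tri w a _ _ (ha w hw) (hpEp w (Finset.mem_insert_of_mem hw))
          (hpEp a (Finset.mem_insert_self a s))
      have h2 : e * (e + ∑ w ∈ s, p * E w * p) = e * p := by rw [hsum]
      rwa [mul_add, h1, add_zero, hep] at h2
    have heI : e ∈ I a := hpEp a (Finset.mem_insert_self a s)
    have hp' : (p - e) * (p - e) = p - e := by
      rw [mul_sub, sub_mul, sub_mul, hp, hpe, hep, hee, sub_self, sub_zero]
    obtain ⟨q, h1, h2, h3, h4, h5⟩ := ih (p - e) (fun w => p * E w * p)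
      (S.sub_mem hpS (hI.le a e heI)) hp' (fun w hw => hpEp w (Finset.mem_insert_of_mem hw))
      (by rw [eq_sub_iff_add_eq, add_comm]; exact hsum)
    have hqe : ∀ w, q w * e = 0 := by
      intro w
      rw [← (h5 w).2, mul_assoc, sub_mul, hpe, hee, sub_self, mul_zero]
    have heq : ∀ w, e * q w = 0 := by
      intro w
      rw [← (h5 w).1, ← mul_assoc, mul_sub, hep, hee, sub_self, zero_mul]
    have hqa : q a = 0 := h2 a hna
    refine ⟨fun w => if w = a then e else q w, fun w => ?_, fun w hw => ?_, fun i j => ?_, ?_,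
      fun w => ?_⟩
    · beta_reduce
      split_ifs with h
      · rw [h]; exact heI
      · exact h1 w
    · rw [Finset.mem_insert, not_or] at hw
      beta_reduce
      rw [if_neg hw.1]
      exact h2 w hw.2
    · beta_reduce
      by_cases hi : i = a
      · by_cases hj : j = a
        · rw [if_pos hi, if_pos hj, if_pos (hi.trans hj.symm), hee]
        · rw [if_pos hi, if_neg hj, if_neg (fun h => hj (h.symm.trans hi)), heq]
      · by_cases hj : j = a
        · rw [if_neg hi, if_pos hj, if_neg (fun h => hi (h.trans hj)), hqe]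
        · rw [if_neg hi, if_neg hj]
          exact h3 i j
    · rw [Finset.sum_insert hna, if_pos rfl]
      have h6 : ∑ w ∈ s, (if w = a then e else q w) = ∑ w ∈ s, q w := by
        apply Finset.sum_congr rfl
        intro w hw
        have hwa : w ≠ a := by
          intro h
          rw [h] at hw
          exact hna hw
        rw [if_neg hwa]
      rw [h6, h4]
      abel
    · beta_reduce
      split_ifs with h
      · exact ⟨hpe, hep⟩
      · have h6 := h5 w
        rw [sub_mul, heq, sub_zero, mul_sub, hqe, sub_zero] at h6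
        exact h6

/-- The self-dual version: `t` is an anti-involution of the ring which exchanges the ideals of
weights `w` and `D - w`. -/
theorem exists_selfDual {I : ℕ → AddSubgroup A} [Algebra ℚ A]
    (hI : TriIdeals S I) (hq : ∀ w (r : ℚ) x, x ∈ I w → r • x ∈ I w)
    (t : A →+ A) (htq : ∀ (r : ℚ) a, t (r • a) = r • t a) (htt : ∀ a, t (t a) = a)
    (htm : ∀ a b, t (a * b) = t b * t a) (n : ℕ) :
    ∀ (s : ℕ) (p : A) (E : ℕ → A), p ∈ S → p * p = p → t p = p →
      (∀ w ∈ Finset.Icc s (s + 2 * n), E w ∈ I w) →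
      (∀ w ∈ Finset.Icc s (s + 2 * n), ∀ x ∈ I w, t x ∈ I (2 * s + 2 * n - w)) →
      ∑ w ∈ Finset.Icc s (s + 2 * n), E w = p →
      ∃ q : ℕ → A, (∀ w, q w ∈ I w) ∧ (∀ w, w ∉ Finset.Icc s (s + 2 * n) → q w = 0) ∧
        (∀ i j, q i * q j = if i = j then q i else 0) ∧
        ∑ w ∈ Finset.Icc s (s + 2 * n), q w = p ∧
        (∀ w, p * q w = q w ∧ q w * p = q w) ∧
        ∀ w ∈ Finset.Icc s (s + 2 * n), t (q w) = q (2 * s + 2 * n - w) := by
  classical
  induction n with
  | zero =>
    intro s p E hpS hp htp hE ht hs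
    simp only [mul_zero, add_zero, Finset.Icc_self, Finset.sum_singleton, Finset.mem_singleton]
      at hE ht hs ⊢
    have hpI : p ∈ I s := by rw [← hs]; exact hE s rfl
    refine ⟨fun w => if w = s then p else 0, fun w => ?_, fun w hw => ?_, fun i j => ?_, ?_,
      fun w => ?_, fun w hw => ?_⟩
    · beta_reduce
      split_ifs with h
      · rw [h]; exact hpI
      · exact (I w).zero_mem
    · exact if_neg hw
    · beta_reduce
      by_cases hi : i = s
      · by_cases hj : j = s
        · rw [if_pos hi, if_pos hj, if_pos (hi.trans hj.symm), hp]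
        · rw [if_pos hi, if_neg hj, if_neg (fun h => hj (h.symm.trans hi)), mul_zero]
      · rw [if_neg hi, zero_mul]
        split_ifs <;> rfl
    · exact if_pos rfl
    · beta_reduce
      split_ifs
      · exact ⟨hp, hp⟩
      · exact ⟨mul_zero _, zero_mul _⟩
    · subst hw
      have e1 : 2 * w - w = w := by omega
      simp only [e1, if_true, htp]
  | succ n ih =>
    intro s p E0 hpS hp htp hE0 ht hs0
    -- symmetrization
    let E : ℕ → A := fun w => (2⁻¹ : ℚ) • (E0 w + t (E0 (2 * s + 2 * (n + 1) - w)))
    have hmem : ∀ w, w ∈ Finset.Icc s (s + 2 * (n + 1)) →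
        2 * s + 2 * (n + 1) - w ∈ Finset.Icc s (s + 2 * (n + 1)) := by
      intro w hw
      rw [Finset.mem_Icc] at *
      omega
    have hE : ∀ w ∈ Finset.Icc s (s + 2 * (n + 1)), E w ∈ I w := by
      intro w hw
      apply hq
      apply (I w).add_mem (hE0 w hw)
      have h1 := ht _ (hmem w hw) _ (hE0 _ (hmem w hw))
      rw [Finset.mem_Icc] at hw
      have e : 2 * s + 2 * (n + 1) - (2 * s + 2 * (n + 1) - w) = w := by omega
      rwa [e] at h1
    have htE : ∀ w ∈ Finset.Icc s (s + 2 * (n + 1)), t (E w) = E (2 * s + 2 * (n + 1) - w) := by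
      intro w hw
      rw [Finset.mem_Icc] at hw
      simp only [E]
      have e : 2 * s + 2 * (n + 1) - (2 * s + 2 * (n + 1) - w) = w := by omega
      rw [htq, map_add, htt, e, add_comm]
    have hs : ∑ w ∈ Finset.Icc s (s + 2 * (n + 1)), E w = p := by
      simp only [E]
      rw [← Finset.smul_sum, Finset.sum_add_distrib, hs0]
      have h1 : ∑ w ∈ Finset.Icc s (s + 2 * (n + 1)), t (E0 (2 * s + 2 * (n + 1) - w)) = p := by
        rw [← map_sum]
        have h2 : ∑ w ∈ Finset.Icc s (s + 2 * (n + 1)), E0 (2 * s + 2 * (n + 1) - w) =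
            ∑ w ∈ Finset.Icc s (s + 2 * (n + 1)), E0 w := by
          apply Finset.sum_nbij' (fun w => 2 * s + 2 * (n + 1) - w)
            (fun w => 2 * s + 2 * (n + 1) - w)
          · exact fun w hw => hmem w hw
          · exact fun w hw => hmem w hw
          · intro w hw; rw [Finset.mem_Icc] at hw; omega
          · intro w hw; rw [Finset.mem_Icc] at hw; omega
          · intro w _; rfl
        rw [h2, hs0, htp]
      rw [h1, ← two_smul ℚ p, smul_smul]
      norm_num
    set a := s + 2 * (n + 1) with ha
    have hsa : s < a := by omega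
    have haI : a ∈ Finset.Icc s a := Finset.mem_Icc.2 ⟨hsa.le, le_rfl⟩
    have hsI : s ∈ Finset.Icc s a := Finset.mem_Icc.2 ⟨le_rfl, hsa.le⟩
    have hpEp : ∀ w ∈ Finset.Icc s a, p * E w * p ∈ I w := fun w hw =>
      hI.right _ _ _ hpS (hI.left _ _ _ hpS (hE w hw))
    have hdec : Finset.Icc s a = insert s (insert a (Finset.Icc (s + 1) (s + 1 + 2 * n))) := by
      ext w
      simp only [Finset.mem_Icc, Finset.mem_insert]
      omega
    have hn1 : a ∉ Finset.Icc (s + 1) (s + 1 + 2 * n) := by rw [Finset.mem_Icc]; omega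
    have hn2 : s ∉ insert a (Finset.Icc (s + 1) (s + 1 + 2 * n)) := by
      rw [Finset.mem_insert, Finset.mem_Icc]; omega
    set e := p * E a * p with he
    set f := p * E s * p with hf
    have hpe : p * e = e := by rw [he, ← mul_assoc, ← mul_assoc, hp]
    have hep : e * p = e := by rw [he, mul_assoc, hp]
    have hpf : p * f = f := by rw [hf, ← mul_assoc, ← mul_assoc, hp]
    have hfp : f * p = f := by rw [hf, mul_assoc, hp]
    have heI : e ∈ I a := hpEp a haI
    have hfI : f ∈ I s := hpEp s hsI
    have hsum : f + (e + ∑ w ∈ Finset.Icc (s + 1) (s + 1 + 2 * n), p * E w * p) = p := by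
      have h1 : ∑ w ∈ Finset.Icc s a, p * E w * p = p := by
        rw [← Finset.sum_mul, ← Finset.mul_sum, hs, hp, hp]
      rw [hdec, Finset.sum_insert hn2, Finset.sum_insert hn1] at h1
      exact h1
    have hmid : ∀ w ∈ Finset.Icc (s + 1) (s + 1 + 2 * n), w ∈ Finset.Icc s a := by
      intro w hw
      rw [Finset.mem_Icc] at *
      omega
    have hef : e * f = 0 := hI.tri s a _ _ hsa hfI heI
    have hee : e * e = e := by
      have h1 : e * ∑ w ∈ Finset.Icc (s + 1) (s + 1 + 2 * n), p * E w * p = 0 := by
        rw [Finset.mul_sum]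
        apply Finset.sum_eq_zero
        intro w hw
        refine hI.tri w a _ _ ?_ (hpEp w (hmid w hw)) heI
        rw [Finset.mem_Icc] at hw
        omega
      have h2 := congrArg (e * ·) hsum
      simp only [mul_add] at h2
      rwa [h1, hef, add_zero, zero_add, hep] at h2
    have hff : f * f = f := by
      have h1 : (∑ w ∈ Finset.Icc (s + 1) (s + 1 + 2 * n), p * E w * p) * f = 0 := by
        rw [Finset.sum_mul]
        apply Finset.sum_eq_zero
        intro w hw
        refine hI.tri s w _ _ ?_ hfI (hpEp w (hmid w hw))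
        rw [Finset.mem_Icc] at hw
        omega
      have h2 := congrArg (· * f) hsum
      simp only [add_mul] at h2
      rwa [h1, hef, add_zero, add_zero, hpf] at h2
    have hte : t e = f := by
      have h1 := htE a haI
      have h2 : 2 * s + 2 * (n + 1) - a = s := by omega
      rw [h2] at h1
      rw [he, htm, htm, htp, h1, hf, mul_assoc]
    have htf : t f = e := by rw [← hte, htt]
    set g := f * e with hg
    have htg : t g = g := by rw [hg, htm, hte, htf]
    have heg : e * g = 0 := by rw [hg, ← mul_assoc, hef, zero_mul]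
    have hgf : g * f = 0 := by rw [hg, mul_assoc, hef, mul_zero]
    have hge : g * e = g := by rw [hg, mul_assoc, hee]
    have hfg : f * g = g := by rw [hg, ← mul_assoc, hff]
    have hgg : g * g = 0 := by
      have h1 : g * g = f * (e * g) := by rw [hg, mul_assoc]
      rw [h1, heg, mul_zero]
    have hgIa : g ∈ I a := hI.left _ _ _ (hI.le _ _ hfI) heI
    have hgIs : g ∈ I s := hI.right _ _ _ (hI.le _ _ heI) hfI
    have hpg : p * g = g := by rw [hg, ← mul_assoc, hpf]
    have hgp : g * p = g := by rw [hg, mul_assoc, hep]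
    set x := e - (2⁻¹ : ℚ) • g with hx
    set y := f - (2⁻¹ : ℚ) • g with hy
    have hxI : x ∈ I a := (I a).sub_mem heI (hq _ _ _ hgIa)
    have hyI : y ∈ I s := (I s).sub_mem hfI (hq _ _ _ hgIs)
    have hxx : x * x = x := by
      rw [hx, sub_mul, mul_sub, mul_sub, hee, mul_smul_comm, heg, smul_mul_assoc, hge,
        smul_mul_assoc, mul_smul_comm, hgg]
      simp
    have hyy : y * y = y := by
      rw [hy, sub_mul, mul_sub, mul_sub, hff, mul_smul_comm, hfg, smul_mul_assoc, hgf,
        smul_mul_assoc, mul_smul_comm, hgg]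
      simp
    have hxy : x * y = 0 := by
      rw [hx, hy, sub_mul, mul_sub, mul_sub, hef, mul_smul_comm, heg, smul_mul_assoc, hgf,
        smul_mul_assoc, mul_smul_comm, hgg]
      simp
    have hyx : y * x = 0 := by
      rw [hx, hy, sub_mul, mul_sub, mul_sub, ← hg, mul_smul_comm, hfg, smul_mul_assoc, hge,
        smul_mul_assoc, mul_smul_comm, hgg, smul_zero, smul_zero, sub_zero]
      rw [sub_sub, ← add_smul]
      norm_num
    have htx : t x = y := by rw [hx, map_sub, htq, hte, htg]
    have hty : t y = x := by rw [← htx, htt]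
    have hpx : p * x = x := by rw [hx, mul_sub, hpe, mul_smul_comm, hpg]
    have hxp : x * p = x := by rw [hx, sub_mul, hep, smul_mul_assoc, hgp]
    have hpy : p * y = y := by rw [hy, mul_sub, hpf, mul_smul_comm, hpg]
    have hyp : y * p = y := by rw [hy, sub_mul, hfp, smul_mul_assoc, hgp]
    set p' := p - x - y with hp'
    have hp'S : p' ∈ S := S.sub_mem (S.sub_mem hpS (hI.le _ _ hxI)) (hI.le _ _ hyI)
    have hp'x : p' * x = 0 := by rw [hp', sub_mul, sub_mul, hpx, hxx, hyx]; simp
    have hp'y : p' * y = 0 := by rw [hp', sub_mul, sub_mul, hpy, hxy, hyy]; simp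
    have hxp' : x * p' = 0 := by rw [hp', mul_sub, mul_sub, hxp, hxx, hxy]; simp
    have hyp' : y * p' = 0 := by rw [hp', mul_sub, mul_sub, hyp, hyx, hyy]; simp
    have hpp' : p * p' = p' := by rw [hp', mul_sub, mul_sub, hp, hpx, hpy]
    have hp'p : p' * p = p' := by rw [hp', sub_mul, sub_mul, hp, hxp, hyp]
    have hp'p' : p' * p' = p' := by
      have h1 : p' * p' = p' * p - p' * x - p' * y := by
        conv_lhs => rw [hp']
        rw [← hp', mul_sub, mul_sub]
      rw [h1, hp'x, hp'y, hp'p]; simp
    have htp' : t p' = p' := by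
      rw [hp', map_sub, map_sub, htp, htx, hty]; abel
    have hp'g : p' * g = 0 := by
      have h1 : y * g = g := by
        rw [hy, sub_mul, hfg, smul_mul_assoc, hgg, smul_zero, sub_zero]
      have h2 : x * g = 0 := by
        rw [hx, sub_mul, heg, smul_mul_assoc, hgg, smul_zero, sub_zero]
      rw [hp', sub_mul, sub_mul, hpg, h1, h2]; simp
    have hp'ef : p' * (f + e) = 0 := by
      have h1 : f + e = y + x + g := by
        have h2 : (2⁻¹ : ℚ) • g + (2⁻¹ : ℚ) • g = g := by
          rw [← add_smul]; norm_num
        rw [hx, hy]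
        calc f + e = f + e - ((2⁻¹ : ℚ) • g + (2⁻¹ : ℚ) • g) + g := by rw [h2]; abel
          _ = _ := by abel
      rw [h1, mul_add, mul_add, hp'x, hp'y, hp'g]; simp
    have hsum' : ∑ w ∈ Finset.Icc (s + 1) (s + 1 + 2 * n), p' * E w * p' = p' := by
      have h1 : p' * (f + (e + ∑ w ∈ Finset.Icc (s + 1) (s + 1 + 2 * n), p * E w * p)) * p' =
          p' := by rw [hsum, hp'p, hp'p']
      rw [← add_assoc, mul_add, hp'ef, zero_add, Finset.mul_sum, Finset.sum_mul] at h1
      rw [← h1]
      apply Finset.sum_congr rfl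
      intro w _
      rw [h1]
      have h3 : p' * (p * E w * p) * p' = (p' * p) * E w * (p * p') := by simp only [mul_assoc]
      rw [h3, hp'p, hpp']
    obtain ⟨q, h1, h2, h3, h4, h5, h6⟩ := ih (s + 1) p' (fun w => p' * E w * p') hp'S hp'p' htp'
      (fun w hw => hI.right _ _ _ hp'S (hI.left _ _ _ hp'S (hE w (hmid w hw))))
      (fun w hw z hz => by
        have h7 := ht w (hmid w hw) z hz
        rw [Finset.mem_Icc] at hw
        have e1 : 2 * (s + 1) + 2 * n - w = 2 * s + 2 * (n + 1) - w := by omega
        rw [e1]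
        exact h7) hsum'
    have hqx : ∀ w, q w * x = 0 := by
      intro w
      rw [← (h5 w).2, mul_assoc, hp'x, mul_zero]
    have hqy : ∀ w, q w * y = 0 := by
      intro w
      rw [← (h5 w).2, mul_assoc, hp'y, mul_zero]
    have hxq : ∀ w, x * q w = 0 := by
      intro w
      rw [← (h5 w).1, ← mul_assoc, hxp', zero_mul]
    have hyq : ∀ w, y * q w = 0 := by
      intro w
      rw [← (h5 w).1, ← mul_assoc, hyp', zero_mul]
    have hane : a ≠ s := by omega
    let Q : ℕ → A := fun w => if w = a then x else if w = s then y else q w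
    have Qa : Q a = x := if_pos rfl
    have Qs : Q s = y := by
      change (if s = a then x else if s = s then y else q s) = y
      rw [if_neg hane.symm, if_pos rfl]
    have Qn : ∀ w, w ≠ a → w ≠ s → Q w = q w := fun w h h' => by
      simp only [Q]; rw [if_neg h, if_neg h']
    refine ⟨Q, fun w => ?_, fun w hw => ?_, fun i j => ?_, ?_, fun w => ?_, fun w hw => ?_⟩
    · by_cases hwa : w = a
      · rw [hwa, Qa]; exact hxI
      · by_cases hws : w = s
        · rw [hws, Qs]; exact hyI
        · rw [Qn w hwa hws]; exact h1 w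
    · have hwa : w ≠ a := fun h => hw (h ▸ haI)
      have hws : w ≠ s := fun h => hw (h ▸ hsI)
      rw [Qn w hwa hws]
      apply h2
      intro h
      exact hw (hmid w h)
    · by_cases hi : i = a
      · rw [hi, Qa]
        by_cases hj : j = a
        · rw [hj, Qa, if_pos rfl, hxx]
        · rw [if_neg (Ne.symm hj)]
          by_cases hj' : j = s
          · rw [hj', Qs, hxy]
          · rw [Qn j hj hj', hxq]
      · by_cases hi' : i = s
        · rw [hi', Qs]
          by_cases hj : j = a
          · rw [hj, Qa, if_neg hane.symm, hyx]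
          · by_cases hj' : j = s
            · rw [hj', Qs, if_pos rfl, hyy]
            · rw [Qn j hj hj', if_neg (Ne.symm hj'), hyq]
        · rw [Qn i hi hi']
          by_cases hj : j = a
          · rw [hj, Qa, if_neg hi, hqx]
          · by_cases hj' : j = s
            · rw [hj', Qs, if_neg hi', hqy]
            · rw [Qn j hj hj']
              exact h3 i j
    · rw [hdec, Finset.sum_insert hn2, Finset.sum_insert hn1, Qa, Qs]
      have h7 : ∑ w ∈ Finset.Icc (s + 1) (s + 1 + 2 * n), Q w = p' := by
        rw [← h4]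
        apply Finset.sum_congr rfl
        intro w hw
        rw [Finset.mem_Icc] at hw
        exact Qn w (by omega) (by omega)
      rw [h7, hp']
      abel
    · by_cases hwa : w = a
      · rw [hwa, Qa]; exact ⟨hpx, hxp⟩
      · by_cases hws : w = s
        · rw [hws, Qs]; exact ⟨hpy, hyp⟩
        · rw [Qn w hwa hws]
          constructor
          · rw [← (h5 w).1, ← mul_assoc, hpp']
          · conv_lhs => rw [← (h5 w).2]
            rw [mul_assoc, hp'p, (h5 w).2]
    · rw [Finset.mem_Icc] at hw
      by_cases hwa : w = a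
      · have e1 : 2 * s + 2 * (n + 1) - w = s := by omega
        rw [e1, hwa, Qa, Qs, htx]
      · by_cases hws : w = s
        · have e1 : 2 * s + 2 * (n + 1) - w = a := by omega
          rw [e1, hws, Qa, Qs, hty]
        · rw [Qn w hwa hws, Qn _ (by omega) (by omega),
            h6 w (Finset.mem_Icc.2 (by omega))]
          congr 1
          omega

end Pool.Agent.X308.S
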