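import Pool.Agent.X308.S.Key
import Pool.Agent.X308.S.Ring
import Pool.Agent.TH133.SelfDual

/-!
# The correspondences of a given weight which factor through surfaces
-/

set_option autoImplicit false

open CategoryTheory AlgebraicGeometry

universe u v w

namespace Pool.Agent.X308.S

open Pool.Agent.H914 Pool.Agent.H914.VarClass Pool.Agent.H914.VarClass.Obj Pool.Agent.W492.BB
  Pool.Agent.W550.Corr Pool.Agent.TH133 Pool.Agent.Y148.BB

set_option linter.unusedSectionVars false

variable {k : Type u} [Field k] {𝒱 : VarClass k} {C : TheoryData.{u, v, 0} 𝒱 ℚ} {K : Type w}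
  [Field K]

/-- The generators of weight `w`: the compositions `b ∘ π i ∘ a` through `h^i(S)(-n)`, with
`i + 2 n = w`. -/
def wtGen (H : WeilTheoryData.{u, v, w} C K) (X Y : 𝒱.Obj) (d : ℤ) (w : ℤ) :
    Set (C.A (X.prod Y)) :=
  {z | ∃ (S : 𝒱.Obj) (π : ℕ → C.A (S.prod S)) (i : ℕ) (n : ℤ) (a : C.A (X.prod S))
    (b : C.A (S.prod Y)), IsMurreCK H S π ∧ (i : ℤ) + 2 * n = w ∧ C.Deg (d - n) a ∧
    C.Deg (2 + n) b ∧ z = C.comp a (C.comp (π i) b)}

/-- The self-correspondences of degree zero of `X` which factor through the parts of weight `w` of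
motives of surfaces. -/
noncomputable def wt (H : WeilTheoryData.{u, v, w} C K) (X : 𝒱.Obj) (w : ℤ) :
    Submodule ℚ (C.A (X.prod X)) := Submodule.span ℚ (wtGen H X X X.dim w)

variable [hC : IsChowProj C]
  {H : WeilTheoryData.{u, v, w} C K} [hH : IsWeilProj H] {S S' T X Y Z W : 𝒱.Obj}

include hC hH

lemma wt_mem {w : ℤ} {x : C.A (X.prod X)} (hx : x ∈ wt H X w) : x ∈ C.gr (X.prod X) X.dim := by
  have h1 : wt H X w ≤ C.gr (X.prod X) X.dim := by
    unfold wt
    rw [Submodule.span_le]
    rintro _ ⟨S, π, i, n, a, b, hπ, hw, ha, hb, rfl⟩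
    have h2 : C.comp (π i) b ∈ C.gr (S.prod X) (2 + n) :=
      comp_deg (hπ.mem i) hb (by rw [hπ.dim]; push_cast; ring)
    exact comp_deg ha h2 (by rw [hπ.dim]; push_cast; ring)
  exact h1 hx

lemma wt_comp {w : ℤ} {x : C.A (X.prod X)} (hx : x ∈ wt H X w) {c : C.A (X.prod X)}
    (hc : c ∈ C.gr (X.prod X) X.dim) : C.comp x c ∈ wt H X w := by
  have h1 : wt H X w ≤ (wt H X w).comap (LinearMap.flip (compL C) c) := by
    conv_lhs => unfold wt
    rw [Submodule.span_le]
    rintro _ ⟨S, π, i, n, a, b, hπ, hw, ha, hb, rfl⟩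
    apply Submodule.subset_span
    refine ⟨S, π, i, n, a, C.comp b c, hπ, hw, ha, comp_deg hb hc (by ring), ?_⟩
    rw [LinearMap.flip_apply, compL_apply, comp_assoc, comp_assoc]
  exact h1 hx

lemma comp_wt {w : ℤ} {x : C.A (X.prod X)} (hx : x ∈ wt H X w) {c : C.A (X.prod X)}
    (hc : c ∈ C.gr (X.prod X) X.dim) : C.comp c x ∈ wt H X w := by
  have h1 : wt H X w ≤ (wt H X w).comap (compL C c) := by
    conv_lhs => unfold wt
    rw [Submodule.span_le]
    rintro _ ⟨S, π, i, n, a, b, hπ, hw, ha, hb, rfl⟩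
    apply Submodule.subset_span
    refine ⟨S, π, i, n, C.comp c a, b, hπ, hw, comp_deg hc ha (by ring), hb, ?_⟩
    rw [compL_apply, comp_assoc]
  exact h1 hx

lemma wt_tri (hS : SurfaceProperties H) {w w' : ℤ} (hlt : w < w') {x y : C.A (X.prod X)}
    (hx : x ∈ wt H X w) (hy : y ∈ wt H X w') : C.comp x y = 0 := by
  have key : ∀ y ∈ wtGen H X X X.dim w', wt H X w ≤ LinearMap.ker (LinearMap.flip (compL C) y) := by
    rintro _ ⟨S', ρ, j, n', a', b', hρ, hw', ha', hb', rfl⟩
    unfold wt
    rw [Submodule.span_le]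
    rintro _ ⟨S, π, i, n, a, b, hπ, hw, ha, hb, rfl⟩
    rw [SetLike.mem_coe, LinearMap.mem_ker, LinearMap.flip_apply, compL_apply]
    have h2 : C.comp (C.comp (π i) (C.comp b a')) (ρ j) = 0 := by
      have h3 : C.comp b a' ∈ C.gr (S.prod S') (2 + (n - n')) := comp_deg hb ha' (by ring)
      exact hπ.key hS hρ h3 (by omega)
    have h4 : C.comp (C.comp a (C.comp (π i) b)) (C.comp a' (C.comp (ρ j) b')) =
        C.comp a (C.comp (C.comp (C.comp (π i) (C.comp b a')) (ρ j)) b') := by
      simp only [comp_assoc]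
    rw [h4, h2, zero_comp, comp_zero]
  have h1 : wt H X w' ≤ LinearMap.ker (compL C x) := by
    conv_lhs => unfold wt
    rw [Submodule.span_le]
    intro y hy
    have h2 := key y hy hx
    rw [LinearMap.mem_ker, LinearMap.flip_apply] at h2
    exact h2
  exact h1 hy

/-- The triangular ideals in the ring of correspondences. -/
lemma triIdeals (hS : SurfaceProperties H) (X : 𝒱.Obj) :
    TriIdeals (A := Cor C X) (cor0 C X).toSubring
      (fun w : ℤ => (wt H X w).toAddSubgroup) where
  le _ _ hx := wt_mem hx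
  left _ _ _ ha hx := wt_comp hx ha
  right _ _ _ ha hx := comp_wt hx ha
  tri _ _ _ _ hlt hx hy := wt_tri hS hlt hx hy

lemma wt_tp {w w' : ℤ} {x : C.A (X.prod X)} (hx : x ∈ wt H X w) (hw' : w + w' = 2 * X.dim) :
    tp C x ∈ wt H X w' := by
  have h1 : wt H X w ≤ (wt H X w').comap (C.pull (sw X X)).toLinearMap := by
    conv_lhs => unfold wt
    rw [Submodule.span_le]
    rintro _ ⟨S, π, i, n, a, b, hπ, hw, ha, hb, rfl⟩
    change tp C (C.comp a (C.comp (π i) b)) ∈ wt H X w'
    rw [tp_comp', tp_comp']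
    by_cases hi : i ≤ 4
    · apply Submodule.subset_span
      refine ⟨S, dualCK C π, 4 - i, X.dim - 2 - n, tp C b, tp C a, hπ.dual, by omega, ?_, ?_, ?_⟩
      · have := tp_mem C hb
        rwa [show (2 : ℤ) + n = X.dim - (X.dim - 2 - n) by ring] at this
      · have := tp_mem C ha
        rwa [show (X.dim : ℤ) - n = 2 + (X.dim - 2 - n) by ring] at this
      · rw [hπ.tp_eq hi, comp_assoc]
    · rw [hπ.out (by omega), tp_zero, comp_zero, zero_comp]
      exact Submodule.zero_mem _
  exact h1 hx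

/-- Nothing of negative weight maps to the motive of a variety. -/
lemma gen_neg (hS : SurfaceProperties H) {π : ℕ → C.A (S.prod S)} (hπ : IsMurreCK H S π) {i : ℕ}
    {n : ℤ} {b : C.A (S.prod X)} (hb : b ∈ C.gr (S.prod X) (2 + n)) (hw : (i : ℤ) + 2 * n < 0) :
    C.comp (π i) b = 0 := by
  by_cases hi : 4 < i
  · rw [hπ.out hi, zero_comp]
  have hd := hπ.dim
  set D := C.comp (π i) b with hD
  have hDm : D ∈ C.gr (S.prod X) (2 + n) := comp_deg (hπ.mem i) hb (by rw [hd]; push_cast; ring)
  have hDD : C.comp (π i) D = D := by rw [hD, ← comp_assoc, hπ.ck.idem]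
  rcases lt_trichotomy n (-2) with h | h | h
  · exact zero_of_neg hDm (by omega)
  · subst h
    obtain ⟨q, hq⟩ := corr_zero (C := C) (X := S) (Y := X) (D := D) (by simpa using hDm)
    rw [← hDD, hq, comp_smul, comp_ext, hπ.act_tp_one (by omega), TheoryData.ext_zero_left,
      smul_zero]
  · obtain rfl : n = -1 := by omega
    have hcl : H.cl D = 0 := by
      apply cl_zero_of
      intro m a ha
      rw [hD, actH_comp, hπ.ck.actH_eq i m ha]
      split_ifs with hm
      · exact hgr_neg (actH_deg (H := H) hb ha rfl) (by rw [hd]; push_cast; omega)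
      · rw [TheoryData.act_map_zero]
    obtain ⟨a, c, ha, hc, h1⟩ := hS.divisors S X D (by simpa using hDm) hcl
    rw [← hDD, h1, comp_add, comp_ext, comp_ext, hπ.act_tp_divisor (by omega) ha,
      hπ.act_tp_one (by omega), TheoryData.ext_zero_left, TheoryData.ext_zero_left, add_zero]

lemma wt_neg (hS : SurfaceProperties H) {w : ℤ} (hw0 : w < 0) {x : C.A (X.prod X)}
    (hx : x ∈ wt H X w) : x = 0 := by
  have h1 : wt H X w ≤ ⊥ := by
    unfold wt
    rw [Submodule.span_le]
    rintro _ ⟨S, π, i, n, a, b, hπ, hw, ha, hb, rfl⟩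
    rw [gen_neg hS hπ hb (by omega), comp_zero]
    exact Submodule.zero_mem _
  exact (Submodule.mem_bot _).1 (h1 hx)

lemma wt_big (hS : SurfaceProperties H) {w : ℤ} (hw0 : 2 * X.dim < w) {x : C.A (X.prod X)}
    (hx : x ∈ wt H X w) : x = 0 := by
  have h1 := wt_neg hS (w := 2 * X.dim - w) (by omega) (wt_tp hx (w' := 2 * X.dim - w) (by ring))
  rw [← tp_tp C x, h1, tp_zero]

lemma wt_actH {w : ℤ} {x : C.A (X.prod X)} (hx : x ∈ wt H X w) {m : ℤ} {a : H.A X}
    (ha : a ∈ H.gr X m) (hm : m ≠ w) : H.act (H.cl x) a = 0 := by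
  have key : ∀ x : C.A (X.prod X), x ∈ wt H X w → H.act (H.cl x) a = 0 := by
    intro x hx
    unfold wt at hx
    induction hx using Submodule.span_induction with
    | mem x hx =>
      obtain ⟨S, π, i, n, a', b, hπ, hw, ha', hb, rfl⟩ := hx
      have h2 := actH_deg (H := H) ha' ha rfl
      rw [actH_comp, actH_comp, hπ.ck.actH_eq i _ h2, if_neg (by omega), TheoryData.act_map_zero]
    | zero => rw [map_zero, TheoryData.act_zero]
    | add x y _ _ hx hy => rw [map_add, TheoryData.act_add, hx, hy, add_zero]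
    | smul q x _ hx =>
      have h3 : H.cl (q • x) = H.cl (q • (1 : C.A (X.prod X))) * H.cl x := by
        rw [← map_mul, smul_mul_assoc, one_mul]
      obtain ⟨c, hc⟩ : ∃ c : K, H.cl (q • (1 : C.A (X.prod X))) = c • 1 := by
        apply hH.gr_zero
        have := H.cl_mem (Submodule.smul_mem _ q (C.one_mem (X.prod X)))
        simpa using this
      rw [h3, hc, smul_mul_assoc, one_mul, TheoryData.act_apply, smul_mul_assoc, map_smul,
        ← TheoryData.act_apply, hx, smul_zero]
  exact key x hx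

/-- Correspondences of weight `w > 2 l` act as zero on cycles of codimension `l`. -/
lemma wt_B0 {w l : ℤ} (hwl : 2 * l < w) {x : C.A (X.prod X)} (hx : x ∈ wt H X w) {z : C.A X}
    (hz : z ∈ C.gr X l) : C.act x z = 0 := by
  have h1 : wt H X w ≤ LinearMap.ker (LinearMap.flip (actB C) z) := by
    unfold wt
    rw [Submodule.span_le]
    rintro _ ⟨S, π, i, n, a, b, hπ, hw, ha, hb, rfl⟩
    rw [SetLike.mem_coe, LinearMap.mem_ker, LinearMap.flip_apply, actB_apply, C.act_comp,
      C.act_comp]
    have hd := hπ.dim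
    have hy : C.act a z ∈ C.gr S (l - n) := act_deg ha hz (by ring)
    have h2 : C.act (π i) (C.act a z) = 0 := by
      rcases lt_trichotomy (l - n) 1 with h | h | h
      · rcases lt_trichotomy (l - n) 0 with h' | h' | h'
        · rw [zero_of_neg hy h', TheoryData.act_map_zero]
        · rw [h'] at hy
          obtain ⟨q, hq⟩ := hC.gr_zero _ _ hy
          rw [hq, act_map_smul, hπ.act_one (by omega), smul_zero]
        · omega
      · rw [h] at hy
        exact hπ.act_divisor (by omega) hy
      · by_cases h2 : l - n = 2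
        · rw [hπ.out (by omega), TheoryData.act_zero]
        · rw [zero_of_top hy (by rw [hd]; omega), TheoryData.act_map_zero]
    rw [h2, TheoryData.act_map_zero]
  have h2 := h1 hx
  rw [LinearMap.mem_ker, LinearMap.flip_apply, actB_apply] at h2
  exact h2

/-- Correspondences of weight `2 l` act as zero on homologically trivial cycles of codimension
`l`. -/
lemma wt_D (hS : SurfaceProperties H) {w l : ℤ} (hwl : w = 2 * l) {x : C.A (X.prod X)}
    (hx : x ∈ wt H X w) {z : C.A X} (hz : z ∈ C.gr X l) (hcl : H.cl z = 0) : C.act x z = 0 := by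
  have h1 : wt H X w ≤ LinearMap.ker (LinearMap.flip (actB C) z) := by
    unfold wt
    rw [Submodule.span_le]
    rintro _ ⟨S, π, i, n, a, b, hπ, hw, ha, hb, rfl⟩
    rw [SetLike.mem_coe, LinearMap.mem_ker, LinearMap.flip_apply, actB_apply, C.act_comp,
      C.act_comp]
    have hd := hπ.dim
    have hy : C.act a z ∈ C.gr S (l - n) := act_deg ha hz (by ring)
    have hyc : H.cl (C.act a z) = 0 := by rw [cl_act H, hcl, TheoryData.act_map_zero]
    have h2 : C.act (π i) (C.act a z) = 0 := by
      rcases lt_trichotomy (l - n) 1 with h | h | h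
      · rcases lt_trichotomy (l - n) 0 with h' | h' | h'
        · rw [zero_of_neg hy h', TheoryData.act_map_zero]
        · rw [h'] at hy
          rw [gr_zero_eq (H := H) hy hyc, TheoryData.act_map_zero]
        · omega
      · rw [h] at hy
        obtain rfl : i = 2 := by omega
        exact hπ.act_pic hS hy hyc
      · by_cases h2 : l - n = 2
        · obtain rfl : i = 4 := by omega
          rw [h2] at hy
          obtain ⟨x', hx', h4⟩ := hπ.four
          have h5 : HasDegree C (1 * C.act a z) 0 := by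
            rw [one_mul]
            exact hasDegree_zero_of_cl (H := H) (by rw [hd]; exact_mod_cast hy) hyc
          rw [h4, act_ext' h5, zero_smul]
        · rw [zero_of_top hy (by rw [hd]; omega), TheoryData.act_map_zero]
    rw [h2, TheoryData.act_map_zero]
  have h2 := h1 hx
  rw [LinearMap.mem_ker, LinearMap.flip_apply, actB_apply] at h2
  exact h2

/-- Divisors on `S × X` which only see `H^2(S)` are pulled back from `S`. -/
lemma weight_two_divisor (hS : SurfaceProperties H) {π : ℕ → C.A (S.prod S)}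
    (hπ : IsMurreCK H S π) {b : C.A (S.prod X)} (hb : b ∈ C.gr (S.prod X) 1) :
    ∃ e ∈ C.gr S 1, C.comp (π 2) b = C.ext e 1 := by
  have hd := hπ.dim
  obtain ⟨o, ho, ho1, ho2⟩ := hC.exists_deg_one X
  have hod : HasDegree C o 1 := fun Y => by rw [one_smul]; exact ⟨ho2 Y, ho1 Y⟩
  set D := C.comp (π 2) b with hD
  have hDm : D ∈ C.gr (S.prod X) 1 := comp_deg (hπ.mem 2) hb (by rw [hd]; norm_num)
  have hDD : C.comp (π 2) D = D := by rw [hD, ← comp_assoc, hπ.ck.idem]
  set e0 := C.act (tp C D) o with he0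
  have he0m : e0 ∈ C.gr S 1 := act_deg (tp_mem C hDm) ho (by ring)
  have he0π : C.act (tp C (π 2)) e0 = e0 := by
    rw [he0, hD, tp_comp', C.act_comp, ← C.act_comp (tp C (π 2)), ← tp_comp', hπ.ck.idem]
  set D1 := D - C.ext e0 1 with hD1
  have hE : C.comp (π 2) (C.ext e0 (1 : C.A X)) = C.ext e0 1 := by rw [comp_ext, he0π]
  have hD1D : C.comp (π 2) D1 = D1 := by rw [hD1, comp_sub, hDD, hE]
  have hD1m : D1 ∈ C.gr (S.prod X) 1 := by
    apply Submodule.sub_mem _ hDm
    have := ext_mem' (C := C) he0m (C.one_mem X)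
    simpa using this
  have hD1o : C.act (tp C D1) o = 0 := by
    rw [hD1, tp_sub, TheoryData.act_sub, ← he0, tp_ext, act_ext' (q := 1) (by rwa [one_mul]),
      one_smul, sub_self]
  have hcl : H.cl D1 = 0 := by
    apply cl_zero_of
    intro m a ha
    rw [← hD1D, actH_comp, hπ.ck.actH_eq 2 m ha]
    split_ifs with hm
    · obtain ⟨c, hc⟩ := hH.gr_zero X _ (actH_deg (H := H) hD1m ha (j := 0)
        (by rw [hd, hm]; norm_num))
      have h1 : H.tr X (H.act (H.cl D1) a * H.cl o) = 0 := by
        rw [← tr_act, ← cl_act H, hD1o, map_zero, mul_zero, map_zero]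
      rw [hc, smul_mul_assoc, one_mul, map_smul, smul_eq_mul, mul_eq_zero] at h1
      rcases h1 with h1 | h1
      · rw [hc, h1, zero_smul]
      · exfalso
        exact cl_o_ne (H := H) ho hod (tr_mul_eq_zero (H := H) _ (H.cl_mem ho) h1)
    · rw [TheoryData.act_map_zero]
  obtain ⟨a, c, ha, hc, h1⟩ := hS.divisors S X D1 hD1m hcl
  refine ⟨e0 + C.act (tp C (π 2)) a, Submodule.add_mem _ he0m
    (act_deg (tp_mem C (hπ.mem 2)) ha (by rw [hd]; norm_num)), ?_⟩
  have h2 : D1 = C.ext (C.act (tp C (π 2)) a) 1 := by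
    rw [← hD1D, h1, comp_add, comp_ext, comp_ext, hπ.act_tp_one (by omega),
      TheoryData.ext_zero_left, add_zero]
  have h3 : C.ext (e0 + C.act (tp C (π 2)) a) (1 : C.A X) =
      C.ext e0 1 + C.ext (C.act (tp C (π 2)) a) 1 := by
    rw [TheoryData.ext, map_add, add_mul]
    rfl
  rw [h3, ← h2, hD1]
  abel

/-- Correspondences of weight `w < l` act as zero on cycles of codimension `l`. -/
lemma wt_B1 (hS : SurfaceProperties H) {w l : ℤ} (hwl : w < l) {x : C.A (X.prod X)}
    (hx : x ∈ wt H X w) {z : C.A X} (hz : z ∈ C.gr X l) : C.act x z = 0 := by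
  have h1 : wt H X w ≤ LinearMap.ker (LinearMap.flip (actB C) z) := by
    unfold wt
    rw [Submodule.span_le]
    rintro _ ⟨S, π, i, n, a, b, hπ, hw, ha, hb, rfl⟩
    rw [SetLike.mem_coe, LinearMap.mem_ker, LinearMap.flip_apply, actB_apply, C.act_comp]
    have hd := hπ.dim
    have hy : C.act a z ∈ C.gr S (l - n) := act_deg ha hz (by ring)
    set y := C.act a z with hyd
    by_cases hw0 : (i : ℤ) + 2 * n < 0
    · rw [gen_neg hS hπ hb hw0, TheoryData.act_zero]
    by_cases htop : 2 < l - n
    · rw [zero_of_top hy (by rw [hd]; omega), TheoryData.act_map_zero]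
    by_cases hneg : l - n < 0
    · rw [zero_of_neg hy hneg, TheoryData.act_map_zero]
    by_cases hi0 : i = 0
    · subst hi0
      obtain ⟨x', hx', h4⟩ := hπ.zero
      rw [C.act_comp, h4, act_ext_zero_of_lt (i := 2 + (l - n)) (C.mul_mem hx' hy)
        (by rw [hd]; push_cast; omega), TheoryData.act_map_zero]
    by_cases hi1 : i = 1
    · subst hi1
      obtain ⟨T, α, β, hT, hα, hβ, h4⟩ := hπ.one
      have h5 : C.act α y ∈ C.gr T (l - n) := act_deg hα hy (by rw [hd]; norm_num)
      rw [C.act_comp, h4, C.act_comp, zero_of_top h5 (by rw [hT]; omega), TheoryData.act_map_zero,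
        TheoryData.act_map_zero]
    by_cases hi2 : i = 2
    · subst hi2
      obtain rfl : n = -1 := by omega
      obtain ⟨e, he, h5⟩ := weight_two_divisor hS hπ (b := b) (by simpa using hb)
      rw [h5]
      exact act_ext_zero_of_lt (i := 1 + (l - -1)) (C.mul_mem he hy) (by rw [hd]; omega)
    by_cases hi4 : i = 4
    · subst hi4
      by_cases hn2 : n = -2
      · omega
      · omega
    by_cases hi3 : i = 3
    · omega
    · rw [hπ.out (by omega), zero_comp, TheoryData.act_zero]
  have h2 := h1 hx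
  rw [LinearMap.mem_ker, LinearMap.flip_apply, actB_apply] at h2
  exact h2

/-- Everything which factors through surfaces is a sum of parts of the various weights. -/
lemma through_le (hS : SurfaceProperties H) (X : 𝒱.Obj) :
    throughSurfaces C X ≤ ⨆ w, wt H X w := by
  unfold throughSurfaces
  rw [Submodule.span_le]
  rintro _ ⟨S, n, a, b, hd, ha, hb, rfl⟩
  obtain ⟨π, hπ, -⟩ := hS.murre S hd
  have h1 : C.comp a b = ∑ i ∈ Finset.range (2 * S.dim + 1), C.comp a (C.comp (π i) b) := by
    rw [← comp_sum, ← sum_comp, hπ.ck.sum, dg_comp]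
  rw [h1]
  apply Submodule.sum_mem
  intro i _
  apply Submodule.mem_iSup_of_mem ((i : ℤ) + 2 * n)
  apply Submodule.subset_span
  exact ⟨S, π, i, n, a, b, hπ, rfl, ha, hb, rfl⟩

end Pool.Agent.X308.S
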