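import Pool.Agent.X308.S.Shift
import Pool.Agent.X308.S.Good

/-!
# Normal forms of the correspondences of pure weight, and Murre's conjecture (B) for products
-/

set_option autoImplicit false

open CategoryTheory AlgebraicGeometry

universe u v w

namespace Pool.Agent.X308.S

open Pool.Agent.H914 Pool.Agent.H914.VarClass Pool.Agent.H914.VarClass.Obj Pool.Agent.W492.BB
  Pool.Agent.W550.Corr Pool.Agent.TH133 Pool.Agent.Y148.BB

set_option linter.unusedSectionVars false

variable {k : Type u} [Field k] {𝒱 : VarClass k}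

/-- Normal forms: external products, and compositions through varieties `W` with effective twists. -/
def nrmGen (C : TheoryData.{u, v, 0} 𝒱 ℚ) (X : 𝒱.Obj) (w : ℤ) : Set (C.A (X.prod X)) :=
  {z | (∃ (m : ℤ) (a b : C.A X), 2 * m = w ∧ 0 ≤ m ∧ m ≤ X.dim ∧ C.Deg ((X.dim : ℤ) - m) a ∧
      C.Deg m b ∧ z = C.ext a b) ∨
    ∃ (W : 𝒱.Obj) (m : ℤ) (a : C.A (X.prod W)) (b : C.A (W.prod X)), (W.dim : ℤ) + 2 * m = w ∧
      0 ≤ m ∧ m ≤ (X.dim : ℤ) - W.dim ∧ C.Deg ((X.dim : ℤ) - m) a ∧ C.Deg ((W.dim : ℤ) + m) b ∧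
      z = C.comp a b}

variable {C : TheoryData.{u, v, 0} 𝒱 ℚ} {K : Type w}
  [Field K] [hC : IsChowProj C]
  {H : WeilTheoryData.{u, v, w} C K} [hH : IsWeilProj H] {S S' T X Y Z W : 𝒱.Obj}

include hC

lemma nrm_ext {m w : ℤ} {a b : C.A X} (h1 : 2 * m = w) (h2 : 0 ≤ m) (h3 : m ≤ X.dim)
    (ha : a ∈ C.gr X ((X.dim : ℤ) - m)) (hb : b ∈ C.gr X m) :
    C.ext a b ∈ Submodule.span ℚ (nrmGen C X w) :=
  Submodule.subset_span (Or.inl ⟨m, a, b, h1, h2, h3, ha, hb, rfl⟩)

lemma nrm_comp {m w : ℤ} {a : C.A (X.prod W)} {b : C.A (W.prod X)}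
    (h1 : (W.dim : ℤ) + 2 * m = w) (h2 : 0 ≤ m) (h3 : m ≤ (X.dim : ℤ) - W.dim)
    (ha : a ∈ C.gr (X.prod W) ((X.dim : ℤ) - m)) (hb : b ∈ C.gr (W.prod X) ((W.dim : ℤ) + m)) :
    C.comp a b ∈ Submodule.span ℚ (nrmGen C X w) :=
  Submodule.subset_span (Or.inr ⟨W, m, a, b, h1, h2, h3, ha, hb, rfl⟩)

/-- Correspondences do not lower the weights too much: normal forms. -/
lemma nrm_drop {s w w' : ℤ} (hw : w' < w + s - X.dim) {D : C.A (X.prod Y)}
    (hD : D ∈ C.gr (X.prod Y) (X.dim + s)) {z : C.A (X.prod X)} (hz : z ∈ nrmGen C X w)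
    {z' : C.A (Y.prod Y)} (hz' : z' ∈ nrmGen C Y w') : C.comp (C.comp z D) z' = 0 := by
  rcases hz with ⟨m, a, b, h1, h2, h3, ha, hb, rfl⟩ | ⟨W, m, a, b, h1, h2, h3, ha, hb, rfl⟩
  · rcases hz' with ⟨m', a', b', h1', h2', h3', ha', hb', rfl⟩ |
      ⟨W', m', a', b', h1', h2', h3', ha', hb', rfl⟩
    · rw [ext_comp, ext_comp]
      have h4 : C.act D b ∈ C.gr Y (m + s) := act_deg hD hb (by ring)
      by_cases h5 : m + s = m'
      · have h6 : D = 0 := zero_of_neg hD (by omega)
        rw [h6, TheoryData.act_zero, TheoryData.act_map_zero, TheoryData.ext_zero_right]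
      · rw [act_ext_zero_of_lt (i := (Y.dim : ℤ) - m' + (m + s)) (C.mul_mem ha' h4) (by omega),
          TheoryData.ext_zero_right]
    · rw [ext_comp, ← comp_assoc, ext_comp]
      have h4 : C.act D b ∈ C.gr Y (m + s) := act_deg hD hb (by ring)
      have h5 : C.act a' (C.act D b) ∈ C.gr W' (m + s - m') := act_deg ha' h4 (by ring)
      rw [zero_of_top h5 (by omega), TheoryData.ext_zero_right, zero_comp]
  · rcases hz' with ⟨m', a', b', h1', h2', h3', ha', hb', rfl⟩ |
      ⟨W', m', a', b', h1', h2', h3', ha', hb', rfl⟩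
    · rw [comp_assoc, comp_assoc, comp_ext, comp_ext]
      have h4 : C.act (tp C D) a' ∈ C.gr X (X.dim + s - m') :=
        act_deg (tp_mem C hD) ha' (by ring)
      have h5 : C.act (tp C b) (C.act (tp C D) a') ∈ C.gr W ((W.dim : ℤ) + m + s - m') :=
        act_deg (tp_mem C hb) h4 (by ring)
      rw [zero_of_top h5 (by omega), TheoryData.ext_zero_left, comp_zero]
    · have e1 : C.comp (C.comp (C.comp a b) D) (C.comp a' b') =
          C.comp a (C.comp (C.comp b (C.comp D a')) b') := by simp only [comp_assoc]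
      have h4 : C.comp b (C.comp D a') ∈ C.gr (W.prod W') ((W.dim : ℤ) + m + s - m') :=
        comp_deg hb (comp_deg hD ha' (j := (X.dim : ℤ) + s - m') (by ring)) (by ring)
      rw [e1, zero_of_top h4 (by rw [dim_prod]; push_cast; omega), zero_comp, comp_zero]

include hH

/-- Normal forms of the correspondences of pure weight. -/
lemma wt_normal (hS : SurfaceProperties H) {w : ℤ} (hw0 : 0 ≤ w) (hw1 : w ≤ 2 * X.dim) :
    wt H X w ≤ Submodule.span ℚ (nrmGen C X w) := by
  unfold wt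
  rw [Submodule.span_le]
  rintro _ ⟨S, π, i, n, a, b, hπ, hw, ha, hb, rfl⟩
  rw [SetLike.mem_coe]
  have hd := hπ.dim
  by_cases hi : 4 < i
  · rw [hπ.out hi, zero_comp, comp_zero]
    exact Submodule.zero_mem _
  interval_cases i
  · -- `h^0`
    obtain ⟨x, hx, h⟩ := hπ.zero
    rw [h, ext_comp, comp_ext]
    refine nrm_ext (m := n) (by push_cast at hw; omega) (by push_cast at hw; omega)
      (by push_cast at hw; omega) (act_deg (tp_mem C ha) hx (by rw [hd]; push_cast; ring))
      (act_deg hb (C.one_mem S) (by rw [hd]; push_cast; ring))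
  · -- `h^1`
    obtain ⟨T, α, β, hT, hα, hβ, h⟩ := hπ.one
    have e1 : C.comp a (C.comp (π 1) b) = C.comp (C.comp a α) (C.comp β b) := by
      rw [h]; simp only [comp_assoc]
    rw [e1]
    refine nrm_comp (m := n) (by rw [hT]; push_cast at hw ⊢; omega) (by push_cast at hw; omega)
      (by rw [hT]; push_cast at hw ⊢; omega)
      (comp_deg ha hα (by rw [hd]; push_cast; ring))
      (comp_deg hβ hb (by rw [hd, hT]; push_cast; ring))
  · -- `h^2`
    by_cases hn : n = -1
    · subst hn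
      obtain ⟨e, he, h⟩ := weight_two_divisor hS hπ (b := b) (by
        have := hb
        rwa [show (2 : ℤ) + -1 = 1 by norm_num] at this)
      rw [h, comp_ext]
      exact nrm_ext (m := 0) (by push_cast at hw; omega) le_rfl (by omega)
        (act_deg (tp_mem C ha) he (by rw [hd]; push_cast; ring)) (C.one_mem X)
    by_cases hn' : n = (X.dim : ℤ) - 1
    · obtain ⟨e, he, h⟩ := weight_two_divisor hS hπ.dual (b := tp C a) (tp_mem C (by
        have := ha
        rwa [show (X.dim : ℤ) - n = 1 by omega] at this))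
      have h2 : C.comp a (π 2) = C.ext 1 e := by
        have h3 : tp C (C.comp a (π 2)) = C.ext e 1 := by
          rw [tp_comp', hπ.tp_eq (by omega)]
          exact h
        rw [← tp_tp C (C.comp a (π 2)), h3, tp_ext]
      rw [← comp_assoc, h2, ext_comp]
      refine nrm_ext (m := X.dim) (by push_cast at hw; omega) (by omega) le_rfl ?_
        (act_deg hb he (by rw [hd]; push_cast; omega))
      rw [sub_self]
      exact C.one_mem X
    rw [← comp_assoc]
    refine nrm_comp (m := n) (by rw [hd]; push_cast at hw ⊢; omega) (by push_cast at hw; omega)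
      (by rw [hd]; push_cast at hw ⊢; omega)
      (comp_deg ha (hπ.mem 2) (by rw [hd]; push_cast; ring))
      (by rw [hd]; exact_mod_cast hb)
  · -- `h^3`
    obtain ⟨T, α, β, hT, hα, hβ, h⟩ := hπ.three
    have e1 : C.comp a (C.comp (π 3) b) = C.comp (C.comp a α) (C.comp β b) := by
      rw [h]; simp only [comp_assoc]
    rw [e1]
    refine nrm_comp (m := n + 1) (by rw [hT]; push_cast at hw ⊢; omega)
      (by push_cast at hw; omega) (by rw [hT]; push_cast at hw ⊢; omega)
      (comp_deg ha hα (by rw [hd]; push_cast; ring))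
      (comp_deg hβ hb (by rw [hd, hT]; push_cast; ring))
  · -- `h^4`
    obtain ⟨x, hx, h⟩ := hπ.four
    rw [h, ext_comp, comp_ext]
    refine nrm_ext (m := n + 2) (by push_cast at hw; omega) (by push_cast at hw; omega)
      (by push_cast at hw; omega)
      (act_deg (tp_mem C ha) (C.one_mem S) (by rw [hd]; push_cast; ring))
      (act_deg hb hx (by rw [hd]; push_cast; ring))

/-- Correspondences do not lower the weights too much. -/
lemma wt_drop (hS : SurfaceProperties H) {s w w' : ℤ} (hw : w' < w + s - X.dim)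
    {D : C.A (X.prod Y)} (hD : D ∈ C.gr (X.prod Y) (X.dim + s)) {z : C.A (X.prod X)}
    (hz : z ∈ wt H X w) {z' : C.A (Y.prod Y)} (hz' : z' ∈ wt H Y w') :
    C.comp (C.comp z D) z' = 0 := by
  rcases lt_or_ge w 0 with h1 | h1
  · rw [wt_neg hS h1 hz, zero_comp, zero_comp]
  rcases lt_or_ge (2 * (X.dim : ℤ)) w with h2 | h2
  · rw [wt_big hS h2 hz, zero_comp, zero_comp]
  rcases lt_or_ge w' 0 with h3 | h3
  · rw [wt_neg hS h3 hz', comp_zero]
  rcases lt_or_ge (2 * (Y.dim : ℤ)) w' with h4 | h4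
  · rw [wt_big hS h4 hz', comp_zero]
  have hz1 := wt_normal hS h1 h2 hz
  have hz1' := wt_normal hS h3 h4 hz'
  have key : ∀ z' ∈ nrmGen C Y w', Submodule.span ℚ (nrmGen C X w) ≤
      LinearMap.ker ((LinearMap.flip (compL C) z') ∘ₗ (LinearMap.flip (compL C) D)) := by
    intro z' hz'
    rw [Submodule.span_le]
    intro z hz
    rw [SetLike.mem_coe, LinearMap.mem_ker]
    exact nrm_drop hw hD hz hz'
  have key2 : Submodule.span ℚ (nrmGen C Y w') ≤ LinearMap.ker (compL C (C.comp z D)) := by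
    rw [Submodule.span_le]
    intro z' hz'
    rw [SetLike.mem_coe, LinearMap.mem_ker]
    exact LinearMap.mem_ker.1 (key z' hz' hz1)
  exact LinearMap.mem_ker.1 (key2 hz1')

variable {π : ℕ → C.A (X.prod X)} {ρ : ℕ → C.A (Y.prod Y)}

/-- Murre's conjecture (B) for the product decomposition. -/
theorem B_prod (hS : SurfaceProperties H) (h : IsCK H X π) (hw : ∀ w : ℕ, π w ∈ wt H X w)
    (h' : IsCK H Y ρ) (hw' : ∀ w : ℕ, ρ w ∈ wt H Y w) (l : ℕ) :
    ckFil C (prodCK C π ρ) l 0 = C.gr (X.prod Y) l ∧ ckFil C (prodCK C π ρ) l (l + 1) = ⊥ := by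
  have hP := h.prod h'
  have hdeg : ∀ z ∈ C.gr (X.prod Y) l, z ∈ C.gr (X.prod Y) (X.dim + ((l : ℤ) - X.dim)) := by
    intro z hz
    rwa [show (X.dim : ℤ) + ((l : ℤ) - X.dim) = l by ring]
  have htp : ∀ i : ℕ, tp C (π i) ∈ wt H X (2 * X.dim - i) := fun i => wt_tp (hw i) (by ring)
  constructor
  · ext z
    rw [hP.mem_ckFil]
    refine ⟨fun h => h.1, fun hz => ⟨hz, fun n hn => ?_⟩⟩
    unfold prodCK
    rw [act_sum]
    apply Finset.sum_eq_zero
    intro i hi
    rw [Finset.mem_range] at hi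
    rw [act_tens C (ch_comm C)]
    exact wt_raise hS (s := (l : ℤ) - X.dim) (w := 2 * X.dim - i) (w' := ((n - i : ℕ) : ℤ))
      (by omega) (hdeg z hz) (htp i) (hw' _)
  · rw [eq_bot_iff]
    intro z hz
    rw [hP.mem_ckFil] at hz
    rw [Submodule.mem_bot]
    have h1 : z = ∑ j ∈ Finset.range (2 * (X.prod Y).dim + 1), C.act (prodCK C π ρ j) z := by
      rw [← act_sum, hP.sum, act_dg]
    rw [h1]
    apply Finset.sum_eq_zero
    intro j _
    by_cases hj : l ≤ j
    · exact hz.2 j (by omega)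
    unfold prodCK
    rw [act_sum]
    apply Finset.sum_eq_zero
    intro i hi
    rw [Finset.mem_range] at hi
    rw [act_tens C (ch_comm C)]
    exact wt_drop hS (s := (l : ℤ) - X.dim) (w := 2 * X.dim - i) (w' := ((j - i : ℕ) : ℤ))
      (by omega) (hdeg z hz.1) (htp i) (hw' _)

end Pool.Agent.X308.S
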