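import Pool.Agent.X308.S.Defs

/-!
# Products of Chow-Kunneth decompositions: definition
-/

set_option autoImplicit false

open CategoryTheory AlgebraicGeometry

universe u v w

namespace Pool.Agent.X308.S

open Pool.Agent.H914 Pool.Agent.H914.VarClass Pool.Agent.H914.VarClass.Obj Pool.Agent.W492.BB
  Pool.Agent.W550.Corr Pool.Agent.TH133

variable {k : Type u} [Field k] {𝒱 : VarClass k}

/-- The product of the families `π` of self-correspondences of `X` and `ρ` of `Z`: in degree `n` it
is the sum of the external products `π i × ρ j`, `i + j = n` (as correspondences from `X × Z` to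
`X × Z`). -/
noncomputable def prodDec (C : TheoryData.{u, v, 0} 𝒱 ℚ) {X Z : 𝒱.Obj}
    (π : ℕ → C.A (X.prod X)) (ρ : ℕ → C.A (Z.prod Z)) (n : ℕ) :
    C.A ((X.prod Z).prod (X.prod Z)) :=
  ∑ i ∈ Finset.range (n + 1), C.mul (C.up (prodMap (fst X Z) (fst X Z)) (π i))
    (C.up (prodMap (snd X Z) (snd X Z)) (ρ (n - i)))

end Pool.Agent.X308.S
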