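import Pool.Agent.X308.S.Normal
import Pool.Agent.X308.S.ProdDefs

/-!
# Murre's conjecture (B) for products: main theorem
-/

set_option autoImplicit false

open CategoryTheory AlgebraicGeometry

universe u v w

namespace Pool.Agent.X308.S

open Pool.Agent.H914 Pool.Agent.H914.VarClass Pool.Agent.H914.VarClass.Obj Pool.Agent.W492.BB
  Pool.Agent.W550.Corr Pool.Agent.TH133

variable {k : Type u} [Field k] {𝒱 : VarClass k} {C : TheoryData.{u, v, 0} 𝒱 ℚ} {K : Type w}
  [Field K] [hC : IsChowProj C]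
  {H : WeilTheoryData.{u, v, w} C K} [hH : IsWeilProj H] {X Y : 𝒱.Obj}

omit hC in
lemma prodDec_eq (π : ℕ → C.A (X.prod X)) (ρ : ℕ → C.A (Y.prod Y)) :
    prodDec C π ρ = prodCK C π ρ := rfl

include hC hH

/-- Murre's conjecture (B) for products of two varieties of surface type. -/
theorem exists_prod_B (hS : SurfaceProperties H) (hX : dg C X ∈ throughSurfaces C X)
    (hY : dg C Y ∈ throughSurfaces C Y) :
    ∃ (π : ℕ → C.A (X.prod X)) (ρ : ℕ → C.A (Y.prod Y)), IsCK H X π ∧ IsCK H Y ρ ∧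
      IsCK H (X.prod Y) (prodDec C π ρ) ∧
      ∀ l : ℕ, ckFil C (prodDec C π ρ) l 0 = C.gr (X.prod Y) l ∧
        ckFil C (prodDec C π ρ) l (l + 1) = ⊥ := by
  obtain ⟨π, h1, -, h3⟩ := exists_selfDual_CK (H := H) hS hX
  obtain ⟨ρ, h1', -, h3'⟩ := exists_selfDual_CK (H := H) hS hY
  simp only [prodDec_eq]
  exact ⟨π, ρ, h1, h1', h1.prod h1', B_prod hS h1 h3 h1' h3'⟩

end Pool.Agent.X308.S
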