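import Pool.Agent.X308.S.ProdDDefs
import Pool.Agent.X308.S.Normal
import Pool.Agent.X308.S.ProdB
import Pool.Agent.X308.S.Even

/-!
# Murre's conjecture (D) for products
-/

set_option autoImplicit false

open CategoryTheory AlgebraicGeometry

universe u v w

namespace Pool.Agent.X308.S

open Pool.Agent.H914 Pool.Agent.H914.VarClass Pool.Agent.H914.VarClass.Obj Pool.Agent.W492.BB
  Pool.Agent.W550.Corr Pool.Agent.TH133 Pool.Agent.Y148.BB

set_option linter.unusedSectionVars false

variable {k : Type u} [Field k] {𝒱 : VarClass k} {C : TheoryData.{u, v, 0} 𝒱 ℚ} {K : Type w}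
  [Field K] [hC : IsChowProj C]
  {H : WeilTheoryData.{u, v, w} C K} [hH : IsWeilProj H] {S S' T X Y Z W : 𝒱.Obj}

include hC hH

variable {π : ℕ → C.A (S.prod S)} {ρ : ℕ → C.A (S'.prod S')}

lemma IsMurreCK.wt_mem (h : IsMurreCK H S π) (i : ℕ) : π i ∈ wt H S i := by
  apply Submodule.subset_span
  refine ⟨S, π, i, 0, dg C S, dg C S, h, by ring, ?_, ?_, ?_⟩
  · have := dg_mem C S
    simpa using this
  · have := dg_mem C S
    rw [h.dim] at this
    simpa using this
  · rw [comp_dg, dg_comp]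

/-- Divisor pairs. -/
def extGen (C : TheoryData.{u, v, 0} 𝒱 ℚ) (S S' : 𝒱.Obj) : Set (C.A (S.prod S')) :=
  {z | ∃ (e : C.A S) (e' : C.A S'), C.Deg 1 e ∧ C.Deg 1 e' ∧ z = C.ext e e'}

/-- The middle entries of degenerate correspondences are sums of products of divisors. -/
lemma middle_of_degenerate (hS : SurfaceProperties H) (h : IsMurreCK H S π)
    (h' : IsMurreCK H S' ρ) {γ : C.A (S.prod S')} (hγ : γ ∈ throughCurves C S S') :
    C.comp (C.comp (π 2) γ) (ρ 2) ∈ Submodule.span ℚ (extGen C S S') := by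
  have hd := h.dim
  have hd' := h'.dim
  have key : throughCurves C S S' ≤ (Submodule.span ℚ (extGen C S S')).comap
      ((LinearMap.flip (compL C) (ρ 2)) ∘ₗ (compL C (π 2))) := by
    unfold throughCurves
    rw [Submodule.span_le]
    rintro _ ⟨T, n, a, b, hT, ha, hb, rfl⟩
    rw [SetLike.mem_coe, Submodule.mem_comap]
    change C.comp (C.comp (π 2) (C.comp a b)) (ρ 2) ∈ _
    have e1 : C.comp (C.comp (π 2) (C.comp a b)) (ρ 2) =
        C.comp (C.comp (π 2) a) (C.comp b (ρ 2)) := by simp only [comp_assoc]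
    rw [e1]
    rcases lt_or_ge n 0 with hn | hn
    · rw [zero_of_neg ha hn, comp_zero, zero_comp]
      exact Submodule.zero_mem _
    rcases lt_or_ge 3 n with hn3 | hn3
    · rw [zero_of_neg hb (by omega), zero_comp, comp_zero]
      exact Submodule.zero_mem _
    have hb2 : C.comp b (ρ 2) ∈ C.gr (T.prod S') (3 - n) :=
      comp_deg hb (h'.mem 2) (by rw [hd']; push_cast; ring)
    have ha2 : C.comp (π 2) a ∈ C.gr (S.prod T) n :=
      comp_deg (h.mem 2) ha (by rw [hd]; push_cast; ring)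
    have hcase : n = 0 ∨ n = 1 ∨ n = 2 ∨ n = 3 := by omega
    rcases hcase with rfl | rfl | rfl | rfl
    · -- `a ∈ CH^0`
      obtain ⟨q, hq⟩ := corr_zero (C := C) ha
      rw [hq, comp_smul, comp_ext, h.act_tp_one (by omega), TheoryData.ext_zero_left, smul_zero,
        zero_comp]
      exact Submodule.zero_mem _
    · obtain ⟨e, he, h1⟩ := weight_two_divisor hS h (b := a) ha
      rw [h1, ext_comp]
      apply Submodule.subset_span
      exact ⟨e, _, he, act_deg hb2 (C.one_mem T) (by rw [hT]; norm_num), rfl⟩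
    · obtain ⟨e, he, h1⟩ := weight_two_divisor hS h'.dual (b := tp C b) (tp_mem C (by
        have := hb
        rwa [show (3 : ℤ) - 2 = 1 by norm_num] at this))
      have h2 : C.comp b (ρ 2) = C.ext 1 e := by
        have h3 : tp C (C.comp b (ρ 2)) = C.ext e 1 := by
          rw [tp_comp', h'.tp_eq (by omega)]
          exact h1
        rw [← tp_tp C (C.comp b (ρ 2)), h3, tp_ext]
      rw [h2, comp_ext]
      apply Submodule.subset_span
      exact ⟨_, e, act_deg (tp_mem C ha2) (C.one_mem T) (by rw [hT]; norm_num), he, rfl⟩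
    · obtain ⟨q, hq⟩ := corr_zero (C := C) (D := b) (by
        have := hb
        rwa [show (3 : ℤ) - 3 = 0 by norm_num] at this)
      rw [hq, smul_comp, ext_comp, h'.act_one (by omega), TheoryData.ext_zero_right, smul_zero,
        comp_zero]
      exact Submodule.zero_mem _
  exact key hγ

/-- A homologically trivial sum of products of divisors which only sees `H^2` is zero. -/
lemma zero_of_ext_sum (hS : SurfaceProperties H) (hN : DivisorsNumerical H) (h : IsMurreCK H S π)
    (h' : IsMurreCK H S' ρ) {E : C.A (S.prod S')} (hE : H.cl E = 0)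
    (hE1 : C.comp (π 2) E = E) (hE2 : C.comp E (ρ 2) = E) :
    ∀ (n : ℕ) (s : Finset ℕ), s.card = n → ∀ (e : ℕ → C.A S) (e' : ℕ → C.A S'),
      (∀ i ∈ s, e i ∈ C.gr S 1) → (∀ i ∈ s, e' i ∈ C.gr S' 1) →
      E = ∑ i ∈ s, C.ext (e i) (e' i) → E = 0 := by
  have hd := h.dim
  have hd' := h'.dim
  intro n
  induction n with
  | zero =>
    intro s hs e e' _ _ h1
    rw [Finset.card_eq_zero] at hs
    rw [h1, hs, Finset.sum_empty]
  | succ n ih =>
    intro s hs e e' he he' h1
    have hdeg : ∀ c : C.A S, c ∈ C.gr S 1 → ∀ i ∈ s, ∃ q, HasDegree C (e i * c) q := by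
      intro c hc i hi
      apply exists_hasDegree
      have := C.mul_mem (he i hi) hc
      rw [hd]
      simpa using this
    have hrel : ∀ (c : C.A S) (q : ℕ → ℚ), c ∈ C.gr S 1 →
        (∀ i ∈ s, HasDegree C (e i * c) (q i)) → ∑ i ∈ s, q i • e' i = 0 := by
      intro c q hc hq
      have h2 : C.act E c = ∑ i ∈ s, q i • e' i := by
        rw [h1, act_sum]
        exact Finset.sum_congr rfl fun i hi => act_ext' (hq i hi)
      have h3 : C.act E c ∈ C.gr S' 1 := by
        rw [h2]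
        exact Submodule.sum_mem _ fun i hi => Submodule.smul_mem _ _ (he' i hi)
      rw [← h2, ← hE2, C.act_comp]
      exact h'.act_pic hS h3 (by rw [cl_act H, hE, TheoryData.act_zero])
    by_cases hnum : ∀ i ∈ s, ∀ c : C.A S, c ∈ C.gr S 1 → HasDegree C (e i * c) 0
    · rw [← hE1, h1, comp_sum_right]
      apply Finset.sum_eq_zero
      intro i hi
      have h2 : H.cl (e i) = 0 := hN S (e i) hd (he i hi) (fun c hc => hnum i hi c hc)
      have h3 : C.act (tp C (π 2)) (e i) = 0 := by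
        rw [h.tp_eq (by omega)]
        exact h.dual.act_pic hS (he i hi) h2
      rw [comp_ext, h3, TheoryData.ext_zero_left]
    · push Not at hnum
      obtain ⟨i₀, hi₀, c, hc, hne⟩ := hnum
      choose! q hq using hdeg c hc
      have hq0 : q i₀ ≠ 0 := by
        intro h2
        exact hne (h2 ▸ hq i₀ hi₀)
      have h2 := hrel c q hc hq
      rw [← Finset.add_sum_erase s _ hi₀] at h2
      have h3 : e' i₀ = ∑ i ∈ s.erase i₀, (-(q i₀)⁻¹ * q i) • e' i := by
        have h4 : q i₀ • e' i₀ = -∑ i ∈ s.erase i₀, q i • e' i := eq_neg_of_add_eq_zero_left h2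
        calc e' i₀ = (q i₀)⁻¹ • (q i₀ • e' i₀) := by
              rw [← mul_smul, inv_mul_cancel₀ hq0, one_smul]
          _ = _ := by
              rw [h4, smul_neg, Finset.smul_sum, ← Finset.sum_neg_distrib]
              refine Finset.sum_congr rfl fun i _ => ?_
              rw [← mul_smul, neg_mul, neg_smul]
      have hadd : ∀ (x y : C.A S) (z : C.A S'), C.ext (x + y) z = C.ext x z + C.ext y z := by
        intro x y z
        rw [TheoryData.ext, map_add, add_mul]
        rfl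
      have hsm : ∀ (r : ℚ) (x : C.A S) (z : C.A S'), C.ext x (r • z) = C.ext (r • x) z := by
        intro r x z
        rw [TheoryData.ext, TheoryData.ext, map_smul, map_smul, smul_mul_assoc, mul_smul_comm]
      have hsum : ∀ (x : C.A S) (t : Finset ℕ) (f : ℕ → C.A S'),
          C.ext x (∑ i ∈ t, f i) = ∑ i ∈ t, C.ext x (f i) := by
        intro x t f
        rw [TheoryData.ext, map_sum, Finset.mul_sum]
        rfl
      refine ih (s.erase i₀) (by rw [Finset.card_erase_of_mem hi₀, hs]; rfl)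
        (fun i => (-(q i₀)⁻¹ * q i) • e i₀ + e i) e' (fun i hi => ?_)
        (fun i hi => he' i (Finset.mem_of_mem_erase hi)) ?_
      · exact Submodule.add_mem _ (Submodule.smul_mem _ _ (he i₀ hi₀))
          (he i (Finset.mem_of_mem_erase hi))
      · rw [h1, ← Finset.add_sum_erase s _ hi₀]
        conv_lhs => rw [h3, hsum]
        rw [← Finset.sum_add_distrib]
        refine Finset.sum_congr rfl fun i _ => ?_
        rw [hadd, hsm]

lemma two_two (hS : SurfaceProperties H) (hN : DivisorsNumerical H) (hD : TrivialDegenerate H)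
    (h : IsMurreCK H S π) (h' : IsMurreCK H S' ρ) {γ : C.A (S.prod S')}
    (hγ : γ ∈ C.gr (S.prod S') 2) (hcl : H.cl γ = 0) : C.comp (C.comp (π 2) γ) (ρ 2) = 0 := by
  have h1 := middle_of_degenerate hS h h' (hD S S' γ h.dim h'.dim hγ hcl)
  obtain ⟨n, f, g, hfg⟩ := Submodule.mem_span_set'.1 h1
  have hg : ∀ i : Fin n, ∃ (e : C.A S) (e' : C.A S'), C.Deg 1 e ∧ C.Deg 1 e' ∧
      (g i : C.A (S.prod S')) = C.ext e e' := fun i => (g i).2
  choose e e' he he' hee using hg
  have hsm : ∀ (r : ℚ) (x : C.A S) (z : C.A S'), r • C.ext x z = C.ext (r • x) z := by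
    intro r x z
    rw [TheoryData.ext, TheoryData.ext, map_smul, smul_mul_assoc]
  have hcl' : H.cl (C.comp (C.comp (π 2) γ) (ρ 2)) = 0 := by
    rw [cl_comp, cl_comp, hcl, comp_zero, zero_comp]
  refine zero_of_ext_sum hS hN h h' hcl' ?_ ?_ n (Finset.range n) (Finset.card_range n)
    (fun i => if hi : i < n then f ⟨i, hi⟩ • e ⟨i, hi⟩ else 0)
    (fun i => if hi : i < n then e' ⟨i, hi⟩ else 0) ?_ ?_ ?_
  · rw [← comp_assoc, ← comp_assoc, h.ck.idem]
  · rw [comp_assoc, h'.ck.idem]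
  · intro i hi
    rw [Finset.mem_range] at hi
    simp only [hi, dite_true]
    exact Submodule.smul_mem _ _ (he _)
  · intro i hi
    rw [Finset.mem_range] at hi
    simp only [hi, dite_true]
    exact he' _
  · rw [← hfg, Finset.sum_range]
    refine Finset.sum_congr rfl fun i _ => ?_
    simp only [i.2, dite_true, Fin.eta]
    rw [hee, hsm]

/-- Homologically trivial correspondences between the pieces of weight `i` and `i + 2 r` of surfaces
vanish, if homologically trivial correspondences of codimension two are degenerate. -/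
theorem entry_even (hS : SurfaceProperties H) (hN : DivisorsNumerical H)
    (hD : TrivialDegenerate H) (h : IsMurreCK H S π) (h' : IsMurreCK H S' ρ) {r : ℤ}
    {γ : C.A (S.prod S')} (hγ : γ ∈ C.gr (S.prod S') (2 + r)) (hcl : H.cl γ = 0) {i j : ℕ}
    (hi : Even i) (hij : (i : ℤ) + 2 * r = j) : C.comp (C.comp (π i) γ) (ρ j) = 0 := by
  have hd := h.dim
  have hd' := h'.dim
  by_cases hi4 : 4 < i
  · rw [h.out hi4, zero_comp, zero_comp]
  by_cases hj4 : 4 < j
  · rw [h'.out hj4, comp_zero]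
  obtain ⟨m, hm⟩ := hi
  have hi3 : i = 0 ∨ i = 2 ∨ i = 4 := by omega
  rcases hi3 with rfl | rfl | rfl
  · obtain ⟨x, hx, h1⟩ := h.zero
    have h2 : C.act γ 1 ∈ C.gr S' r := act_deg hγ (C.one_mem S) (by rw [hd]; push_cast; ring)
    rw [h1, ext_comp, ext_comp, wt_D hS (w := j) (l := r) (by push_cast at hij; omega)
      (h'.wt_mem j) h2 (by rw [cl_act H, hcl, TheoryData.act_zero]), TheoryData.ext_zero_right]
  · have hj3 : j = 0 ∨ j = 2 ∨ j = 4 := by omega
    rcases hj3 with rfl | rfl | rfl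
    · obtain ⟨x, hx, h1⟩ := h'.zero
      have h2 : C.act (tp C γ) x ∈ C.gr S 1 := act_deg (tp_mem C hγ) hx
        (by rw [hd']; push_cast at hij ⊢; omega)
      rw [h1, comp_assoc, comp_ext, comp_ext, h.tp_eq (by omega),
        h.dual.act_pic hS h2 (by rw [cl_act H, cl_tp, hcl, tp_zero, TheoryData.act_zero]),
        TheoryData.ext_zero_left]
    · obtain rfl : r = 0 := by push_cast at hij; omega
      exact two_two hS hN hD h h' (by simpa using hγ) hcl
    · obtain ⟨x, hx, h1⟩ := h'.four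
      have h2 : C.act (tp C γ) 1 ∈ C.gr S 1 := act_deg (tp_mem C hγ) (C.one_mem S')
        (by rw [hd']; push_cast at hij ⊢; omega)
      rw [h1, comp_assoc, comp_ext, comp_ext, h.tp_eq (by omega),
        h.dual.act_pic hS h2 (by rw [cl_act H, cl_tp, hcl, tp_zero, TheoryData.act_zero]),
        TheoryData.ext_zero_left]
  · obtain ⟨x, hx, h1⟩ := h.four
    have h2 : C.act γ x ∈ C.gr S' (2 + r) := act_deg hγ hx (by rw [hd]; push_cast; ring)
    rw [h1, ext_comp, ext_comp, wt_D hS (w := j) (l := 2 + r) (by push_cast at hij; omega)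
      (h'.wt_mem j) h2 (by rw [cl_act H, hcl, TheoryData.act_zero]), TheoryData.ext_zero_right]

/-- Homologically trivial correspondences between pieces of weights `w` and `w + 2 s` vanish. -/
lemma wt_trivial_zero (hS : SurfaceProperties H) (hN : DivisorsNumerical H)
    (hDe : TrivialDegenerate H) {s w w' : ℤ} (hw : w + 2 * s = w')
    {D : C.A (X.prod Y)} (hD : D ∈ C.gr (X.prod Y) (X.dim + s)) (hcl : H.cl D = 0)
    {z : C.A (X.prod X)} (hz : z ∈ wt H X w) {z' : C.A (Y.prod Y)} (hz' : z' ∈ wt H Y w') :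
    C.comp (C.comp z D) z' = 0 := by
  have h1 := wt_bilin (H := H) D ⊥ ?_ hz hz'
  · exact (Submodule.mem_bot _).1 h1
  rintro _ ⟨S, π, i, n, a, b, hπ, hw1, ha, hb, rfl⟩ _ ⟨S', ρ, j, n', a', b', hρ, hw2, ha', hb', rfl⟩
  rw [Submodule.mem_bot, comp_six]
  have h3 : C.comp b (C.comp D a') ∈ C.gr (S.prod S') (2 + (n - n' + s)) :=
    comp_deg hb (comp_deg hD ha' rfl) (by ring)
  have h4 : H.cl (C.comp b (C.comp D a')) = 0 := by
    rw [cl_comp, cl_comp, hcl, zero_comp, comp_zero]
  rcases Nat.even_or_odd i with h5 | h5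
  · rw [entry_even hS hN hDe hπ hρ h3 h4 h5 (by omega), zero_comp, comp_zero]
  · rw [hπ.key_odd hS hρ h3 h4 h5 (by omega), zero_comp, comp_zero]

omit hH in
lemma ext_mem_curves {T₁ : 𝒱.Obj} (hT : T₁.dim = 1) (hd : S.dim = 2) {i : ℤ} {y : C.A S}
    {x : C.A S'} (hy : y ∈ C.gr S i) (hx : x ∈ C.gr S' (2 - i)) (hi : i = 0 ∨ i = 2) :
    C.ext y x ∈ throughCurves C S S' := by
  obtain ⟨o, ho, ho1, ho2⟩ := hC.exists_deg_one T₁
  have hod : HasDegree C o 1 := fun Y => by rw [one_smul]; exact ⟨ho2 Y, ho1 Y⟩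
  apply Submodule.subset_span
  rcases hi with rfl | rfl
  · refine ⟨T₁, 1, C.ext y o, C.ext 1 x, hT, ?_, ?_, ?_⟩
    · have := ext_mem' (C := C) hy ho
      rw [hT] at this
      simpa using this
    · have := ext_mem' (C := C) (C.one_mem T₁) hx
      rwa [show (0 : ℤ) + (2 - 0) = 3 - 1 by norm_num] at this
    · rw [comp_ext_ext (q := 1) (by rwa [mul_one]), one_smul]
  · refine ⟨T₁, 2, C.ext y 1, C.ext o x, hT, ?_, ?_, ?_⟩
    · have := ext_mem' (C := C) hy (C.one_mem T₁)
      rwa [add_zero] at this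
    · have := ext_mem' (C := C) ho hx
      rw [hT] at this
      rwa [show ((1 : ℕ) : ℤ) + (2 - 2) = 3 - 2 by norm_num] at this
    · rw [comp_ext_ext (q := 1) (by rwa [one_mul]), one_smul]

lemma left_mem_curves (h : IsMurreCK H S π) (hd' : S'.dim = 2) {a : ℕ} (ha : a ≠ 2)
    {Γ : C.A (S.prod S')} (hΓ : Γ ∈ C.gr (S.prod S') 2) :
    C.comp (π a) Γ ∈ throughCurves C S S' := by
  have hd := h.dim
  obtain ⟨T₁, -, -, hT₁, -⟩ := h.one
  by_cases ha4 : 4 < a
  · rw [h.out ha4, zero_comp]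
    exact Submodule.zero_mem _
  interval_cases a
  · obtain ⟨x, hx, h1⟩ := h.zero
    rw [h1, ext_comp]
    exact ext_mem_curves hT₁ hd hx (act_deg hΓ (C.one_mem S) (by rw [hd]; norm_num)) (Or.inr rfl)
  · obtain ⟨T, α, β, hT, hα, hβ, h1⟩ := h.one
    rw [h1, comp_assoc]
    apply Submodule.subset_span
    exact ⟨T, 2, α, C.comp β Γ, hT, hα, comp_deg hβ hΓ (by rw [hd]; norm_num), rfl⟩
  · exact absurd rfl ha
  · obtain ⟨T, α, β, hT, hα, hβ, h1⟩ := h.three
    rw [h1, comp_assoc]
    apply Submodule.subset_span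
    exact ⟨T, 1, α, C.comp β Γ, hT, hα, comp_deg hβ hΓ (by rw [hd]; norm_num), rfl⟩
  · obtain ⟨x, hx, h1⟩ := h.four
    rw [h1, ext_comp]
    exact ext_mem_curves hT₁ hd (C.one_mem S) (act_deg hΓ hx (by rw [hd]; norm_num)) (Or.inl rfl)

lemma right_mem_curves (h : IsMurreCK H S' ρ) (hd' : S.dim = 2) {a : ℕ} (ha : a ≠ 2)
    {Γ : C.A (S.prod S')} (hΓ : Γ ∈ C.gr (S.prod S') 2) :
    C.comp Γ (ρ a) ∈ throughCurves C S S' := by
  have hd := h.dim
  obtain ⟨T₁, -, -, hT₁, -⟩ := h.one
  by_cases ha4 : 4 < a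
  · rw [h.out ha4, comp_zero]
    exact Submodule.zero_mem _
  interval_cases a
  · obtain ⟨x, hx, h1⟩ := h.zero
    rw [h1, comp_ext]
    exact ext_mem_curves hT₁ hd' (act_deg (tp_mem C hΓ) hx (by rw [hd]; norm_num))
      (C.one_mem S') (Or.inr rfl)
  · obtain ⟨T, α, β, hT, hα, hβ, h1⟩ := h.one
    rw [h1, ← comp_assoc]
    apply Submodule.subset_span
    exact ⟨T, 2, C.comp Γ α, β, hT, comp_deg hΓ hα (by rw [hd]; norm_num), hβ, rfl⟩
  · exact absurd rfl ha
  · obtain ⟨T, α, β, hT, hα, hβ, h1⟩ := h.three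
    rw [h1, ← comp_assoc]
    apply Submodule.subset_span
    exact ⟨T, 1, C.comp Γ α, β, hT, comp_deg hΓ hα (by rw [hd]; norm_num), hβ, rfl⟩
  · obtain ⟨x, hx, h1⟩ := h.four
    rw [h1, comp_ext]
    exact ext_mem_curves hT₁ hd' (act_deg (tp_mem C hΓ) (C.one_mem S') (by rw [hd]; norm_num))
      hx (Or.inl rfl)

/-- (D) for products of surfaces implies that homologically trivial correspondences are
degenerate. -/
theorem degenerate_of_D (hS : SurfaceProperties H)
    (hD : ∀ (S S' : 𝒱.Obj) (π : ℕ → C.A (S.prod S)) (ρ : ℕ → C.A (S'.prod S')),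
      IsMurreCK H S π → IsMurreCK H S' ρ → DFor H (prodDec C π ρ)) : TrivialDegenerate H := by
  intro S S' Γ hd hd' hΓ hcl
  obtain ⟨π, h, -⟩ := hS.murre S hd
  obtain ⟨ρ, h', -⟩ := hS.murre S' hd'
  have hDD := hD S S' (dualCK C π) ρ h.dual h'
  have h1 := (hDD 2 Γ).2 ⟨by exact_mod_cast hΓ, hcl⟩
  rw [prodDec_eq, (h.dual.ck.prod h'.ck).mem_ckFil] at h1
  have h2 := h1.2 4 (by omega)
  unfold prodCK at h2
  rw [act_sum] at h2
  simp only [act_tens C (ch_comm C)] at h2
  -- the middle entry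
  have htp : ∀ i ≤ 4, tp C (dualCK C π i) = π (4 - i) := by
    intro i hi
    have e : dualCK C π i = tp C (π (4 - i)) := by
      have := h.tp_eq (i := 4 - i) (by omega)
      rw [this]
      congr 1
      omega
    rw [e, tp_tp]
  have h3 : C.comp (C.comp (π 2) Γ) (ρ 2) = 0 := by
    have h4 : C.comp (C.comp (π 2) (∑ i ∈ Finset.range (4 + 1),
        C.comp (C.comp (tp C (dualCK C π i)) Γ) (ρ (4 - i)))) (ρ 2) = 0 := by
      rw [h2, comp_zero, zero_comp]
    rw [comp_sum_right, comp_sum_left, Finset.sum_eq_single 2] at h4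
    · rw [htp 2 (by omega)] at h4
      have e : C.comp (C.comp (π 2) (C.comp (C.comp (π 2) Γ) (ρ 2))) (ρ 2) =
          C.comp (C.comp (π 2) Γ) (ρ 2) := by
        simp only [comp_assoc]
        rw [h'.ck.idem, ← comp_assoc C (π 2) (π 2), h.ck.idem]
      rwa [show (4 : ℕ) - 2 = 2 from rfl, e] at h4
    · intro i hi hi2
      rw [Finset.mem_range] at hi
      rw [htp i (by omega)]
      have e : C.comp (C.comp (π 2) (C.comp (C.comp (π (4 - i)) Γ) (ρ (4 - i)))) (ρ 2) =
          C.comp (C.comp (C.comp (π 2) (π (4 - i))) Γ) (C.comp (ρ (4 - i)) (ρ 2)) := by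
        simp only [comp_assoc]
      rw [e, h.ck.orth 2 (4 - i) (by omega), zero_comp, zero_comp]
    · intro hn
      exact absurd (Finset.mem_range.2 (by norm_num)) hn
  have e1 : Γ = ∑ a ∈ Finset.range 5, C.comp (π a) Γ := by
    rw [← comp_sum_left]
    have := h.ck.sum
    rw [hd] at this
    rw [show (5 : ℕ) = 2 * 2 + 1 from rfl, this, dg_comp]
  have e2 : C.comp (π 2) Γ = ∑ a ∈ Finset.range 5, C.comp (C.comp (π 2) Γ) (ρ a) := by
    rw [← comp_sum_right]
    have := h'.ck.sum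
    rw [hd'] at this
    rw [show (5 : ℕ) = 2 * 2 + 1 from rfl, this, comp_dg]
  rw [e1]
  refine Submodule.sum_mem _ fun a _ => ?_
  by_cases ha : a = 2
  · subst ha
    rw [e2]
    refine Submodule.sum_mem _ fun b _ => ?_
    by_cases hb : b = 2
    · subst hb
      rw [h3]
      exact Submodule.zero_mem _
    · exact right_mem_curves h' hd hb (comp_deg (h.mem 2) hΓ (by rw [hd]; norm_num))
  · exact left_mem_curves h hd' ha hΓ

variable {μ : ℕ → C.A (X.prod X)} {ν : ℕ → C.A (Y.prod Y)}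

/-- (D) for products. -/
theorem D_prod (hS : SurfaceProperties H) (hN : DivisorsNumerical H) (hDe : TrivialDegenerate H)
    (h : IsCK H X μ) (hw : ∀ w : ℕ, μ w ∈ wt H X w) (h' : IsCK H Y ν)
    (hw' : ∀ w : ℕ, ν w ∈ wt H Y w) : DFor H (prodDec C μ ν) := by
  intro l z
  rw [prodDec_eq]
  have hP := h.prod h'
  constructor
  · intro hz
    refine ⟨?_, cl_of_mem_F1 hP hz⟩
    rw [hP.mem_ckFil] at hz
    exact hz.1
  · rintro ⟨hz, hcl⟩
    rw [hP.mem_ckFil]
    refine ⟨hz, fun n hn => ?_⟩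
    have hz' : z ∈ C.gr (X.prod Y) (X.dim + ((l : ℤ) - X.dim)) := by
      rwa [show (X.dim : ℤ) + ((l : ℤ) - X.dim) = l by ring]
    unfold prodCK
    rw [act_sum]
    apply Finset.sum_eq_zero
    intro i hi
    rw [Finset.mem_range] at hi
    rw [act_tens C (ch_comm C)]
    have htp : tp C (μ i) ∈ wt H X (2 * X.dim - i) := wt_tp (hw i) (by ring)
    by_cases hn2 : n = 2 * l
    · exact wt_trivial_zero hS hN hDe (s := (l : ℤ) - X.dim) (w := 2 * X.dim - i)
        (w' := ((n - i : ℕ) : ℤ)) (by omega) hz' hcl htp (hw' _)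
    · exact wt_raise hS (s := (l : ℤ) - X.dim) (w := 2 * X.dim - i) (w' := ((n - i : ℕ) : ℤ))
        (by omega) hz' htp (hw' _)

/-- **Main theorem.** -/
theorem tfae_D (hS : SurfaceProperties H) (hN : DivisorsNumerical H) :
    List.TFAE [TrivialDegenerate H,
      ∀ (S S' : 𝒱.Obj) (π : ℕ → C.A (S.prod S)) (ρ : ℕ → C.A (S'.prod S')),
        IsMurreCK H S π → IsMurreCK H S' ρ → DFor H (prodDec C π ρ),
      ∀ (X Y : 𝒱.Obj) (π : ℕ → C.A (X.prod X)) (ρ : ℕ → C.A (Y.prod Y)),
        IsCK H X π → IsPureDec H π → IsCK H Y ρ → IsPureDec H ρ → DFor H (prodDec C π ρ)] := by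
  tfae_have 1 → 3 := fun h X Y π ρ h1 h2 h3 h4 => D_prod hS hN h h1 h2 h3 h4
  tfae_have 3 → 2 := fun h S S' π ρ h1 h2 =>
    h S S' π ρ h1.ck (fun w => h1.wt_mem w) h2.ck (fun w => h2.wt_mem w)
  tfae_have 2 → 1 := degenerate_of_D hS
  tfae_finish

end Pool.Agent.X308.S
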