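import Pool.Agent.X308.S.ProdDefs

/-!
# Homologically trivial correspondences between surfaces: definitions
-/

set_option autoImplicit false

open CategoryTheory AlgebraicGeometry

universe u v w

namespace Pool.Agent.X308.S

open Pool.Agent.H914 Pool.Agent.H914.VarClass Pool.Agent.H914.VarClass.Obj Pool.Agent.W492.BB
  Pool.Agent.W550.Corr Pool.Agent.TH133

variable {k : Type u} [Field k] {𝒱 : VarClass k} {C : TheoryData.{u, v, 0} 𝒱 ℚ} {K : Type w}
  [Field K] (H : WeilTheoryData.{u, v, w} C K)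

/-- Numerically trivial divisor classes on surfaces are homologically trivial (a known fact). -/
def DivisorsNumerical : Prop :=
  ∀ (S : 𝒱.Obj) (e : C.A S), S.dim = 2 → C.Deg 1 e →
    (∀ c : C.A S, C.Deg 1 c → HasDegree C (C.mul e c) 0) → H.cl e = 0

/-- The correspondences in `CH^2(S × T)`, `S` and `T` surfaces, which are sums of compositions
`S → Y → T` of correspondences through curves `Y` (equivalently, the classes of cycles supported on
`V × T ∪ S × V'` for curves `V`, `V'`). -/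
noncomputable def throughCurves (C : TheoryData.{u, v, 0} 𝒱 ℚ) (S T : 𝒱.Obj) :
    Submodule ℚ (C.A (S.prod T)) :=
  Submodule.span ℚ {z | ∃ (Y : 𝒱.Obj) (n : ℤ) (a : C.A (S.prod Y)) (b : C.A (Y.prod T)),
    Y.dim = 1 ∧ C.Deg n a ∧ C.Deg (3 - n) b ∧ z = C.comp a b}

/-- Homologically trivial correspondences in `CH^2(S × T)` between surfaces are degenerate. -/
def TrivialDegenerate : Prop :=
  ∀ (S T : 𝒱.Obj) (Γ : C.A (S.prod T)), S.dim = 2 → T.dim = 2 → C.Deg 2 Γ → H.cl Γ = 0 →
    Γ ∈ throughCurves C S T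

/-- The decomposition `π` of the diagonal of `X` is of pure weights: `(X, π w)` is a direct summand
of a finite sum of motives `h^i(S)(- n)` with `i + 2 n = w`, where the surfaces `S` are decomposed
as by Murre. -/
def IsPureDec {X : 𝒱.Obj} (π : ℕ → C.A (X.prod X)) : Prop :=
  ∀ w : ℕ, π w ∈ Submodule.span ℚ {z | ∃ (S : 𝒱.Obj) (μ : ℕ → C.A (S.prod S)) (i : ℕ) (n : ℤ)
    (a : C.A (X.prod S)) (b : C.A (S.prod X)), IsMurreCK H S μ ∧ (i : ℤ) + 2 * n = w ∧
      C.Deg ((X.dim : ℤ) - n) a ∧ C.Deg (2 + n) b ∧ z = C.comp a (C.comp (μ i) b)}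

/-- Murre's conjecture (D) for the decomposition `π` of `X`. -/
def DFor {X : 𝒱.Obj} (π : ℕ → C.A (X.prod X)) : Prop :=
  ∀ (l : ℕ) (x : C.A X), x ∈ ckFil C π l 1 ↔ C.Deg l x ∧ H.cl x = 0

end Pool.Agent.X308.S
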