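import Pool.Agent.TH133.Defs

/-!
# Weight-raising correspondences and phantoms: definitions
-/

set_option autoImplicit false

open CategoryTheory AlgebraicGeometry

universe u v w

namespace Pool.Agent.X308.S

open Pool.Agent.H914 Pool.Agent.H914.VarClass Pool.Agent.H914.VarClass.Obj Pool.Agent.W492.BB
  Pool.Agent.W550.Corr Pool.Agent.TH133

variable {k : Type u} [Field k] {𝒱 : VarClass k} {C : TheoryData.{u, v, 0} 𝒱 ℚ} {K : Type w}
  [Field K] (H : WeilTheoryData.{u, v, w} C K)

/-- No self-correspondence of degree zero raises the weights with respect to `π`: every morphism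
from `h^b = (X, π b)` to `h^a = (X, π a)` is zero if `b < a`. -/
def NoRaising (C : TheoryData.{u, v, 0} 𝒱 ℚ) {X : 𝒱.Obj} (π : ℕ → C.A (X.prod X)) : Prop :=
  ∀ γ : C.A (X.prod X), C.Deg X.dim γ → ∀ a b : ℕ, b < a → C.comp (C.comp (π b) γ) (π a) = 0

/-- Homologically trivial idempotent self-correspondences of degree zero of `X` act as zero on the
Chow groups of `X`. -/
def PhantomsActTrivially (X : 𝒱.Obj) : Prop :=
  ∀ p : C.A (X.prod X), C.Deg X.dim p → C.comp p p = p → H.cl p = 0 → ∀ x : C.A X, C.act p x = 0

end Pool.Agent.X308.S
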