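import Pool.Agent.TH133.Murre
import Pool.Agent.X308.S.TriDefs

/-!
# Chow-Kunneth decompositions without weight-raising endomorphisms
-/

set_option autoImplicit false

open CategoryTheory AlgebraicGeometry

universe u v w

namespace Pool.Agent.X308.S

open Pool.Agent.H914 Pool.Agent.H914.VarClass Pool.Agent.H914.VarClass.Obj Pool.Agent.W492.BB
  Pool.Agent.W550.Corr Pool.Agent.TH133

set_option linter.unusedSectionVars false

variable {k : Type u} [Field k] {𝒱 : VarClass k} {C : TheoryData.{u, v, 0} 𝒱 ℚ}
  [hC : IsChowProj C] {K : Type w} [Field K]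
  {H : WeilTheoryData.{u, v, w} C K} [hH : IsWeilProj H] {X Y Z W : 𝒱.Obj}

include hC hH

lemma NoRaising.mul_eq {P : ℕ → Cor C X} (hT : NoRaising C P) {γ : Cor C X} (hγ : γ ∈ cor0 C X)
    {a b : ℕ} (hab : b < a) : P a * γ * P b = 0 := by
  have h1 : P a * (γ * P b) = 0 := hT γ hγ a b hab
  rw [mul_assoc]
  exact h1

/-- The sum of the `P i` over any large range is one. -/
lemma IsCK.sum_one {P : ℕ → Cor C X} (h : IsCK H X P) {N : ℕ} (hN : 2 * X.dim + 1 ≤ N) :
    ∑ i ∈ Finset.range N, P i = 1 := h.sum_of_le hN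

/-- The diagonal entries of an idempotent are idempotent. -/
lemma diag_mul {P : ℕ → Cor C X} (h : IsCK H X P) (hT : NoRaising C P) {p : Cor C X}
    (hp : p ∈ cor0 C X) (hpp : p * p = p) (a : ℕ) :
    (P a * p * P a) * (P a * p * P a) = P a * p * P a := by
  have h1 : P a * p * P a = ∑ c ∈ Finset.range (2 * X.dim + 1 + (a + 1)),
      (P a * p * P c) * (p * P a) := by
    have h2 : P a * p * P a = P a * p * 1 * (p * P a) := by
      rw [mul_one, mul_assoc (P a) p (p * P a), ← mul_assoc p p, hpp, ← mul_assoc]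
    rw [h2, ← IsCK.sum_one h (N := 2 * X.dim + 1 + (a + 1)) (by omega), Finset.mul_sum,
      Finset.sum_mul]
  have h3 : ∀ c ∈ Finset.range (2 * X.dim + 1 + (a + 1)), c ≠ a →
      (P a * p * P c) * (p * P a) = 0 := by
    intro c _ hc
    rcases lt_or_gt_of_ne hc with h4 | h4
    · rw [hT.mul_eq (H := H) hp h4, zero_mul]
    · have h5 : P a * p * P c * (p * P a) = P a * p * (P c * p * P a) := by
        simp only [mul_assoc]
      rw [h5, hT.mul_eq (H := H) hp h4, mul_zero]
  rw [Finset.sum_eq_single a h3 (fun h4 => absurd (Finset.mem_range.2 (by omega)) h4)] at h1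
  have h6 : P a * p * P a * (P a * p * P a) = P a * p * (P a * P a) * (p * P a) := by
    simp only [mul_assoc]
  rw [h6, h.mul_eq, if_pos rfl]
  exact h1.symm

lemma actH_ext {a : Cor C X} (h : ∀ (m : ℤ) (x : H.A X), x ∈ H.gr X m → actH C X H a x = 0) :
    H.cl (X := X.prod X) a = 0 := by
  apply hom_zero_of_act
  have h0 : actH C X H a = 0 := by
    apply ext_gr H
    intro m x hx
    rw [LinearMap.zero_apply]
    exact h m x hx
  intro x
  exact LinearMap.congr_fun h0 x

lemma actH_of_cl {a : Cor C X} (h : H.cl (X := X.prod X) a = 0) : actH C X H a = 0 := by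
  apply LinearMap.ext
  intro x
  rw [actH_apply, h, LinearMap.zero_apply]
  have h1 := H.actL_apply (0 : H.A (X.prod X)) x
  rw [TheoryData.act_zero]

lemma actC_mem {a : Cor C X} (ha : a ∈ cor0 C X) {i : ℤ} {x : C.A X} (hx : x ∈ C.gr X i) :
    actC C X a x ∈ C.gr X i := act_mem0 C ha hx

/-- The entries of one Chow-Kunneth decomposition with respect to another one are homologically
trivial outside the diagonal. -/
lemma entry_cl {P P' : ℕ → Cor C X} (h : IsCK H X P) (h' : IsCK H X P') {a b : ℕ} (hab : a ≠ b) :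
    H.cl (X := X.prod X) (P a * P' b * P a) = 0 := by
  apply actH_ext
  intro m x hx
  rw [map_mul, map_mul, Module.End.mul_apply, Module.End.mul_apply, h.actH_eq' a m hx]
  split_ifs with hm
  · rw [h'.actH_eq' b m hx, if_neg (by omega), map_zero]
  · rw [map_zero, map_zero]

/-- If phantoms act trivially then the filtration is independent of the decomposition. -/
theorem le_of_phantoms {P P' : ℕ → Cor C X} (h : IsCK H X P) (hT : NoRaising C P)
    (hph : PhantomsActTrivially H X) (h' : IsCK H X P') (i n : ℕ) :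
    ckFil C P i n = ckFil C P' i n := by
  have hPm : ∀ i, P i ∈ cor0 C X := h.deg
  have hPm' : ∀ i, P' i ∈ cor0 C X := h'.deg
  have hact : ∀ (a b : Cor C X) (z : C.A X), actC C X (a * b) z = actC C X a (actC C X b z) :=
    fun a b z => by rw [map_mul]; rfl
  have hent : ∀ a b, a ≠ b → ∀ z, actC C X (P a * P' b * P a) z = 0 := by
    intro a b hab z
    refine hph (P a * P' b * P a) ((cor0 C X).mul_mem ((cor0 C X).mul_mem (hPm a) (hPm' b))
      (hPm a)) ?_ (entry_cl h h' hab) z
    have h1 := diag_mul h hT (hPm' b) (by have := h'.mul_eq b b; rwa [if_pos rfl] at this) a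
    exact h1
  -- expansion of an entry
  have hexp : ∀ (γ : Cor C X), γ ∈ cor0 C X → ∀ (a : ℕ) (y : C.A X),
      (∀ c, a < c → actC C X (P c) y = 0) →
      actC C X (P a * γ) y = actC C X (P a * γ * P a) y := by
    intro γ hγ a y hy
    have h1 : actC C X (P a * γ) y = ∑ c ∈ Finset.range (2 * X.dim + 1 + (a + 1)),
        actC C X (P a * γ * P c) y := by
      have h2 : P a * γ = ∑ c ∈ Finset.range (2 * X.dim + 1 + (a + 1)), P a * γ * P c := by
        rw [← Finset.mul_sum, IsCK.sum_one h (by omega), mul_one]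
      conv_lhs => rw [h2]
      rw [map_sum, LinearMap.sum_apply]
    rw [h1]
    apply Finset.sum_eq_single a
    · intro c _ hc
      rcases lt_or_gt_of_ne hc with h4 | h4
      · rw [hT.mul_eq (H := H) hγ h4, map_zero, LinearMap.zero_apply]
      · rw [hact, hy c h4, map_zero]
    · intro h4
      exact absurd (Finset.mem_range.2 (by omega)) h4
  -- a class killed by the large `P c` is zero if all its leading components vanish
  have hlead : ∀ (N : ℕ) (y : C.A X), (∀ c, N ≤ c → actC C X (P c) y = 0) →
      ∀ (B : ℕ), (∀ a, B ≤ a → (∀ c, a < c → actC C X (P c) y = 0) → actC C X (P a) y = 0) →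
      ∀ c, B ≤ c → actC C X (P c) y = 0 := by
    intro N
    induction N with
    | zero => intro y hy B _ c _; exact hy c (Nat.zero_le c)
    | succ N ih =>
      intro y hy B hB c hc
      by_cases hBN : B ≤ N
      · refine ih y (fun c hc => ?_) B hB c hc
        rcases Nat.eq_or_lt_of_le hc with h5 | h5
        · rw [← h5]
          exact hB N hBN (fun c hc => hy c hc)
        · exact hy c h5
      · exact hy c (by omega)
  have hout : ∀ (y : C.A X) c, 2 * X.dim + 1 ≤ c → actC C X (P c) y = 0 := by
    intro y c hc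
    have h1 : P c = 0 := h.out c (by omega)
    rw [h1, map_zero, LinearMap.zero_apply]
  ext x
  rw [h.mem_ckFil, h'.mem_ckFil]
  constructor
  · rintro ⟨hx, hx1⟩
    refine ⟨hx, fun b hb => ?_⟩
    set y := actC C X (P' b) x with hy
    -- `y` lies in the same step of the filtration of `P`
    have hy1 : ∀ c, 2 * i + 1 - n ≤ c → actC C X (P c) y = 0 := by
      apply hlead _ y (hout y)
      intro a ha ha'
      -- `P a y = P a P' b x`, and only the components of `x` of weight `< a` contribute
      have h1 : actC C X (P a) y = ∑ c ∈ Finset.range (2 * X.dim + 1 + (a + 1)),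
          actC C X (P a * P' b * P c) x := by
        have h2 : P a * P' b = ∑ c ∈ Finset.range (2 * X.dim + 1 + (a + 1)),
            P a * P' b * P c := by
          rw [← Finset.mul_sum, IsCK.sum_one h (by omega), mul_one]
        rw [hy, ← hact]
        conv_lhs => rw [h2]
        rw [map_sum, LinearMap.sum_apply]
      rw [h1]
      apply Finset.sum_eq_zero
      intro c _
      by_cases hc : 2 * i + 1 - n ≤ c
      · have h3 : actC C X (P c) x = 0 := hx1 c hc
        rw [hact, h3, map_zero]
      · rw [hT.mul_eq (H := H) (hPm' b) (by omega), map_zero, LinearMap.zero_apply]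
    have hyy : actC C X (P' b) y = y := by
      rw [hy, ← hact, h'.mul_eq, if_pos rfl]
    have hy2 : ∀ c, 0 ≤ c → actC C X (P c) y = 0 := by
      apply hlead _ y hy1
      intro a _ ha'
      have h1 : actC C X (P a) y = actC C X (P a * P' b) y := by rw [hact, hyy]
      by_cases hab : 2 * i + 1 - n ≤ a
      · exact hy1 a hab
      · rw [h1, hexp _ (hPm' b) a y ha', hent a b (by omega)]
    have h1 : y = ∑ c ∈ Finset.range (2 * X.dim + 1), actC C X (P c) y := by
      rw [← LinearMap.sum_apply, ← map_sum, IsCK.sum_one h le_rfl, map_one]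
      rfl
    rw [Finset.sum_eq_zero (fun c _ => hy2 c (Nat.zero_le c))] at h1
    exact h1
  · rintro ⟨hx, hx1⟩
    refine ⟨hx, ?_⟩
    apply hlead _ x (hout x)
    intro a ha ha'
    have h1 : actC C X (P a) x = ∑ b ∈ Finset.range (2 * X.dim + 1),
        actC C X (P a * P' b) x := by
      have h2 : P a = ∑ b ∈ Finset.range (2 * X.dim + 1), P a * P' b := by
        rw [← Finset.mul_sum, IsCK.sum_one h' le_rfl, mul_one]
      conv_lhs => rw [h2]
      rw [map_sum, LinearMap.sum_apply]
    rw [h1]
    apply Finset.sum_eq_zero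
    intro b _
    by_cases hb : 2 * i + 1 - n ≤ b
    · have h3 : actC C X (P' b) x = 0 := hx1 b hb
      rw [hact, h3, map_zero]
    · rw [hexp _ (hPm' b) a x ha', hent a b (by omega)]

omit hC hH in
/-- Moving a phantom `e` of weight `a` to the weight `j`. -/
noncomputable def mv (P : ℕ → Cor C X) (e : Cor C X) (a j : ℕ) : ℕ → Cor C X :=
  fun i => if i = a then P a - e else if i = j then P j + e else P i

/-- Moving a phantom of weight `a` to the weight `j`. -/
lemma IsCK.move {P : ℕ → Cor C X} (h : IsCK H X P) {e : Cor C X} (he : e ∈ cor0 C X)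
    (hee : e * e = e) (hcl : H.cl (X := X.prod X) e = 0) {a j : ℕ} (haj : j ≠ a)
    (hPe : P a * e = e) (heP : e * P a = e) (ha : a ≤ 2 * X.dim) (hj : j ≤ 2 * X.dim) :
    IsCK H X (mv P e a j) := by
  have hPm : ∀ i, P i ∈ cor0 C X := h.deg
  have hPe' : ∀ i, i ≠ a → P i * e = 0 := by
    intro i hi
    rw [← hPe, ← mul_assoc, h.mul_eq, if_neg hi, zero_mul]
  have heP' : ∀ i, i ≠ a → e * P i = 0 := by
    intro i hi
    rw [← heP, mul_assoc, h.mul_eq, if_neg (Ne.symm hi), mul_zero]
  have hact0 := actH_of_cl hcl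
  let Q : ℕ → Cor C X := fun i => if i = a then P a - e else if i = j then P j + e else P i
  have Qa : Q a = P a - e := if_pos rfl
  have Qj : Q j = P j + e := by
    change (if j = a then P a - e else if j = j then P j + e else P j) = P j + e
    rw [if_neg haj, if_pos rfl]
  have Qn : ∀ i, i ≠ a → i ≠ j → Q i = P i := fun i h1 h2 => by
    change (if i = a then P a - e else if i = j then P j + e else P i) = P i
    rw [if_neg h1, if_neg h2]
  change IsCK H X Q
  apply isCK_of
  · intro i
    by_cases h1 : i = a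
    · rw [h1, Qa]; exact (cor0 C X).sub_mem (hPm a) he
    · by_cases h2 : i = j
      · rw [h2, Qj]; exact (cor0 C X).add_mem (hPm j) he
      · rw [Qn i h1 h2]; exact hPm i
  · intro i hi
    rw [Qn i (by omega) (by omega)]
    exact h.out i hi
  · intro i i'
    by_cases h1 : i = a
    · rw [h1, Qa]
      by_cases h2 : i' = a
      · rw [h2, Qa, if_pos rfl, sub_mul, mul_sub, mul_sub, hPe, heP, hee, h.mul_eq, if_pos rfl]
        abel
      · by_cases h3 : i' = j
        · rw [h3, Qj, if_neg (Ne.symm haj), sub_mul, mul_add, mul_add, hPe, hee, heP' j haj,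
            h.mul_eq, if_neg (Ne.symm haj)]
          abel
        · rw [Qn i' h2 h3, if_neg (Ne.symm h2), sub_mul, heP' i' h2, h.mul_eq,
            if_neg (Ne.symm h2), sub_zero]
    · by_cases h1' : i = j
      · rw [h1', Qj]
        by_cases h2 : i' = a
        · rw [h2, Qa, if_neg haj, add_mul, mul_sub, mul_sub, heP, hee, hPe' j haj, h.mul_eq,
            if_neg haj]
          abel
        · by_cases h3 : i' = j
          · rw [h3, Qj, if_pos rfl, add_mul, mul_add, mul_add, hPe' j haj, heP' j haj, hee,
              h.mul_eq, if_pos rfl]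
            abel
          · rw [Qn i' h2 h3, if_neg (Ne.symm h3), add_mul, heP' i' h2, h.mul_eq,
              if_neg (Ne.symm h3), add_zero]
      · rw [Qn i h1 h1']
        by_cases h2 : i' = a
        · rw [h2, Qa, if_neg h1, mul_sub, hPe' i h1, h.mul_eq, if_neg h1, sub_zero]
        · by_cases h3 : i' = j
          · rw [h3, Qj, if_neg h1', mul_add, hPe' i h1, h.mul_eq, if_neg h1', add_zero]
          · rw [Qn i' h2 h3, h.mul_eq]
  · have h1 : ∀ i, Q i = P i + ((if i = j then e else 0) - (if i = a then e else 0)) := by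
      intro i
      by_cases h1 : i = a
      · rw [h1, Qa, if_pos rfl, if_neg (Ne.symm haj)]
        abel
      · by_cases h2 : i = j
        · rw [h2, Qj, if_pos rfl, if_neg haj]
          abel
        · rw [Qn i h1 h2, if_neg h1, if_neg h2]
          abel
    rw [Finset.sum_congr rfl (fun i _ => h1 i), Finset.sum_add_distrib, Finset.sum_sub_distrib,
      Finset.sum_ite_eq', Finset.sum_ite_eq', if_pos (Finset.mem_range.2 (by omega)),
      if_pos (Finset.mem_range.2 (by omega)), sub_self, add_zero, IsCK.sum_one h le_rfl]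
  · intro i m x hx
    have h2 : actH C X H (Q i) = actH C X H (P i) := by
      by_cases h1 : i = a
      · rw [h1, Qa, map_sub, hact0, sub_zero]
      · by_cases h2 : i = j
        · rw [h2, Qj, map_add, hact0, add_zero]
        · rw [Qn i h1 h2]
    rw [h2, h.actH_eq' i m hx]

/-- A phantom which does not act trivially has a homogeneous component which does not. -/
lemma exists_entry {P : ℕ → Cor C X} (h : IsCK H X P) (hT : NoRaising C P) {p : Cor C X}
    (hp : p ∈ cor0 C X) (hpp : p * p = p) (hcl : H.cl (X := X.prod X) p = 0) {i : ℤ} {x : C.A X}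
    (hx : x ∈ C.gr X i) (hne : actC C X p x ≠ 0) :
    ∃ (a : ℕ) (e : Cor C X) (y : C.A X), a ≤ 2 * X.dim ∧ e ∈ cor0 C X ∧ e * e = e ∧
      H.cl (X := X.prod X) e = 0 ∧ P a * e = e ∧ e * P a = e ∧ y ∈ C.gr X i ∧ y ≠ 0 ∧
      actC C X e y = y := by
  have hPm : ∀ i, P i ∈ cor0 C X := h.deg
  have hact : ∀ (a b : Cor C X) (z : C.A X), actC C X (a * b) z = actC C X a (actC C X b z) :=
    fun a b z => by rw [map_mul]; rfl
  set z := actC C X p x with hz
  have hpz : actC C X p z = z := by rw [hz, ← hact, hpp]
  have hzm : z ∈ C.gr X i := actC_mem (H := H) hp hx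
  -- the largest weight of `z`
  have h1 : ∃ a, actC C X (P a) z ≠ 0 := by
    by_contra hcon
    push Not at hcon
    apply hne
    have h2 : z = ∑ c ∈ Finset.range (2 * X.dim + 1), actC C X (P c) z := by
      rw [← LinearMap.sum_apply, ← map_sum, IsCK.sum_one h le_rfl, map_one]
      rfl
    rw [h2]
    exact Finset.sum_eq_zero (fun c _ => hcon c)
  have hbd : ∀ a, actC C X (P a) z ≠ 0 → a ≤ 2 * X.dim := by
    intro a ha
    by_contra hcon
    apply ha
    have h2 : P a = 0 := h.out a (by omega)
    rw [h2, map_zero, LinearMap.zero_apply]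
  classical
  obtain ⟨a0, ha0⟩ := h1
  let s : Finset ℕ := (Finset.range (2 * X.dim + 1)).filter (fun a => actC C X (P a) z ≠ 0)
  have hs : s.Nonempty := ⟨a0, Finset.mem_filter.2 ⟨Finset.mem_range.2 (by
    have := hbd a0 ha0; omega), ha0⟩⟩
  let a := s.max' hs
  have ha : a ∈ s := s.max'_mem hs
  have ha1 : actC C X (P a) z ≠ 0 := (Finset.mem_filter.1 ha).2
  have ha2 : ∀ c, a < c → actC C X (P c) z = 0 := by
    intro c hc
    by_contra hcon
    have h3 : c ∈ s := Finset.mem_filter.2 ⟨Finset.mem_range.2 (by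
      have := hbd c hcon; omega), hcon⟩
    have h4 := s.le_max' c h3
    exact absurd h4 (not_le.2 hc)
  have hP : P a * P a = P a := by rw [h.mul_eq, if_pos rfl]
  refine ⟨a, P a * p * P a, actC C X (P a) z, hbd a ha1,
    (cor0 C X).mul_mem ((cor0 C X).mul_mem (hPm a) hp) (hPm a), diag_mul h hT hp hpp a, ?_, ?_,
    ?_, actC_mem (H := H) (hPm a) hzm, ha1, ?_⟩
  · apply actH_ext
    intro m y hy
    rw [map_mul, map_mul, Module.End.mul_apply, Module.End.mul_apply, actH_of_cl hcl,
      LinearMap.zero_apply, map_zero]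
  · rw [← mul_assoc, ← mul_assoc, hP]
  · rw [mul_assoc, hP]
  · rw [← hact, mul_assoc, hP]
    have h2 : actC C X (P a) z = actC C X (P a * p) z := by rw [hact, hpz]
    rw [h2]
    have h3 : P a * p = ∑ c ∈ Finset.range (2 * X.dim + 1 + (a + 1)), P a * p * P c := by
      rw [← Finset.mul_sum, IsCK.sum_one h (by omega), mul_one]
    have h4 : actC C X (P a * p) z = ∑ c ∈ Finset.range (2 * X.dim + 1 + (a + 1)),
        actC C X (P a * p * P c) z := by
      conv_lhs => rw [h3]
      rw [map_sum, LinearMap.sum_apply]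
    rw [h4]
    symm
    apply Finset.sum_eq_single a
    · intro c _ hc
      rcases lt_or_gt_of_ne hc with h5 | h5
      · rw [hT.mul_eq (H := H) hp h5, map_zero, LinearMap.zero_apply]
      · rw [hact, ha2 c h5, map_zero]
    · intro h5
      exact absurd (Finset.mem_range.2 (by omega)) h5

end Pool.Agent.X308.S
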